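import Mathlib
import Pool.Agent.Lib.MP_0a1b52_lc_FP.Defs

/-!
# Reading patterns: definitions
-/

set_option autoImplicit false

namespace Pool.Agent.RP

open Pool.Agent.FP

/-- `A` is closed under stars: `u` belongs to `A` if for each `k` the set `A` contains an
assignment which agrees with `u` on the two sets `W a` with `a ≠ k` (the sets may overlap) -/
def StarW {V : Type} (W : Fin 3 → Set V) (A : (V → Bool) → Prop) : Prop :=
  ∀ (u : V → Bool) (v : Fin 3 → V → Bool), (∀ k a, a ≠ k → ∀ e ∈ W a, v k e = u e) →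
    (∀ k, A (v k)) → A u

/-- the positions of a gadget: the two ends of three variable edges and `z` further vertices -/
abbrev J (z : ℕ) : Type := (Fin 3 × Bool) ⊕ Fin z

/-- the pair `{u, v}` is a variable of the set `X` -/
def Pr {n : ℕ} (X : Finset (EdgeVar n)) (u v : Fin n) : Prop :=
  ∃ e ∈ X, e.1 = (u, v) ∨ e.1 = (v, u)

/-- the pairs of elements of `Fin h` -/
abbrev Pairs (h : ℕ) : Type := {q : Fin h × Fin h // q.1 < q.2}

/-- A system of gadgets `w : I → Jt → Vt` without bad configurations: the gadgets are injective,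
two gadgets share at most one vertex, no fan (a gadget `i₀`, `a` of its vertices and a vertex `f`
joined to them by `a` different gadgets `≠ i₀`), no web (`h` vertices all of whose pairs lie in
different gadgets). -/
structure NoBad {I Jt Vt : Type} (a h : ℕ) (w : I → Jt → Vt) : Prop where
  inj : ∀ i, Function.Injective (w i)
  share : ∀ (i i' : I) (j k j' k' : Jt), i ≠ i' → j ≠ k → j' ≠ k' → w i j = w i' j' →
    w i k = w i' k' → False
  fan : ∀ (i₀ : I) (f : Vt) (j : Fin a → Jt) (i : Fin a → I) (k k' : Fin a → Jt),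
    Function.Injective j → Function.Injective i → (∀ l, i l ≠ i₀) → (∀ l, k l ≠ k' l) →
    (∀ l, w (i l) (k l) = w i₀ (j l)) → (∀ l, w (i l) (k' l) = f) → False
  web : ∀ (f : Fin h → Vt) (i : Pairs h → I) (k k' : Pairs h → Jt),
    Function.Injective i → (∀ q, k q ≠ k' q) → (∀ q, w (i q) (k q) = f q.1.1) →
    (∀ q, w (i q) (k' q) = f q.1.2) → False

/-! ## Gadget graphs -/

/-- the padding: the vertices with the `√n + 1 - g` largest numbers (`g = z + 6`) -/
def Pad {n : ℕ} (z : ℕ) (v : Fin n) : Prop := n - (Nat.sqrt n + 1 - (z + 6)) ≤ (v : ℕ)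

/-- the edge between the positions `j, j'` of the gadget `i` is switched on by `X` -/
def Ok {I : Type} {z : ℕ} (X : Fin 3 → I → Bool) (i : I) (j j' : J z) : Prop :=
  ∀ (t : Fin 3) (b : Bool), j = .inl (t, b) → j' = .inl (t, !b) → X t i = true

/-- adjacency in the gadget graph -/
def GAdj {I : Type} {n z : ℕ} (w : I → J z → Fin n) (X : Fin 3 → I → Bool) (u v : Fin n) : Prop :=
  Pad z u ∨ Pad z v ∨ ∃ i j j', j ≠ j' ∧ u = w i j ∧ v = w i j' ∧ Ok X i j j'

open Classical in
/-- the gadget graph as an assignment -/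
noncomputable def GG {I : Type} {n z : ℕ} (w : I → J z → Fin n) (X : Fin 3 → I → Bool) :
    EdgeVar n → Bool :=
  fun e => decide (GAdj w X e.1.1 e.1.2)

/-! ## Patterns -/

/-- three patterns of length `20` with odd inner product -/
abbrev Pat : Type := {p : (Fin 20 → Bool) × (Fin 20 → Bool) × (Fin 20 → Bool) //
  (∑ s, (p.1 s && p.2.1 s && p.2.2 s).toNat) % 2 = 1}

/-- all groups have even inner product -/
def Zr {ι : Type} (x y z : ι → Fin 20 → Bool) : Prop :=
  ∀ τ, (∑ s, (x τ s && y τ s && z τ s).toNat) % 2 = 0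

/-- the gadgets switched on by `x`, `y`, `z` -/
def Xs {ι : Type} (x y z : ι → Fin 20 → Bool) : Fin 3 → ι × Pat → Bool :=
  ![fun i => decide (i.2.1.1 = x i.1), fun i => decide (i.2.1.2.1 = y i.1),
    fun i => decide (i.2.1.2.2 = z i.1)]

end Pool.Agent.RP
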