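import Mathlib
import Pool.Agent.Lib.MP_0a1b52_lc_RP.Defs

/-!
# Reading patterns, module Count: functions with prescribed values
-/

set_option autoImplicit false

namespace Pool.Agent.RP

open Finset

theorem card_prescribed {U A : Type} [Fintype U] [DecidableEq U] [Fintype A] (N : ℕ)
    (c : A → U) (hc : Function.Injective c) (y : A → Fin N) :
    (univ.filter fun φ : U → Fin N => ∀ a, φ (c a) = y a).card * N ^ Fintype.card A =
      N ^ Fintype.card U := by
  classical
  have e : {φ : U → Fin N // ∀ a, φ (c a) = y a} × (A → Fin N) ≃ (U → Fin N) :=
    { toFun := fun p => Function.extend c p.2 p.1.1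
      invFun := fun f => (⟨Function.extend c y f, fun a => hc.extend_apply y f a⟩,
        fun a => f (c a))
      left_inv := by
        rintro ⟨⟨φ, hφ⟩, ψ⟩
        ext1
        · apply Subtype.ext
          funext u
          by_cases hu : ∃ a, c a = u
          · obtain ⟨a, rfl⟩ := hu
            simp only
            rw [hc.extend_apply, hφ a]
          · simp only
            rw [Function.extend_apply' _ _ _ hu, Function.extend_apply' _ _ _ hu]
        · funext a
          exact hc.extend_apply ψ φ a
      right_inv := by
        intro f
        funext u
        by_cases hu : ∃ a, c a = u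
        · obtain ⟨a, rfl⟩ := hu
          simp only
          rw [hc.extend_apply]
        · simp only
          rw [Function.extend_apply' _ _ _ hu, Function.extend_apply' _ _ _ hu] }
  have h := Fintype.card_congr e
  rw [Fintype.card_prod, Fintype.card_fun, Fintype.card_fun, Fintype.card_fin,
    Fintype.card_subtype] at h
  exact h

/-- the pairs (configuration, values of the labels) which hold for a function, summed over all
functions -/
theorem sum_pattern {U A H Q : Type} [Fintype U] [DecidableEq U] [Fintype A] [Fintype H]
    [DecidableEq H] [Fintype Q] (N : ℕ) (c : Q → A → U) (hc : ∀ q, Function.Injective (c q))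
    (lam : A → H) :
    (∑ φ : U → Fin N, (univ.filter fun p : Q × (H → Fin N) =>
      ∀ a, φ (c p.1 a) = p.2 (lam a)).card) * N ^ Fintype.card A =
      N ^ Fintype.card U * (Fintype.card Q * N ^ Fintype.card H) := by
  classical
  have h1 : (∑ φ : U → Fin N, (univ.filter fun p : Q × (H → Fin N) =>
      ∀ a, φ (c p.1 a) = p.2 (lam a)).card) =
      ∑ p : Q × (H → Fin N), (univ.filter fun φ : U → Fin N =>
        ∀ a, φ (c p.1 a) = p.2 (lam a)).card := by
    simp only [Finset.card_filter]
    exact Finset.sum_comm
  rw [h1, Finset.sum_mul]
  rw [Finset.sum_congr rfl (fun p _ => card_prescribed N (c p.1) (hc p.1) (fun a => p.2 (lam a)))]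
  rw [Finset.sum_const, Finset.card_univ, Fintype.card_prod, Fintype.card_fun, Fintype.card_fin,
    smul_eq_mul, mul_comm]

end Pool.Agent.RP
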