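import Mathlib
import Pool.Agent.Lib.MP_0a1b52_lc_RP.Count

/-!
# Reading patterns, module BadGen: removing one gadget from each configuration of a pattern
-/

set_option autoImplicit false

namespace Pool.Agent.RP

open Finset

theorem bad_general {I Jt A H Q : Type} [Fintype I] [DecidableEq I] [Fintype Jt] [DecidableEq Jt]
    [Fintype A] [Fintype H] [DecidableEq H] [Fintype Q] (N : ℕ) (hN : 1 ≤ N)
    (c : Q → A → I × Jt) (hc : ∀ q, Function.Injective (c q)) (lam : A → H) (own : Q → I) :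
    ∃ R : (I × Jt → Fin N) → Finset I,
      (∀ φ q (f : H → Fin N), (∀ a, φ (c q a) = f (lam a)) → own q ∈ R φ) ∧
      (∑ φ, ((R φ).card : ℝ)) ≤ (N : ℝ) ^ (Fintype.card I * Fintype.card Jt) *
        ((Fintype.card Q : ℝ) * (N : ℝ) ^ Fintype.card H / (N : ℝ) ^ Fintype.card A) := by
  classical
  have hN0 : (0 : ℝ) < N := by exact_mod_cast hN
  have hA : (0 : ℝ) < (N : ℝ) ^ Fintype.card A := pow_pos hN0 _
  refine ⟨fun φ => (univ.filter fun p : Q × (H → Fin N) =>
      ∀ a, φ (c p.1 a) = p.2 (lam a)).image (fun p => own p.1), ?_, ?_⟩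
  · intro φ q f h
    rw [mem_image]
    exact ⟨(q, f), by simpa using h, rfl⟩
  · have h1 := sum_pattern (U := I × Jt) N c hc lam
    have h2 : ((∑ φ : I × Jt → Fin N, (univ.filter fun p : Q × (H → Fin N) =>
        ∀ a, φ (c p.1 a) = p.2 (lam a)).card : ℕ) : ℝ) * (N : ℝ) ^ Fintype.card A =
        (N : ℝ) ^ (Fintype.card I * Fintype.card Jt) *
          ((Fintype.card Q : ℝ) * (N : ℝ) ^ Fintype.card H) := by
      rw [Fintype.card_prod] at h1
      exact_mod_cast h1
    rw [← mul_div_assoc, le_div_iff₀ hA, ← h2]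
    apply mul_le_mul_of_nonneg_right _ hA.le
    rw [← Nat.cast_sum, Nat.cast_le]
    exact sum_le_sum fun φ _ => card_image_le

end Pool.Agent.RP
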