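import Mathlib
import Pool.Agent.Lib.MP_0a1b52_lc_RP.BadGen

/-!
# Reading patterns, module BadA: gadgets with a repeated vertex, gadgets sharing two vertices
-/

set_option autoImplicit false

namespace Pool.Agent.RP

open Finset

theorem bad_inj {I Jt : Type} [Fintype I] [DecidableEq I] [Fintype Jt] [DecidableEq Jt] (N : ℕ)
    (hN : 1 ≤ N) :
    ∃ R : (I × Jt → Fin N) → Finset I,
      (∀ φ i, i ∉ R φ → Function.Injective fun j => φ (i, j)) ∧
      (∑ φ, ((R φ).card : ℝ)) ≤ (N : ℝ) ^ (Fintype.card I * Fintype.card Jt) *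
        ((Fintype.card I : ℝ) * (Fintype.card Jt : ℝ) ^ 2 / N) := by
  obtain ⟨R, hR, hs⟩ := bad_general (I := I) (Jt := Jt) (A := Fin 2) (H := Unit)
    (Q := {q : I × Jt × Jt // q.2.1 ≠ q.2.2}) N hN
    (fun q => ![(q.1.1, q.1.2.1), (q.1.1, q.1.2.2)]) (by
      rintro ⟨⟨i, j, k⟩, hq⟩ a b h
      dsimp only at hq
      fin_cases a <;> fin_cases b <;> simp at h ⊢
      · exact hq h
      · exact hq h.symm) (fun _ => ()) (fun q => q.1.1)
  refine ⟨R, fun φ i hi j k h => ?_, hs.trans ?_⟩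
  · by_contra hne
    refine hi (hR φ ⟨(i, j, k), hne⟩ (fun _ => φ (i, j)) fun a => ?_)
    fin_cases a
    · rfl
    · exact h.symm
  · have hN' : (0 : ℝ) < N := by exact_mod_cast hN
    have h1 : (Fintype.card {q : I × Jt × Jt // q.2.1 ≠ q.2.2} : ℝ) ≤
        (Fintype.card I : ℝ) * (Fintype.card Jt : ℝ) ^ 2 := by
      have h2 := Fintype.card_subtype_le fun q : I × Jt × Jt => q.2.1 ≠ q.2.2
      rw [Fintype.card_prod, Fintype.card_prod] at h2
      have h3 : (Fintype.card {q : I × Jt × Jt // q.2.1 ≠ q.2.2} : ℝ) ≤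
          ((Fintype.card I * (Fintype.card Jt * Fintype.card Jt) : ℕ) : ℝ) := by
        exact_mod_cast h2
      refine h3.trans (le_of_eq ?_)
      push_cast
      ring
    refine mul_le_mul_of_nonneg_left ?_ (by positivity)
    have h4 : (N : ℝ) ^ Fintype.card Unit / (N : ℝ) ^ Fintype.card (Fin 2) = 1 / N := by
      rw [Fintype.card_unit, Fintype.card_fin]
      field_simp
    rw [mul_div_assoc, h4, mul_one_div]
    exact div_le_div_of_nonneg_right h1 hN'.le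

theorem bad_share {I Jt : Type} [Fintype I] [DecidableEq I] [Fintype Jt] [DecidableEq Jt] (N : ℕ)
    (hN : 1 ≤ N) :
    ∃ R : (I × Jt → Fin N) → Finset I,
      (∀ φ i i' j k j' k', i ∉ R φ → i ≠ i' → j ≠ k → j' ≠ k' → φ (i, j) = φ (i', j') →
        φ (i, k) = φ (i', k') → False) ∧
      (∑ φ, ((R φ).card : ℝ)) ≤ (N : ℝ) ^ (Fintype.card I * Fintype.card Jt) *
        ((Fintype.card I : ℝ) ^ 2 * (Fintype.card Jt : ℝ) ^ 4 / (N : ℝ) ^ 2) := by
  obtain ⟨R, hR, hs⟩ := bad_general (I := I) (Jt := Jt) (A := Fin 4) (H := Fin 2)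
    (Q := {q : (I × I) × (Jt × Jt) × (Jt × Jt) //
      q.1.1 ≠ q.1.2 ∧ q.2.1.1 ≠ q.2.1.2 ∧ q.2.2.1 ≠ q.2.2.2}) N hN
    (fun q => ![(q.1.1.1, q.1.2.1.1), (q.1.1.1, q.1.2.1.2), (q.1.1.2, q.1.2.2.1),
      (q.1.1.2, q.1.2.2.2)]) (by
      rintro ⟨⟨⟨i, i'⟩, ⟨j, k⟩, ⟨j', k'⟩⟩, h1, h2, h3⟩ a b h
      dsimp only at h1 h2 h3
      fin_cases a <;> fin_cases b <;> simp at h ⊢ <;>
        first
          | exact h1 h.1
          | exact h1 h.1.symm
          | exact h2 h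
          | exact h2 h.symm
          | exact h3 h
          | exact h3 h.symm) ![0, 1, 0, 1] (fun q => q.1.1.1)
  refine ⟨R, fun φ i i' j k j' k' hi h1 h2 h3 h4 h5 => ?_, hs.trans ?_⟩
  · refine hi (hR φ ⟨((i, i'), (j, k), (j', k')), h1, h2, h3⟩ ![φ (i, j), φ (i, k)] fun a => ?_)
    fin_cases a
    · rfl
    · rfl
    · exact h4.symm
    · exact h5.symm
  · have hN' : (0 : ℝ) < N := by exact_mod_cast hN
    have h1 : (Fintype.card {q : (I × I) × (Jt × Jt) × (Jt × Jt) //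
        q.1.1 ≠ q.1.2 ∧ q.2.1.1 ≠ q.2.1.2 ∧ q.2.2.1 ≠ q.2.2.2} : ℝ) ≤
        (Fintype.card I : ℝ) ^ 2 * (Fintype.card Jt : ℝ) ^ 4 := by
      have h2 := Fintype.card_subtype_le fun q : (I × I) × (Jt × Jt) × (Jt × Jt) =>
        q.1.1 ≠ q.1.2 ∧ q.2.1.1 ≠ q.2.1.2 ∧ q.2.2.1 ≠ q.2.2.2
      rw [Fintype.card_prod, Fintype.card_prod, Fintype.card_prod, Fintype.card_prod] at h2
      have h3 : (Fintype.card {q : (I × I) × (Jt × Jt) × (Jt × Jt) //
          q.1.1 ≠ q.1.2 ∧ q.2.1.1 ≠ q.2.1.2 ∧ q.2.2.1 ≠ q.2.2.2} : ℝ) ≤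
          ((Fintype.card I * Fintype.card I *
            (Fintype.card Jt * Fintype.card Jt * (Fintype.card Jt * Fintype.card Jt)) : ℕ) :
              ℝ) := by
        exact_mod_cast h2
      refine h3.trans (le_of_eq ?_)
      push_cast
      ring
    refine mul_le_mul_of_nonneg_left ?_ (by positivity)
    have h4 : (N : ℝ) ^ Fintype.card (Fin 2) / (N : ℝ) ^ Fintype.card (Fin 4) =
        1 / (N : ℝ) ^ 2 := by
      rw [Fintype.card_fin, Fintype.card_fin]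
      field_simp
    rw [mul_div_assoc, h4, mul_one_div]
    exact div_le_div_of_nonneg_right h1 (by positivity)

end Pool.Agent.RP
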