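import Mathlib
import Pool.Agent.Lib.MP_0a1b52_lc_RP.BadGen

/-!
# Reading patterns, module BadB: fans
-/

set_option autoImplicit false

namespace Pool.Agent.RP

open Finset

/-- the index type of the fans -/
private abbrev BadBQ (I Jt : Type) (a : ℕ) : Type :=
  {x : I × (Fin a → Jt) × (Fin a → I) × (Fin a → Jt) × (Fin a → Jt) //
    Function.Injective x.2.1 ∧ Function.Injective x.2.2.1 ∧ (∀ l, x.2.2.1 l ≠ x.1) ∧
      ∀ l, x.2.2.2.1 l ≠ x.2.2.2.2 l}

theorem bad_fan {I Jt : Type} [Fintype I] [DecidableEq I] [Fintype Jt] [DecidableEq Jt] (N a : ℕ)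
    (hN : 1 ≤ N) (ha : 1 ≤ a) :
    ∃ R : (I × Jt → Fin N) → Finset I,
      (∀ φ (i₀ : I) (f : Fin N) (j : Fin a → Jt) (i : Fin a → I) (k k' : Fin a → Jt), i₀ ∉ R φ →
        Function.Injective j → Function.Injective i → (∀ l, i l ≠ i₀) → (∀ l, k l ≠ k' l) →
        (∀ l, φ (i l, k l) = φ (i₀, j l)) → (∀ l, φ (i l, k' l) = f) → False) ∧
      (∑ φ, ((R φ).card : ℝ)) ≤ (N : ℝ) ^ (Fintype.card I * Fintype.card Jt) *
        ((Fintype.card I : ℝ) ^ (a + 1) * (Fintype.card Jt : ℝ) ^ (3 * a) * N /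
          (N : ℝ) ^ (2 * a)) := by
  classical
  obtain ⟨R, hR, hs⟩ := bad_general (I := I) (Jt := Jt) (A := Fin a ⊕ (Fin a ⊕ Fin a))
    (H := Option (Fin a)) (Q := BadBQ I Jt a) N hN
    (fun q => Sum.elim (fun l => (q.1.1, q.1.2.1 l)) (Sum.elim
      (fun l => (q.1.2.2.1 l, q.1.2.2.2.1 l)) (fun l => (q.1.2.2.1 l, q.1.2.2.2.2 l))))
    (by
      rintro ⟨⟨i0, j, i, k, k'⟩, h1, h2, h3, h4⟩ (l | l | l) (l' | l' | l') h
      · simp only [Sum.elim_inl, Prod.mk.injEq] at h
        rw [h1 h.2]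
      · simp only [Sum.elim_inl, Sum.elim_inr, Prod.mk.injEq] at h
        exact absurd h.1.symm (h3 l')
      · simp only [Sum.elim_inl, Sum.elim_inr, Prod.mk.injEq] at h
        exact absurd h.1.symm (h3 l')
      · simp only [Sum.elim_inl, Sum.elim_inr, Prod.mk.injEq] at h
        exact absurd h.1 (h3 l)
      · simp only [Sum.elim_inl, Sum.elim_inr, Prod.mk.injEq] at h
        rw [h2 h.1]
      · simp only [Sum.elim_inl, Sum.elim_inr, Prod.mk.injEq] at h
        obtain ⟨e1, e2⟩ := h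
        have e3 := h2 e1
        subst e3
        exact absurd e2 (h4 l)
      · simp only [Sum.elim_inl, Sum.elim_inr, Prod.mk.injEq] at h
        exact absurd h.1 (h3 l)
      · simp only [Sum.elim_inl, Sum.elim_inr, Prod.mk.injEq] at h
        obtain ⟨e1, e2⟩ := h
        have e3 := h2 e1
        subst e3
        exact absurd e2.symm (h4 l)
      · simp only [Sum.elim_inr, Prod.mk.injEq] at h
        rw [h2 h.1])
    (Sum.elim some (Sum.elim some fun _ => none)) (fun q => q.1.1)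
  refine ⟨R, ?_, hs.trans ?_⟩
  · intro φ i₀ f j i k k' h0 hj hi hi0 hkk h1 h2
    apply h0
    refine hR φ ⟨(i₀, j, i, k, k'), hj, hi, hi0, hkk⟩
      (fun o => o.elim f fun l => φ (i₀, j l)) ?_
    rintro (l | l | l)
    · rfl
    · exact h1 l
    · exact h2 l
  · have hN' : (0 : ℝ) < N := by exact_mod_cast hN
    have hcQ : (Fintype.card (BadBQ I Jt a) : ℝ) ≤
        (Fintype.card I : ℝ) ^ (a + 1) * (Fintype.card Jt : ℝ) ^ (3 * a) := by
      have h1 := Fintype.card_subtype_le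
        (fun x : I × (Fin a → Jt) × (Fin a → I) × (Fin a → Jt) × (Fin a → Jt) =>
          Function.Injective x.2.1 ∧ Function.Injective x.2.2.1 ∧ (∀ l, x.2.2.1 l ≠ x.1) ∧
            ∀ l, x.2.2.2.1 l ≠ x.2.2.2.2 l)
      have h2 : Fintype.card (I × (Fin a → Jt) × (Fin a → I) × (Fin a → Jt) × (Fin a → Jt)) =
          Fintype.card I ^ (a + 1) * Fintype.card Jt ^ (3 * a) := by
        simp only [Fintype.card_prod, Fintype.card_fun, Fintype.card_fin]
        ring
      rw [h2] at h1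
      exact_mod_cast h1
    refine mul_le_mul_of_nonneg_left ?_ (by positivity)
    have e1 : (N : ℝ) ^ Fintype.card (Option (Fin a)) /
        (N : ℝ) ^ Fintype.card (Fin a ⊕ (Fin a ⊕ Fin a)) = N / (N : ℝ) ^ (2 * a) := by
      simp only [Fintype.card_option, Fintype.card_sum, Fintype.card_fin]
      rw [div_eq_div_iff (by positivity) (by positivity)]
      ring
    rw [mul_div_assoc, e1, ← mul_div_assoc]
    gcongr

end Pool.Agent.RP
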