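import Mathlib
import Pool.Agent.Lib.MP_0a1b52_lc_RP.BadGen

/-!
# Reading patterns, module BadC: webs
-/

set_option autoImplicit false

namespace Pool.Agent.RP

open Finset

private abbrev badCQ (I Jt : Type) (h : ℕ) : Type :=
  {t : (Pairs h → I) × (Pairs h → Jt) × (Pairs h → Jt) //
    Function.Injective t.1 ∧ ∀ q, t.2.1 q ≠ t.2.2 q}

private def badCc {I Jt : Type} {h : ℕ} (t : badCQ I Jt h) (a : Pairs h × Bool) : I × Jt :=
  (t.1.1 a.1, bif a.2 then t.1.2.2 a.1 else t.1.2.1 a.1)

private def badCl {h : ℕ} (a : Pairs h × Bool) : Fin h := bif a.2 then a.1.1.2 else a.1.1.1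

theorem bad_web {I Jt : Type} [Fintype I] [DecidableEq I] [Fintype Jt] [DecidableEq Jt] (N h : ℕ)
    (hN : 1 ≤ N) (hh : 2 ≤ h) :
    ∃ R : (I × Jt → Fin N) → Finset I,
      (∀ φ (f : Fin h → Fin N) (i : Pairs h → I) (k k' : Pairs h → Jt), (∀ q, i q ∉ R φ) →
        Function.Injective i → (∀ q, k q ≠ k' q) → (∀ q, φ (i q, k q) = f q.1.1) →
        (∀ q, φ (i q, k' q) = f q.1.2) → False) ∧
      (∑ φ, ((R φ).card : ℝ)) ≤ (N : ℝ) ^ (Fintype.card I * Fintype.card Jt) *
        (((Fintype.card I : ℝ) * (Fintype.card Jt : ℝ) ^ 2) ^ Fintype.card (Pairs h) *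
          (N : ℝ) ^ h / (N : ℝ) ^ (2 * Fintype.card (Pairs h))) := by
  classical
  have q0 : Pairs h := ⟨(⟨0, by omega⟩, ⟨1, by omega⟩), by
    rw [Fin.lt_def]; exact Nat.zero_lt_one⟩
  have hinj : ∀ t : badCQ I Jt h, Function.Injective (badCc t) := by
    rintro ⟨⟨i, k, k'⟩, hi, hk⟩ ⟨q, b⟩ ⟨q', b'⟩ h0
    simp only [badCc, Prod.mk.injEq] at h0
    obtain ⟨h1, h2⟩ := h0
    have h3 : q = q' := hi h1
    subst h3
    rcases b with _ | _ <;> rcases b' with _ | _
    · rfl
    · exact absurd h2 (hk q)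
    · exact absurd h2.symm (hk q)
    · rfl
  obtain ⟨R, hR, hsum⟩ := bad_general (Q := badCQ I Jt h) N hN badCc hinj badCl
    (fun t => t.1.1 q0)
  refine ⟨R, ?_, hsum.trans ?_⟩
  · intro φ f i k k' hi hinj' hk h1 h2
    apply hi q0
    refine hR φ ⟨(i, k, k'), hinj', hk⟩ f ?_
    rintro ⟨q, b⟩
    rcases b with _ | _
    · exact h1 q
    · exact h2 q
  · refine mul_le_mul_of_nonneg_left ?_ (by positivity)
    have hA : Fintype.card (Pairs h × Bool) = 2 * Fintype.card (Pairs h) := by
      rw [Fintype.card_prod, Fintype.card_bool, mul_comm]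
    rw [hA, Fintype.card_fin]
    refine div_le_div_of_nonneg_right (mul_le_mul_of_nonneg_right ?_ (by positivity))
      (by positivity)
    have h3 : Fintype.card (badCQ I Jt h) ≤
        Fintype.card ((Pairs h → I) × (Pairs h → Jt) × (Pairs h → Jt)) :=
      Fintype.card_subtype_le _
    have h4 : Fintype.card ((Pairs h → I) × (Pairs h → Jt) × (Pairs h → Jt)) =
        (Fintype.card I * Fintype.card Jt ^ 2) ^ Fintype.card (Pairs h) := by
      rw [Fintype.card_prod, Fintype.card_prod, Fintype.card_fun, Fintype.card_fun, mul_pow,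
        ← pow_mul, mul_comm 2, pow_mul, sq]
    rw [h4] at h3
    calc (Fintype.card (badCQ I Jt h) : ℝ)
        ≤ (((Fintype.card I * Fintype.card Jt ^ 2) ^ Fintype.card (Pairs h) : ℕ) : ℝ) := by
          exact_mod_cast h3
      _ = _ := by push_cast; rfl

theorem pairs_card (h : ℕ) : 2 * Fintype.card (Pairs h) = h * (h - 1) := by
  have e : Fintype.card (Fin h × Fin h) = Fintype.card (Pairs h) +
      Fintype.card {p : Fin h × Fin h // ¬ p.1 < p.2} := by
    rw [Fintype.card_subtype_compl, Nat.add_sub_cancel' (Fintype.card_subtype_le _)]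
  have e2 : Fintype.card {p : Fin h × Fin h // ¬ p.1 < p.2} =
      Fintype.card (Pairs h ⊕ Fin h) := by
    apply Fintype.card_congr
    refine ⟨fun p => if h : p.1.2 < p.1.1 then .inl ⟨(p.1.2, p.1.1), h⟩ else .inr p.1.1,
      fun q => match q with
        | .inl e => ⟨(e.1.2, e.1.1), by
            have := e.2
            simp only [not_lt]
            exact this.le⟩
        | .inr i => ⟨(i, i), lt_irrefl i⟩, ?_, ?_⟩
    · rintro ⟨⟨i, j⟩, h⟩
      by_cases h' : j < i
      · simp [h']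
      · have : i = j := le_antisymm (not_lt.1 h') (not_lt.1 h)
        subst this
        simp
    · rintro (⟨⟨i, j⟩, h⟩ | i)
      · simp only
        rw [dif_pos h]
      · simp
  rw [Fintype.card_sum, Fintype.card_fin] at e2
  rw [Fintype.card_prod, Fintype.card_fin, e2] at e
  rw [Nat.mul_sub_one]
  omega

end Pool.Agent.RP
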