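import Mathlib
import Pool.Agent.Lib.MP_0a1b52_lc_RP.BadA
import Pool.Agent.Lib.MP_0a1b52_lc_RP.BadB
import Pool.Agent.Lib.MP_0a1b52_lc_RP.BadC

/-!
# Reading patterns, module Bad: few gadgets have to be removed
-/

set_option autoImplicit false

namespace Pool.Agent.RP

open Finset

/-- the expected number of bad configurations: `M` gadgets with `g` positions, `N` vertices -/
noncomputable def bad (M g N a h : ℕ) : ℝ :=
  (M : ℝ) * (g : ℝ) ^ 2 / N + (M : ℝ) ^ 2 * (g : ℝ) ^ 4 / (N : ℝ) ^ 2 +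
    (M : ℝ) ^ (a + 1) * (g : ℝ) ^ (3 * a) * N / (N : ℝ) ^ (2 * a) +
    ((M : ℝ) * (g : ℝ) ^ 2) ^ Fintype.card (Pairs h) * (N : ℝ) ^ h /
      (N : ℝ) ^ (2 * Fintype.card (Pairs h))

theorem bad_sum {I Jt : Type} [Fintype I] [DecidableEq I] [Fintype Jt] [DecidableEq Jt]
    (N a h : ℕ) (hN : 1 ≤ N) (ha : 1 ≤ a) (hh : 2 ≤ h) :
    ∃ R : (I × Jt → Fin N) → Finset I,
      (∀ φ, ∀ (L : Type) (e : L → I), Function.Injective e → (∀ l, e l ∉ R φ) →
        NoBad a h (fun l j => φ (e l, j))) ∧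
      (∑ φ, ((R φ).card : ℝ)) ≤ (N : ℝ) ^ (Fintype.card I * Fintype.card Jt) *
        bad (Fintype.card I) (Fintype.card Jt) N a h := by
  obtain ⟨R1, h1, s1⟩ := bad_inj (I := I) (Jt := Jt) N hN
  obtain ⟨R2, h2, s2⟩ := bad_share (I := I) (Jt := Jt) N hN
  obtain ⟨R3, h3, s3⟩ := bad_fan (I := I) (Jt := Jt) N a hN ha
  obtain ⟨R4, h4, s4⟩ := bad_web (I := I) (Jt := Jt) N h hN hh
  refine ⟨fun φ => R1 φ ∪ R2 φ ∪ R3 φ ∪ R4 φ, ?_, ?_⟩
  · intro φ L e he hl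
    have hl' : ∀ l, e l ∉ R1 φ ∧ e l ∉ R2 φ ∧ e l ∉ R3 φ ∧ e l ∉ R4 φ := by
      intro l
      have := hl l
      simp only [mem_union, not_or] at this
      tauto
    refine ⟨?_, ?_, ?_, ?_⟩
    · intro i
      exact h1 φ (e i) (hl' i).1
    · intro i i' j k j' k' hi hj hj' e1 e2
      exact h2 φ (e i) (e i') j k j' k' (hl' i).2.1 (fun h => hi (he h)) hj hj' e1 e2
    · intro i₀ f j i k k' hj hi hne hk e1 e2
      exact h3 φ (e i₀) f j (fun l => e (i l)) k k' (hl' i₀).2.2.1 hj (fun a b hab => hi (he hab))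
        (fun l h => hne l (he h)) hk e1 e2
    · intro f i k k' hi hk e1 e2
      exact h4 φ f (fun q => e (i q)) k k' (fun q => (hl' (i q)).2.2.2)
        (fun a b hab => hi (he hab)) hk e1 e2
  · have hcard : ∀ φ, ((R1 φ ∪ R2 φ ∪ R3 φ ∪ R4 φ).card : ℝ) ≤
        ((R1 φ).card : ℝ) + (R2 φ).card + (R3 φ).card + (R4 φ).card := by
      intro φ
      have a1 := card_union_le (R1 φ ∪ R2 φ ∪ R3 φ) (R4 φ)
      have a2 := card_union_le (R1 φ ∪ R2 φ) (R3 φ)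
      have a3 := card_union_le (R1 φ) (R2 φ)
      have a4 : (R1 φ ∪ R2 φ ∪ R3 φ ∪ R4 φ).card ≤
        (R1 φ).card + (R2 φ).card + (R3 φ).card + (R4 φ).card := by omega
      exact_mod_cast a4
    refine (sum_le_sum fun φ _ => hcard φ).trans ?_
    rw [sum_add_distrib, sum_add_distrib, sum_add_distrib]
    unfold bad
    rw [mul_add, mul_add, mul_add]
    linarith

end Pool.Agent.RP
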