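import Mathlib
import Pool.Agent.Lib.MP_0a1b52_lc_RP.Defs

/-!
# Reading patterns, module Dens: the number of good contents of a group
-/

set_option autoImplicit false

namespace Pool.Agent.RP

open Finset Pool.Agent.FP

open Classical in
theorem pair_card {n N : ℕ} (hN : N ≤ n) (X : Finset (EdgeVar n)) :
    2 * X.card ≤ (univ.filter fun q : Fin N × Fin N =>
      Pr X (Fin.castLE hN q.1) (Fin.castLE hN q.2)).card + 2 * (n - N) * n := by
  set S := univ.filter fun q : Fin N × Fin N =>
    Pr X (Fin.castLE hN q.1) (Fin.castLE hN q.2) with hS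
  let g : Fin N × Fin N → Fin n × Fin n := fun q => (Fin.castLE hN q.1, Fin.castLE hN q.2)
  have hg : Function.Injective g := by
    rintro ⟨a, b⟩ ⟨c, d⟩ h
    simp only [g, Prod.mk.injEq] at h
    obtain ⟨h1, h2⟩ := h
    rw [Fin.castLE_injective hN h1, Fin.castLE_injective hN h2]
  set X1 := X.filter fun e => (e.1.2 : ℕ) < N with hX1
  set X2 := X.filter fun e => ¬ (e.1.2 : ℕ) < N with hX2
  have hsplit : X1.card + X2.card = X.card := Finset.card_filter_add_card_filter_not _
  -- the variables with a large end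
  have h2 : X2.card ≤ (n - N) * n := by
    have h3 : X2.card ≤ ((univ : Finset (Fin n)) ×ˢ
        (univ.filter fun v : Fin n => ¬ (v : ℕ) < N)).card := by
      refine Finset.card_le_card_of_injOn (fun e => e.1) ?_ (fun e _ e' _ h => Subtype.ext h)
      intro e he
      rw [hX2, Finset.mem_coe, Finset.mem_filter] at he
      simp only [Finset.coe_product, Set.mem_prod, Finset.coe_univ, Set.mem_univ, true_and,
        Finset.mem_coe, Finset.mem_filter, Finset.mem_univ]
      exact he.2
    have h4 : (univ.filter fun v : Fin n => ¬ (v : ℕ) < N).card = n - N := by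
      have h5 : (univ.filter fun v : Fin n => (v : ℕ) < N).card +
          (univ.filter fun v : Fin n => ¬ (v : ℕ) < N).card = n := by
        rw [Finset.card_filter_add_card_filter_not, Finset.card_univ, Fintype.card_fin]
      have h6 : (univ.filter fun v : Fin n => (v : ℕ) < N).card = N := by
        rw [Fin.card_filter_val_lt, min_eq_right hN]
      omega
    rw [Finset.card_product, Finset.card_univ, Fintype.card_fin, h4, mul_comm] at h3
    exact h3
  -- the others give two ordered pairs
  have h1 : 2 * X1.card ≤ S.card := by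
    have e1 : (X1.image fun e => e.1).card = X1.card :=
      Finset.card_image_of_injective _ Subtype.val_injective
    have e2 : (X1.image fun e => (e.1.2, e.1.1)).card = X1.card := by
      refine Finset.card_image_of_injective _ ?_
      intro e e' h
      simp only [Prod.mk.injEq] at h
      exact Subtype.ext (Prod.ext h.2 h.1)
    have hdis : Disjoint (X1.image fun e => e.1) (X1.image fun e => (e.1.2, e.1.1)) := by
      rw [Finset.disjoint_left]
      intro q hq hq'
      obtain ⟨e, -, rfl⟩ := Finset.mem_image.1 hq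
      obtain ⟨e', -, he'⟩ := Finset.mem_image.1 hq'
      have h5 := e.2
      have h6 := e'.2
      have h7 : e'.1.2 = e.1.1 := congrArg Prod.fst he'
      have h8 : e'.1.1 = e.1.2 := congrArg Prod.snd he'
      rw [h7, h8] at h6
      exact lt_asymm h5 h6
    have hsub : (X1.image fun e => e.1) ∪ (X1.image fun e => (e.1.2, e.1.1)) ⊆ S.image g := by
      intro q hq
      rcases Finset.mem_union.1 hq with hq | hq
      · obtain ⟨e, he, rfl⟩ := Finset.mem_image.1 hq
        rw [hX1, Finset.mem_filter] at he
        have h9 : (e.1.1 : ℕ) < N := lt_trans e.2 he.2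
        refine Finset.mem_image.2 ⟨(⟨e.1.1, h9⟩, ⟨e.1.2, he.2⟩), ?_, rfl⟩
        rw [hS, Finset.mem_filter]
        exact ⟨Finset.mem_univ _, e, he.1, Or.inl rfl⟩
      · obtain ⟨e, he, rfl⟩ := Finset.mem_image.1 hq
        rw [hX1, Finset.mem_filter] at he
        have h9 : (e.1.1 : ℕ) < N := lt_trans e.2 he.2
        refine Finset.mem_image.2 ⟨(⟨e.1.2, he.2⟩, ⟨e.1.1, h9⟩), ?_, rfl⟩
        rw [hS, Finset.mem_filter]
        exact ⟨Finset.mem_univ _, e, he.1, Or.inr rfl⟩
    calc 2 * X1.card = ((X1.image fun e => e.1) ∪ (X1.image fun e => (e.1.2, e.1.1))).card := by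
          rw [Finset.card_union_of_disjoint hdis, e1, e2, two_mul]
      _ ≤ (S.image g).card := Finset.card_le_card hsub
      _ = S.card := Finset.card_image_of_injective _ hg
  calc 2 * X.card = 2 * X1.card + 2 * X2.card := by rw [← hsplit, mul_add]
    _ ≤ S.card + 2 * ((n - N) * n) := Nat.add_le_add h1 (Nat.mul_le_mul_left _ h2)
    _ = S.card + 2 * (n - N) * n := by rw [mul_assoc]

/-- the contents of a group all of whose variable edges belong to the right sets -/
def GoodC {P : Type} {n N z : ℕ} (hN : N ≤ n) (X : Fin 3 → Finset (EdgeVar n)) :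
    Set (P × J z → Fin N) :=
  {χ | ∀ p t, Pr (X t) (Fin.castLE hN (χ (p, .inl (t, false))))
    (Fin.castLE hN (χ (p, .inl (t, true))))}

/-- the pairs which are variables of `X t` -/
private abbrev EE {n N : ℕ} (hN : N ≤ n) (X : Fin 3 → Finset (EdgeVar n)) (t : Fin 3) : Type :=
  {q : Fin N × Fin N // Pr (X t) (Fin.castLE hN q.1) (Fin.castLE hN q.2)}

/-- a content from pairs and free positions -/
private def cont {P : Type} {n N z : ℕ} (hN : N ≤ n) (X : Fin 3 → Finset (EdgeVar n))
    (ψ : P → ((t : Fin 3) → EE hN X t) × (Fin z → Fin N)) : P × J z → Fin N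
  | (p, .inl (t, false)) => ((ψ p).1 t).1.1
  | (p, .inl (t, true)) => ((ψ p).1 t).1.2
  | (p, .inr s) => (ψ p).2 s

private theorem cont_mem {P : Type} {n N z : ℕ} (hN : N ≤ n) (X : Fin 3 → Finset (EdgeVar n))
    (ψ : P → ((t : Fin 3) → EE hN X t) × (Fin z → Fin N)) :
    cont hN X ψ ∈ GoodC (P := P) (z := z) hN X := fun p t => ((ψ p).1 t).2

private theorem cont_inj {P : Type} {n N z : ℕ} (hN : N ≤ n) (X : Fin 3 → Finset (EdgeVar n)) :
    Function.Injective (cont (P := P) (z := z) hN X) := by
  intro ψ ψ' h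
  funext p
  refine Prod.ext (funext fun t => Subtype.ext (Prod.ext ?_ ?_)) (funext fun s => ?_)
  · exact congrFun h (p, .inl (t, false))
  · exact congrFun h (p, .inl (t, true))
  · exact congrFun h (p, .inr s)

open Classical in
theorem good_card {P : Type} [Fintype P] {n N z : ℕ} (hN : N ≤ n)
    (X : Fin 3 → Finset (EdgeVar n)) (d : ℝ) (hd0 : 0 ≤ d)
    (hd : ∀ t, d * (N : ℝ) ^ 2 ≤ ((univ.filter fun q : Fin N × Fin N =>
      Pr (X t) (Fin.castLE hN q.1) (Fin.castLE hN q.2)).card : ℝ)) :
    d ^ (3 * Fintype.card P) * (N : ℝ) ^ (Fintype.card P * Fintype.card (J z)) ≤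
      (Nat.card (GoodC (P := P) (z := z) hN X) : ℝ) := by
  have h1 : Nat.card (P → ((t : Fin 3) → EE hN X t) × (Fin z → Fin N)) ≤
      Nat.card (GoodC (P := P) (z := z) hN X) :=
    Nat.card_le_card_of_injective (fun ψ => (⟨cont hN X ψ, cont_mem hN X ψ⟩ :
      GoodC (P := P) (z := z) hN X)) fun ψ ψ' h => cont_inj hN X (congrArg Subtype.val h)
  have h2 : Nat.card (P → ((t : Fin 3) → EE hN X t) × (Fin z → Fin N)) =
      ((∏ t : Fin 3, (univ.filter fun q : Fin N × Fin N =>
        Pr (X t) (Fin.castLE hN q.1) (Fin.castLE hN q.2)).card) * N ^ z) ^ Fintype.card P := by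
    rw [Nat.card_fun, Nat.card_eq_fintype_card (α := P), Nat.card_prod, Nat.card_pi, Nat.card_fun,
      Nat.card_eq_fintype_card (α := Fin z), Nat.card_eq_fintype_card (α := Fin N),
      Fintype.card_fin, Fintype.card_fin]
    congr 3
    funext t
    rw [Nat.card_eq_fintype_card, Fintype.card_subtype]
  have hJ : Fintype.card (J z) = 6 + z := by
    simp [J]
  calc d ^ (3 * Fintype.card P) * (N : ℝ) ^ (Fintype.card P * Fintype.card (J z))
      = ((∏ _t : Fin 3, d * (N : ℝ) ^ 2) * (N : ℝ) ^ z) ^ Fintype.card P := by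
        rw [hJ, Finset.prod_const, Finset.card_univ, Fintype.card_fin, pow_mul, mul_comm
          (Fintype.card P), pow_mul, ← mul_pow, mul_pow d, ← pow_mul, mul_assoc, ← pow_add]
    _ ≤ ((∏ t : Fin 3, ((univ.filter fun q : Fin N × Fin N =>
        Pr (X t) (Fin.castLE hN q.1) (Fin.castLE hN q.2)).card : ℝ)) * (N : ℝ) ^ z) ^
          Fintype.card P := by
        refine pow_le_pow_left₀ ?_ ?_ _
        · exact mul_nonneg (Finset.prod_nonneg fun t _ => by positivity) (by positivity)
        · refine mul_le_mul_of_nonneg_right ?_ (by positivity)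
          exact Finset.prod_le_prod (fun t _ => by positivity) fun t _ => hd t
    _ ≤ (Nat.card (GoodC (P := P) (z := z) hN X) : ℝ) := by
        rw [h2] at h1
        exact_mod_cast h1

end Pool.Agent.RP
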