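import Mathlib
import Pool.Agent.Lib.MP_0a1b52_lc_RP.Defs

/-!
# Reading patterns, module Good: few systems have few good groups
-/

set_option autoImplicit false

namespace Pool.Agent.RP

open Finset

open Classical in
theorem good_sum {P Jt : Type} [Fintype P] [Fintype Jt] (G N : ℕ) (S : Set (P × Jt → Fin N))
    (ρ : ℝ) (h0 : 0 ≤ ρ) (h1 : ρ ≤ 1)
    (hρ : ρ * (N : ℝ) ^ (Fintype.card P * Fintype.card Jt) ≤ (Nat.card S : ℝ)) :
    ((univ.filter fun φ : (Fin G × P) × Jt → Fin N =>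
      ((univ.filter fun τ : Fin G => (fun q : P × Jt => φ ((τ, q.1), q.2)) ∈ S).card : ℝ) <
        ρ * G / 4).card : ℝ) ≤
      (N : ℝ) ^ (Fintype.card (Fin G × P) * Fintype.card Jt) * (2 : ℝ) ^ (-(ρ * G / 4)) := by
  classical
  have hcard : Fintype.card (P × Jt → Fin N) = N ^ (Fintype.card P * Fintype.card Jt) := by
    rw [Fintype.card_fun, Fintype.card_fin, Fintype.card_prod]
  let E : ((Fin G × P) × Jt → Fin N) ≃ (Fin G → (P × Jt → Fin N)) :=
    { toFun := fun φ τ q => φ ((τ, q.1), q.2)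
      invFun := fun ψ x => ψ x.1.1 (x.1.2, x.2)
      left_inv := fun φ => rfl
      right_inv := fun ψ => rfl }
  let c : (P × Jt → Fin N) → ℝ := fun χ => if χ ∈ S then (2 : ℝ)⁻¹ else 1
  let g : (Fin G → (P × Jt → Fin N)) → ℕ := fun ψ => (univ.filter fun τ => ψ τ ∈ S).card
  have hprod : ∀ ψ : Fin G → (P × Jt → Fin N), ∏ τ, c (ψ τ) = ((2 : ℝ)⁻¹) ^ (g ψ) := by
    intro ψ
    simp only [c, g]
    rw [Finset.prod_ite, Finset.prod_const, Finset.prod_const_one, mul_one]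
  have hsumc : ∑ χ, c χ = (N : ℝ) ^ (Fintype.card P * Fintype.card Jt) - (Nat.card S : ℝ) / 2 := by
    have h2 : ∀ χ, c χ = 1 - (if χ ∈ S then (2 : ℝ)⁻¹ else 0) := by
      intro χ
      simp only [c]
      split_ifs
      · norm_num
      · norm_num
    have h3 : (Nat.card S : ℝ) = ((univ.filter fun χ => χ ∈ S).card : ℝ) := by
      rw [Nat.card_eq_fintype_card]
      congr 1
      exact Fintype.card_subtype _
    rw [Finset.sum_congr rfl (fun χ _ => h2 χ), Finset.sum_sub_distrib, Finset.sum_const,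
      Finset.card_univ, hcard, ← Finset.sum_filter, Finset.sum_const, h3, nsmul_eq_mul,
      nsmul_eq_mul, Nat.cast_pow]
    ring
  have htot : ∑ φ : (Fin G × P) × Jt → Fin N, ((2 : ℝ)⁻¹) ^ (g (E φ)) =
      ((N : ℝ) ^ (Fintype.card P * Fintype.card Jt) - (Nat.card S : ℝ) / 2) ^ G := by
    rw [← hsumc, Fintype.sum_pow]
    rw [← Equiv.sum_comp E]
    exact Finset.sum_congr rfl (fun φ _ => (hprod (E φ)).symm)
  have hN0 : (0 : ℝ) ≤ (N : ℝ) ^ (Fintype.card P * Fintype.card Jt) := by positivity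
  have hy : 1 - ρ / 2 ≤ (2 : ℝ) ^ (-(ρ / 2)) := by
    rw [Real.rpow_def_of_pos (by norm_num)]
    have h4 := Real.add_one_le_exp (Real.log 2 * (-(ρ / 2)))
    have h5 : Real.log 2 ≤ 1 := by
      have := Real.log_two_lt_d9
      linarith
    have h6 : Real.log 2 * (ρ / 2) ≤ 1 * (ρ / 2) :=
      mul_le_mul_of_nonneg_right h5 (by linarith)
    linarith
  have hbound : ((N : ℝ) ^ (Fintype.card P * Fintype.card Jt) - (Nat.card S : ℝ) / 2) ^ G ≤
      (N : ℝ) ^ (Fintype.card (Fin G × P) * Fintype.card Jt) * (2 : ℝ) ^ (-(ρ * G / 2)) := by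
    have h7 : (N : ℝ) ^ (Fintype.card P * Fintype.card Jt) - (Nat.card S : ℝ) / 2 ≤
        (N : ℝ) ^ (Fintype.card P * Fintype.card Jt) * (2 : ℝ) ^ (-(ρ / 2)) := by
      calc (N : ℝ) ^ (Fintype.card P * Fintype.card Jt) - (Nat.card S : ℝ) / 2
          ≤ (N : ℝ) ^ (Fintype.card P * Fintype.card Jt) * (1 - ρ / 2) := by linarith
        _ ≤ _ := mul_le_mul_of_nonneg_left hy hN0
    have h8 : (0 : ℝ) ≤ (N : ℝ) ^ (Fintype.card P * Fintype.card Jt) -
        (Nat.card S : ℝ) / 2 := by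
      rw [← hsumc]
      refine Finset.sum_nonneg (fun χ _ => ?_)
      simp only [c]
      split_ifs
      · norm_num
      · norm_num
    calc _ ≤ ((N : ℝ) ^ (Fintype.card P * Fintype.card Jt) * (2 : ℝ) ^ (-(ρ / 2))) ^ G :=
          pow_le_pow_left₀ h8 h7 G
      _ = _ := by
        rw [mul_pow, ← pow_mul, ← Real.rpow_natCast ((2 : ℝ) ^ (-(ρ / 2))) G,
          ← Real.rpow_mul (by norm_num), Fintype.card_prod, Fintype.card_fin]
        congr 2
        · ring
        · ring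
  set B := (univ.filter fun φ : (Fin G × P) × Jt → Fin N =>
      ((univ.filter fun τ : Fin G => (fun q : P × Jt => φ ((τ, q.1), q.2)) ∈ S).card : ℝ) <
        ρ * G / 4) with hB
  have hlow : (B.card : ℝ) * (2 : ℝ) ^ (-(ρ * G / 4)) ≤
      ∑ φ : (Fin G × P) × Jt → Fin N, ((2 : ℝ)⁻¹) ^ (g (E φ)) := by
    calc (B.card : ℝ) * (2 : ℝ) ^ (-(ρ * G / 4))
        = ∑ φ ∈ B, (2 : ℝ) ^ (-(ρ * G / 4)) := by
          rw [Finset.sum_const, nsmul_eq_mul]
      _ ≤ ∑ φ ∈ B, ((2 : ℝ)⁻¹) ^ (g (E φ)) := by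
          refine Finset.sum_le_sum (fun φ hφ => ?_)
          have h9 : ((g (E φ) : ℕ) : ℝ) < ρ * G / 4 := by
            rw [hB, Finset.mem_filter] at hφ
            exact hφ.2
          rw [inv_pow, ← Real.rpow_natCast, ← Real.rpow_neg (by norm_num)]
          exact Real.rpow_le_rpow_of_exponent_le (by norm_num) (by linarith)
      _ ≤ ∑ φ : (Fin G × P) × Jt → Fin N, ((2 : ℝ)⁻¹) ^ (g (E φ)) :=
          Finset.sum_le_sum_of_subset_of_nonneg (Finset.subset_univ _)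
            (fun _ _ _ => by positivity)
  have hpos : (0 : ℝ) < (2 : ℝ) ^ (-(ρ * G / 4)) := by positivity
  have hfin : (B.card : ℝ) * (2 : ℝ) ^ (-(ρ * G / 4)) ≤
      ((N : ℝ) ^ (Fintype.card (Fin G × P) * Fintype.card Jt) *
        (2 : ℝ) ^ (-(ρ * G / 4))) * (2 : ℝ) ^ (-(ρ * G / 4)) := by
    refine hlow.trans (htot.le.trans (hbound.trans (le_of_eq ?_)))
    rw [mul_assoc, ← Real.rpow_add (by norm_num)]
    congr 2
    ring
  exact le_of_mul_le_mul_right hfin hpos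

end Pool.Agent.RP
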