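import Mathlib
import Pool.Agent.Lib.MP_0a1b52_lc_RP.Defs

/-!
# Reading patterns, module Lin: no unintended cliques in a system without bad configurations
-/

set_option autoImplicit false

namespace Pool.Agent.RP

open Finset

/-- In a system without bad configurations every large set of vertices, any two of which lie in a
common gadget, is contained in one gadget. -/
theorem NoBad.cover {I Jt Vt : Type} {a h : ℕ} {w : I → Jt → Vt} (hw : NoBad a h w) (ha : 1 ≤ a)
    (hh : 2 ≤ h) (S : Finset Vt) (hS : a * h * h ≤ S.card)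
    (hpair : ∀ u ∈ S, ∀ v ∈ S, u ≠ v → ∃ i j j', w i j = u ∧ w i j' = v) :
    ∃ i, ∀ u ∈ S, ∃ j, w i j = u := by
  classical
  -- two points of `S`
  have h4 : 2 * 2 ≤ S.card := by
    refine le_trans ?_ hS
    calc 2 * 2 ≤ h * h := Nat.mul_le_mul hh hh
      _ ≤ a * (h * h) := Nat.le_mul_of_pos_left _ ha
      _ = a * h * h := by ring
  obtain ⟨u₀, hu₀, v₀, hv₀, huv₀⟩ := Finset.one_lt_card.1 (show 1 < S.card by omega)
  obtain ⟨i₀, -⟩ := hpair u₀ hu₀ v₀ hv₀ huv₀
  -- the gadget of a pair
  have hg : ∃ g : Vt → Vt → I, ∀ u ∈ S, ∀ v ∈ S, u ≠ v →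
      ∃ j j', w (g u v) j = u ∧ w (g u v) j' = v := by
    refine ⟨fun u v => if H : ∃ i, ∃ j j', w i j = u ∧ w i j' = v then H.choose else i₀, ?_⟩
    intro u hu v hv huv
    have H : ∃ i, ∃ j j', w i j = u ∧ w i j' = v := hpair u hu v hv huv
    simp only [dif_pos H]
    exact H.choose_spec
  obtain ⟨g, hg⟩ := hg
  -- uniqueness of the gadget of a pair
  have huniq : ∀ (i i' : I) (u v : Vt), u ≠ v → (∃ j, w i j = u) → (∃ j, w i j = v) →
      (∃ j, w i' j = u) → (∃ j, w i' j = v) → i = i' := by
    rintro i i' u v huv ⟨j, hj⟩ ⟨k, hk⟩ ⟨j', hj'⟩ ⟨k', hk'⟩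
    by_contra hne
    refine hw.share i i' j k j' k' hne ?_ ?_ (hj.trans hj'.symm) (hk.trans hk'.symm)
    · rintro rfl
      exact huv (hj.symm.trans hk)
    · rintro rfl
      exact huv (hj'.symm.trans hk')
  -- a maximal set without three points in a gadget
  let good : Finset (Finset Vt) := S.powerset.filter fun T =>
    ∀ i, (T.filter fun u => ∃ j, w i j = u).card ≤ 2
  have hgood : good.Nonempty := ⟨∅, by simp [good]⟩
  obtain ⟨T, hT, hmax⟩ := Finset.exists_max_image good Finset.card hgood
  have hTS : T ⊆ S := Finset.mem_powerset.1 (Finset.mem_filter.1 hT).1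
  have hT2 : ∀ i, (T.filter fun u => ∃ j, w i j = u).card ≤ 2 := (Finset.mem_filter.1 hT).2
  by_cases hcard : h ≤ T.card
  · -- a web
    exfalso
    obtain ⟨T', hT', hT'c⟩ := Finset.exists_subset_card_eq hcard
    let e : Fin h ≃ T' := (Finset.equivFinOfCardEq hT'c).symm
    let f : Fin h → Vt := fun x => (e x : Vt)
    have hf : Function.Injective f := fun x y hxy => e.injective (Subtype.ext hxy)
    have hfT : ∀ x, f x ∈ T := fun x => hT' (e x).2
    have hne : ∀ q : Pairs h, f q.1.1 ≠ f q.1.2 := fun q hq => by
      have h1 := hf hq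
      have h2 := q.2
      omega
    choose k k' hk using fun q : Pairs h =>
      hg (f q.1.1) (hTS (hfT _)) (f q.1.2) (hTS (hfT _)) (hne q)
    refine hw.web f (fun q => g (f q.1.1) (f q.1.2)) k k' ?_ ?_ (fun q => (hk q).1)
      (fun q => (hk q).2)
    · intro q q' hqq
      by_contra hqne
      have hqq' : g (f q.1.1) (f q.1.2) = g (f q'.1.1) (f q'.1.2) := hqq
      -- three different points in the gadget
      have h3 : ∃ x : Fin h, (x = q'.1.1 ∨ x = q'.1.2) ∧ x ≠ q.1.1 ∧ x ≠ q.1.2 := by
        by_contra hcon
        push Not at hcon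
        have h5 := hcon q'.1.1 (Or.inl rfl)
        have h6 := hcon q'.1.2 (Or.inr rfl)
        have h7 := q.2
        have h8 := q'.2
        apply hqne
        apply Subtype.ext
        apply Prod.ext
        · by_contra h9
          have h10 := h5 (Ne.symm h9)
          by_cases h11 : q'.1.2 = q.1.1
          · rw [h10, h11] at h8
            exact absurd h8 (not_lt.2 h7.le)
          · have h12 := h6 h11
            rw [h10, h12] at h8
            exact lt_irrefl _ h8
        · by_contra h9
          by_cases h11 : q'.1.2 = q.1.1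
          · by_cases h13 : q'.1.1 = q.1.1
            · rw [h13, h11] at h8
              exact lt_irrefl _ h8
            · have h10 := h5 h13
              rw [h10, h11] at h8
              exact absurd h8 (not_lt.2 h7.le)
          · exact h9 (h6 h11).symm
      obtain ⟨x, hx, hx1, hx2⟩ := h3
      have h5 : ({f q.1.1, f q.1.2, f x} : Finset Vt) ⊆
          T.filter fun u => ∃ j, w (g (f q.1.1) (f q.1.2)) j = u := by
        intro u hu
        simp only [Finset.mem_insert, Finset.mem_singleton] at hu
        rw [Finset.mem_filter]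
        rcases hu with rfl | rfl | rfl
        · exact ⟨hfT _, k q, (hk q).1⟩
        · exact ⟨hfT _, k' q, (hk q).2⟩
        · refine ⟨hfT _, ?_⟩
          rw [hqq']
          rcases hx with rfl | rfl
          · exact ⟨k q', (hk q').1⟩
          · exact ⟨k' q', (hk q').2⟩
      have h6 : ({f q.1.1, f q.1.2, f x} : Finset Vt).card = 3 := by
        rw [Finset.card_eq_three]
        exact ⟨_, _, _, hne q, fun h => hx1 (hf h).symm, fun h => hx2 (hf h).symm, rfl⟩
      have h7 := (Finset.card_le_card h5).trans (hT2 _)
      omega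
    · intro q hq
      exact hne q ((hk q).1.symm.trans ((congrArg _ hq).trans (hk q).2))
  · push Not at hcard
    -- every point of `S` outside `T` is in the gadget of a pair of `T`
    have hcov : ∀ s ∈ S, s ∈ T ∪ (T ×ˢ T).biUnion fun p =>
        S.filter fun u => ∃ j, w (g p.1 p.2) j = u := by
      intro s hs
      rw [Finset.mem_union]
      by_cases hsT : s ∈ T
      · exact Or.inl hsT
      right
      have h1 : insert s T ∉ good := by
        intro h2
        have h3 := hmax _ h2
        rw [Finset.card_insert_of_notMem hsT] at h3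
        omega
      have h2 : ∃ i, 2 < ((insert s T).filter fun u => ∃ j, w i j = u).card := by
        by_contra hcon
        push Not at hcon
        refine h1 (Finset.mem_filter.2 ⟨Finset.mem_powerset.2 ?_, hcon⟩)
        exact Finset.insert_subset hs hTS
      obtain ⟨i, hi⟩ := h2
      have hsi : ∃ j, w i j = s := by
        by_contra hcon
        rw [Finset.filter_insert, if_neg hcon] at hi
        have := hT2 i
        omega
      rw [Finset.filter_insert, if_pos hsi] at hi
      have h3 : 1 < (T.filter fun u => ∃ j, w i j = u).card := by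
        have := Finset.card_insert_le s (T.filter fun u => ∃ j, w i j = u)
        omega
      obtain ⟨x, hx, y, hy, hxy⟩ := Finset.one_lt_card.1 h3
      rw [Finset.mem_filter] at hx hy
      rw [Finset.mem_biUnion]
      refine ⟨(x, y), Finset.mem_product.2 ⟨hx.1, hy.1⟩, ?_⟩
      rw [Finset.mem_filter]
      refine ⟨hs, ?_⟩
      obtain ⟨j1, j2, hj1, hj2⟩ := hg x (hTS hx.1) y (hTS hy.1) hxy
      have h4 : i = g x y := huniq i (g x y) x y hxy hx.2 hy.2 ⟨j1, hj1⟩ ⟨j2, hj2⟩
      show ∃ j, w (g x y) j = s
      rw [← h4]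
      exact hsi
    -- a gadget with `a` points of `S`
    have hbig : ∃ i, a ≤ (S.filter fun u => ∃ j, w i j = u).card := by
      by_contra hcon
      push Not at hcon
      have h1 : S.card ≤ T.card + T.card * T.card * (a - 1) := by
        calc S.card ≤ (T ∪ (T ×ˢ T).biUnion fun p =>
              S.filter fun u => ∃ j, w (g p.1 p.2) j = u).card := Finset.card_le_card hcov
          _ ≤ T.card + ((T ×ˢ T).biUnion fun p =>
              S.filter fun u => ∃ j, w (g p.1 p.2) j = u).card := Finset.card_union_le _ _
          _ ≤ T.card + (T ×ˢ T).card * (a - 1) := by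
              refine Nat.add_le_add_left (Finset.card_biUnion_le_card_mul _ _ _ ?_) _
              intro p _
              have := hcon (g p.1 p.2)
              omega
          _ = T.card + T.card * T.card * (a - 1) := by rw [Finset.card_product]
      have h2 : T.card * T.card * (a - 1) ≤ h * h * (a - 1) :=
        Nat.mul_le_mul_right _ (Nat.mul_le_mul hcard.le hcard.le)
      have h3 : h ≤ h * h := Nat.le_mul_self h
      have h5 : h * h * (a - 1) + h * h = a * h * h := by
        obtain ⟨b, rfl⟩ : ∃ b, a = b + 1 := ⟨a - 1, by omega⟩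
        rw [Nat.add_sub_cancel]
        ring
      omega
    obtain ⟨i₁, hi₁⟩ := hbig
    refine ⟨i₁, ?_⟩
    by_contra hcon
    push Not at hcon
    obtain ⟨f, hfS, hf⟩ := hcon
    obtain ⟨T', hT', hT'c⟩ := Finset.exists_subset_card_eq hi₁
    let e : Fin a ≃ T' := (Finset.equivFinOfCardEq hT'c).symm
    let v : Fin a → Vt := fun x => (e x : Vt)
    have hv : Function.Injective v := fun x y hxy => e.injective (Subtype.ext hxy)
    have hvS : ∀ x, v x ∈ S ∧ ∃ j, w i₁ j = v x := fun x => Finset.mem_filter.1 (hT' (e x).2)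
    choose j hj using fun x => (hvS x).2
    have hne : ∀ x, v x ≠ f := fun x hx => hf (j x) ((hj x).trans hx)
    choose k k' hk using fun x => hg (v x) (hvS x).1 f hfS (hne x)
    have hi1 : ∀ x, g (v x) f ≠ i₁ := by
      intro x hx
      have h1 := (hk x).2
      rw [hx] at h1
      exact hf _ h1
    refine hw.fan i₁ f j (fun x => g (v x) f) k k' ?_ ?_ hi1 ?_ ?_ (fun x => (hk x).2)
    · intro x y hxy
      apply hv
      rw [← hj x, ← hj y, hxy]
    · intro x y hxy
      by_contra hxy'
      have hxy2 : g (v x) f = g (v y) f := hxy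
      refine hi1 x (huniq _ _ (v x) (v y) (fun h => hxy' (hv h)) ⟨k x, (hk x).1⟩ ?_ ⟨j x, hj x⟩
        ⟨j y, hj y⟩)
      rw [hxy2]
      exact ⟨k y, (hk y).1⟩
    · intro x hx
      exact hne x ((hk x).1.symm.trans ((congrArg _ hx).trans (hk x).2))
    · intro x
      rw [hj x]
      exact (hk x).1

end Pool.Agent.RP
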