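import Mathlib
import Pool.Agent.Lib.MP_0a1b52_lc_RP.Defs
import Pool.Agent.Lib.MP_0a1b52_lc_RP.Lin

/-!
# Reading patterns, module Struct: pairwise covered sets lie in one gadget
-/

set_option autoImplicit false

namespace Pool.Agent.RP

theorem NoBad.clique {I Jt Vt : Type} [Fintype Jt] [DecidableEq Vt] {a h : ℕ} {w : I → Jt → Vt}
    (hw : NoBad a h w) (ha : 1 ≤ a) (hh : 2 ≤ h) (hJ : a * h ^ 2 ≤ Fintype.card Jt)
    (S : Finset Vt) (hS : Fintype.card Jt ≤ S.card)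
    (hcov : ∀ u ∈ S, ∀ v ∈ S, u ≠ v → ∃ i j j', w i j = u ∧ w i j' = v) :
    ∃ i, ∀ u ∈ S, ∃ j, w i j = u :=
  hw.cover ha hh S (le_trans (le_of_eq (by ring)) (hJ.trans hS)) hcov

end Pool.Agent.RP
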