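import Mathlib
import Pool.Agent.Lib.MP_0a1b52_lc_RP.Defs

/-!
# Reading patterns, module ColA: colouring the blocks with three colours, counting
-/

set_option autoImplicit false

namespace Pool.Agent.RP

open Finset

/-- the vertices in at most `K` blocks -/
private theorem ColA_good {V : Type} [Fintype V] [DecidableEq V] (β : Finset (Finset V)) (K : ℕ)
    (h1 : 4 * ∑ B ∈ β, B.card ≤ (K + 1) * Fintype.card V) :
    3 * Fintype.card V ≤ 4 * (univ.filter fun v : V => (β.filter (v ∈ ·)).card ≤ K).card := by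
  have h2 : ∑ v : V, (β.filter (v ∈ ·)).card = ∑ B ∈ β, B.card := by
    have h3 : ∀ v : V, (β.filter (v ∈ ·)).card = ∑ B ∈ β, if v ∈ B then 1 else 0 := by
      intro v
      rw [Finset.card_filter]
    simp_rw [h3]
    rw [Finset.sum_comm]
    refine Finset.sum_congr rfl fun B _ => ?_
    rw [← Finset.card_filter]
    congr 1
    ext v
    simp
  have h3 : (K + 1) * (univ.filter fun v : V => ¬ (β.filter (v ∈ ·)).card ≤ K).card ≤
      ∑ v : V, (β.filter (v ∈ ·)).card := by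
    calc (K + 1) * (univ.filter fun v : V => ¬ (β.filter (v ∈ ·)).card ≤ K).card
        = ∑ _v ∈ univ.filter (fun v : V => ¬ (β.filter (v ∈ ·)).card ≤ K), (K + 1) := by
          rw [Finset.sum_const, smul_eq_mul, mul_comm]
      _ ≤ ∑ v ∈ univ.filter (fun v : V => ¬ (β.filter (v ∈ ·)).card ≤ K),
          (β.filter (v ∈ ·)).card := by
          refine Finset.sum_le_sum fun v hv => ?_
          have := (Finset.mem_filter.1 hv).2
          omega
      _ ≤ _ := Finset.sum_le_sum_of_subset (Finset.filter_subset _ _)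
  have h4 := Finset.card_filter_add_card_filter_not (s := (univ : Finset V))
    (fun v => (β.filter (v ∈ ·)).card ≤ K)
  rw [Finset.card_univ] at h4
  have h5 : (K + 1) * (4 * (univ.filter fun v : V => ¬ (β.filter (v ∈ ·)).card ≤ K).card) ≤
      (K + 1) * Fintype.card V := by
    calc _ = 4 * ((K + 1) * (univ.filter fun v : V => ¬ (β.filter (v ∈ ·)).card ≤ K).card) := by
          ring
      _ ≤ 4 * ∑ B ∈ β, B.card := by rw [← h2]; exact Nat.mul_le_mul_left _ h3
      _ ≤ _ := h1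
  have h6 := Nat.le_of_mul_le_mul_left h5 (Nat.succ_pos K)
  omega

/-- the pairs with a common block -/
private theorem ColA_pairs {V : Type} [Fintype V] [DecidableEq V] (β : Finset (Finset V)) (m : ℕ)
    (hm : ∀ B ∈ β, B.card ≤ m) (h2 : 12 * m * ∑ B ∈ β, B.card ≤ Fintype.card V ^ 2) :
    12 * ((univ : Finset (V × V)).filter fun p => ∃ B ∈ β, p.1 ∈ B ∧ p.2 ∈ B).card ≤
      Fintype.card V ^ 2 := by
  have h3 : ((univ : Finset (V × V)).filter fun p => ∃ B ∈ β, p.1 ∈ B ∧ p.2 ∈ B) ⊆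
      β.biUnion fun B => B ×ˢ B := by
    intro p hp
    obtain ⟨B, hB, h1, h2⟩ := (Finset.mem_filter.1 hp).2
    exact Finset.mem_biUnion.2 ⟨B, hB, Finset.mem_product.2 ⟨h1, h2⟩⟩
  have h4 : (β.biUnion fun B => B ×ˢ B).card ≤ m * ∑ B ∈ β, B.card := by
    refine Finset.card_biUnion_le.trans ?_
    rw [Finset.mul_sum]
    refine Finset.sum_le_sum fun B hB => ?_
    rw [Finset.card_product]
    exact Nat.mul_le_mul_right _ (hm B hB)
  calc _ ≤ 12 * (m * ∑ B ∈ β, B.card) := Nat.mul_le_mul_left _ ((Finset.card_le_card h3).trans h4)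
    _ = 12 * m * ∑ B ∈ β, B.card := by ring
    _ ≤ _ := h2

/-- the triples without common blocks -/
private def ColA_tri {V : Type} [Fintype V] [DecidableEq V] (β : Finset (Finset V)) (K : ℕ) :
    Finset (V × V × V) :=
  univ.filter fun t => ((β.filter (t.1 ∈ ·)).card ≤ K ∧ (β.filter (t.2.1 ∈ ·)).card ≤ K ∧
    (β.filter (t.2.2 ∈ ·)).card ≤ K) ∧ ∀ B ∈ β, ¬ (t.1 ∈ B ∧ t.2.1 ∈ B) ∧
      ¬ (t.1 ∈ B ∧ t.2.2 ∈ B) ∧ ¬ (t.2.1 ∈ B ∧ t.2.2 ∈ B)

private theorem ColA_triples {V : Type} [Fintype V] [DecidableEq V] (β : Finset (Finset V))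
    (K : ℕ) :
    (univ.filter fun v : V => (β.filter (v ∈ ·)).card ≤ K).card ^ 3 ≤ (ColA_tri β K).card +
      3 * ((univ.filter fun v : V => (β.filter (v ∈ ·)).card ≤ K).card *
        ((univ : Finset (V × V)).filter fun p => ∃ B ∈ β, p.1 ∈ B ∧ p.2 ∈ B).card) := by
  set G := univ.filter fun v : V => (β.filter (v ∈ ·)).card ≤ K with hG
  set P := (univ : Finset (V × V)).filter fun p => ∃ B ∈ β, p.1 ∈ B ∧ p.2 ∈ B with hP
  have h1 : G ×ˢ (G ×ˢ G) ⊆ ColA_tri β K ∪
      ((P ×ˢ G).image (fun t => (t.1.1, t.1.2, t.2)) ∪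
        ((P ×ˢ G).image (fun t => (t.1.1, t.2, t.1.2)) ∪
          (P ×ˢ G).image (fun t => (t.2, t.1.1, t.1.2)))) := by
    rintro ⟨a, b, c⟩ h
    simp only [Finset.mem_product] at h
    obtain ⟨ha, hb, hc⟩ := h
    by_cases hab : (a, b) ∈ P
    · refine Finset.mem_union_right _ (Finset.mem_union_left _ ?_)
      exact Finset.mem_image.2 ⟨((a, b), c), Finset.mem_product.2 ⟨hab, hc⟩, rfl⟩
    by_cases hac : (a, c) ∈ P
    · refine Finset.mem_union_right _ (Finset.mem_union_right _ (Finset.mem_union_left _ ?_))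
      exact Finset.mem_image.2 ⟨((a, c), b), Finset.mem_product.2 ⟨hac, hb⟩, rfl⟩
    by_cases hbc : (b, c) ∈ P
    · refine Finset.mem_union_right _ (Finset.mem_union_right _ (Finset.mem_union_right _ ?_))
      exact Finset.mem_image.2 ⟨((b, c), a), Finset.mem_product.2 ⟨hbc, ha⟩, rfl⟩
    refine Finset.mem_union_left _ ?_
    simp only [hP, Finset.mem_filter, Finset.mem_univ, true_and, not_exists, not_and] at hab hac hbc
    simp only [hG, Finset.mem_filter, Finset.mem_univ, true_and] at ha hb hc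
    simp only [ColA_tri, Finset.mem_filter, Finset.mem_univ, true_and]
    exact ⟨⟨ha, hb, hc⟩, fun B hB => ⟨fun h => hab B hB h.1 h.2, fun h => hac B hB h.1 h.2,
      fun h => hbc B hB h.1 h.2⟩⟩
  have h2 := Finset.card_le_card h1
  have h3 : ∀ f : (V × V) × V → V × V × V, ((P ×ˢ G).image f).card ≤ G.card * P.card := by
    intro f
    refine Finset.card_image_le.trans ?_
    rw [Finset.card_product, mul_comm]
  rw [Finset.card_product, Finset.card_product] at h2
  have h4 := Finset.card_union_le (ColA_tri β K)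
    ((P ×ˢ G).image (fun t => (t.1.1, t.1.2, t.2)) ∪
        ((P ×ˢ G).image (fun t => (t.1.1, t.2, t.1.2)) ∪
          (P ×ˢ G).image (fun t => (t.2, t.1.1, t.1.2))))
  have h5 := Finset.card_union_le ((P ×ˢ G).image (fun t => (t.1.1, t.1.2, t.2)))
        ((P ×ˢ G).image (fun t => (t.1.1, t.2, t.1.2)) ∪
          (P ×ˢ G).image (fun t => (t.2, t.1.1, t.1.2)))
  have h6 := Finset.card_union_le ((P ×ˢ G).image (fun t => (t.1.1, t.2, t.1.2)))
          ((P ×ˢ G).image (fun t => (t.2, t.1.1, t.1.2)))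
  have h7 := h3 (fun t => (t.1.1, t.1.2, t.2))
  have h8 := h3 (fun t => (t.1.1, t.2, t.1.2))
  have h9 := h3 (fun t => (t.2, t.1.1, t.1.2))
  calc G.card ^ 3 = G.card * (G.card * G.card) := by ring
    _ ≤ _ := by omega

private theorem ColA_arith (N g T p : ℕ) (h1 : 3 * N ≤ 4 * g) (h2 : 12 * p ≤ N ^ 2)
    (h3 : g ^ 3 ≤ T + 3 * (g * p)) : N ^ 3 ≤ 5 * T := by
  have e1 : 12 * (g * p) ≤ g * N ^ 2 := by nlinarith
  have e2 : 4 * g ^ 3 ≤ 4 * T + g * N ^ 2 := by nlinarith
  -- 4 g^3 - g N^2 >= 15/16 N^3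
  have e3 : 16 * (g * N ^ 2) + 15 * N ^ 3 ≤ 64 * g ^ 3 := by
    have e4 : N * 3 ≤ 4 * g := by linarith
    zify at *
    nlinarith [mul_nonneg (sub_nonneg.2 e4) (sq_nonneg (N : ℤ)),
      mul_nonneg (sub_nonneg.2 e4) (mul_nonneg (Int.natCast_nonneg g) (Int.natCast_nonneg N)),
      mul_nonneg (sub_nonneg.2 e4) (sq_nonneg (g : ℤ))]
  have e5 : 15 * N ^ 3 ≤ 64 * T := by nlinarith
  have e6 : 0 ≤ N ^ 3 := Nat.zero_le _
  omega

/-- the colourings which are right for a triple -/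
private theorem ColA_kappa {V : Type} [Fintype V] [DecidableEq V] (β : Finset (Finset V)) (K : ℕ)
    (a b c : V) (h : (a, b, c) ∈ ColA_tri β K) :
    3 ^ Fintype.card (Finset V) ≤ 27 ^ K * ((univ : Finset (Finset V → Fin 3)).filter fun κ =>
      (∀ B ∈ β, a ∈ B → κ B = 0) ∧ (∀ B ∈ β, b ∈ B → κ B = 1) ∧
        ∀ B ∈ β, c ∈ B → κ B = 2).card := by
  simp only [ColA_tri, Finset.mem_filter, Finset.mem_univ, true_and] at h
  obtain ⟨⟨ha, hb, hc⟩, hno⟩ := h
  set al : Finset V → Finset (Fin 3) := fun B => if B ∈ β ∧ a ∈ B then {0} else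
    if B ∈ β ∧ b ∈ B then {1} else if B ∈ β ∧ c ∈ B then {2} else univ with hal
  set C : Finset (Finset V) := β.filter fun B => a ∈ B ∨ b ∈ B ∨ c ∈ B with hC
  have h1 : Fintype.piFinset al ⊆ (univ : Finset (Finset V → Fin 3)).filter fun κ =>
      (∀ B ∈ β, a ∈ B → κ B = 0) ∧ (∀ B ∈ β, b ∈ B → κ B = 1) ∧
        ∀ B ∈ β, c ∈ B → κ B = 2 := by
    intro κ hκ
    rw [Fintype.mem_piFinset] at hκ
    refine Finset.mem_filter.2 ⟨Finset.mem_univ _, fun B hB hv => ?_, fun B hB hv => ?_,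
      fun B hB hv => ?_⟩
    · have := hκ B
      simpa [hal, hB, hv] using this
    · have h2 : a ∉ B := fun h => (hno B hB).1 ⟨h, hv⟩
      have := hκ B
      simpa [hal, hB, hv, h2] using this
    · have h2 : a ∉ B := fun h => (hno B hB).2.1 ⟨h, hv⟩
      have h3 : b ∉ B := fun h => (hno B hB).2.2 ⟨h, hv⟩
      have := hκ B
      simpa [hal, hB, hv, h2, h3] using this
  have h2 : (∏ B : Finset V, (al B).card) * 3 ^ C.card = 3 ^ Fintype.card (Finset V) := by
    have h3 : (3 : ℕ) ^ C.card = ∏ B : Finset V, if B ∈ C then 3 else 1 := by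
      rw [Finset.prod_ite, Finset.prod_const, Finset.prod_const_one, mul_one]
      congr 1
      congr 1
      ext B
      simp
    rw [h3, ← Finset.prod_mul_distrib]
    have h4 : ∀ B : Finset V, (al B).card * (if B ∈ C then 3 else 1) = 3 := by
      intro B
      by_cases h5 : B ∈ β
      · by_cases h6 : a ∈ B
        · simp [hal, hC, h5, h6]
        · by_cases h7 : b ∈ B
          · simp [hal, hC, h5, h6, h7]
          · by_cases h8 : c ∈ B
            · simp [hal, hC, h5, h6, h7, h8]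
            · simp [hal, hC, h6, h7, h8]
      · simp [hal, hC, h5]
    rw [Finset.prod_congr rfl fun B _ => h4 B, Finset.prod_const, Finset.card_univ]
  have h3 : C.card ≤ 3 * K := by
    have h4 : C ⊆ β.filter (a ∈ ·) ∪ (β.filter (b ∈ ·) ∪ β.filter (c ∈ ·)) := by
      intro B hB
      obtain ⟨h5, h6⟩ := Finset.mem_filter.1 hB
      rcases h6 with h6 | h6 | h6
      · exact Finset.mem_union_left _ (Finset.mem_filter.2 ⟨h5, h6⟩)
      · exact Finset.mem_union_right _ (Finset.mem_union_left _ (Finset.mem_filter.2 ⟨h5, h6⟩))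
      · exact Finset.mem_union_right _ (Finset.mem_union_right _ (Finset.mem_filter.2 ⟨h5, h6⟩))
    have h5 := Finset.card_le_card h4
    have h6 := Finset.card_union_le (β.filter (a ∈ ·)) (β.filter (b ∈ ·) ∪ β.filter (c ∈ ·))
    have h7 := Finset.card_union_le (β.filter (b ∈ ·)) (β.filter (c ∈ ·))
    omega
  calc 3 ^ Fintype.card (Finset V) = (∏ B : Finset V, (al B).card) * 3 ^ C.card := h2.symm
    _ ≤ (∏ B : Finset V, (al B).card) * 3 ^ (3 * K) :=
        Nat.mul_le_mul_left _ (Nat.pow_le_pow_right (by norm_num) h3)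
    _ = 27 ^ K * (Fintype.piFinset al).card := by
        rw [Fintype.card_piFinset, pow_mul, mul_comm]
        norm_num
    _ ≤ _ := Nat.mul_le_mul_left _ (Finset.card_le_card h1)

theorem colour_comb {V : Type} [Fintype V] [DecidableEq V] (β : Finset (Finset V)) (K m : ℕ)
    (hm : ∀ B ∈ β, B.card ≤ m) (h1 : 4 * ∑ B ∈ β, B.card ≤ (K + 1) * Fintype.card V)
    (h2 : 12 * m * ∑ B ∈ β, B.card ≤ Fintype.card V ^ 2) :
    ∃ κ : Finset V → Fin 3, ∀ t : Fin 3, Fintype.card V ≤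
      5 * 27 ^ K * (univ.filter fun v => ∀ B ∈ β, v ∈ B → κ B = t).card := by
  set N := Fintype.card V with hN
  rcases Nat.eq_zero_or_pos N with h0 | h0
  · exact ⟨fun _ => 0, fun t => by rw [h0]; exact Nat.zero_le _⟩
  set X : (Finset V → Fin 3) → Fin 3 → Finset V := fun κ t =>
    univ.filter fun v => ∀ B ∈ β, v ∈ B → κ B = t with hX
  have hT := ColA_arith N _ _ _ (ColA_good β K h1) (ColA_pairs β m hm h2) (ColA_triples β K)
  -- the sum over all colourings
  have hsum : 3 ^ Fintype.card (Finset V) * (ColA_tri β K).card ≤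
      27 ^ K * ∑ κ : Finset V → Fin 3, (X κ 0).card * ((X κ 1).card * (X κ 2).card) := by
    have h3 : ∀ κ : Finset V → Fin 3, ((ColA_tri β K).filter fun t =>
        (∀ B ∈ β, t.1 ∈ B → κ B = 0) ∧ (∀ B ∈ β, t.2.1 ∈ B → κ B = 1) ∧
          ∀ B ∈ β, t.2.2 ∈ B → κ B = 2).card ≤ (X κ 0).card * ((X κ 1).card * (X κ 2).card) := by
      intro κ
      rw [← Finset.card_product, ← Finset.card_product]
      refine Finset.card_le_card fun t ht => ?_
      obtain ⟨_, h4, h5, h6⟩ := Finset.mem_filter.1 ht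
      refine Finset.mem_product.2 ⟨?_, Finset.mem_product.2 ⟨?_, ?_⟩⟩
      · exact Finset.mem_filter.2 ⟨Finset.mem_univ _, h4⟩
      · exact Finset.mem_filter.2 ⟨Finset.mem_univ _, h5⟩
      · exact Finset.mem_filter.2 ⟨Finset.mem_univ _, h6⟩
    have h4 : ∑ κ : Finset V → Fin 3, ((ColA_tri β K).filter fun t =>
        (∀ B ∈ β, t.1 ∈ B → κ B = 0) ∧ (∀ B ∈ β, t.2.1 ∈ B → κ B = 1) ∧
          ∀ B ∈ β, t.2.2 ∈ B → κ B = 2).card = ∑ t ∈ ColA_tri β K,
        ((univ : Finset (Finset V → Fin 3)).filter fun κ =>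
          (∀ B ∈ β, t.1 ∈ B → κ B = 0) ∧ (∀ B ∈ β, t.2.1 ∈ B → κ B = 1) ∧
            ∀ B ∈ β, t.2.2 ∈ B → κ B = 2).card := by
      simp only [Finset.card_filter]
      exact Finset.sum_comm
    calc 3 ^ Fintype.card (Finset V) * (ColA_tri β K).card
        = ∑ _t ∈ ColA_tri β K, 3 ^ Fintype.card (Finset V) := by
          rw [Finset.sum_const, smul_eq_mul, mul_comm]
      _ ≤ ∑ t ∈ ColA_tri β K, 27 ^ K * ((univ : Finset (Finset V → Fin 3)).filter fun κ =>
          (∀ B ∈ β, t.1 ∈ B → κ B = 0) ∧ (∀ B ∈ β, t.2.1 ∈ B → κ B = 1) ∧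
            ∀ B ∈ β, t.2.2 ∈ B → κ B = 2).card :=
          Finset.sum_le_sum fun t ht => ColA_kappa β K t.1 t.2.1 t.2.2 ht
      _ = 27 ^ K * ∑ κ : Finset V → Fin 3, ((ColA_tri β K).filter fun t =>
        (∀ B ∈ β, t.1 ∈ B → κ B = 0) ∧ (∀ B ∈ β, t.2.1 ∈ B → κ B = 1) ∧
          ∀ B ∈ β, t.2.2 ∈ B → κ B = 2).card := by rw [h4, Finset.mul_sum]
      _ ≤ _ := Nat.mul_le_mul_left _ (Finset.sum_le_sum fun κ _ => h3 κ)
  -- a good colouring
  have hex : ∃ κ : Finset V → Fin 3,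
      N ^ 3 ≤ 5 * 27 ^ K * ((X κ 0).card * ((X κ 1).card * (X κ 2).card)) := by
    by_contra hno
    push Not at hno
    have h3 : ∑ κ : Finset V → Fin 3, 5 * 27 ^ K *
        ((X κ 0).card * ((X κ 1).card * (X κ 2).card)) < ∑ _κ : Finset V → Fin 3, N ^ 3 :=
      Finset.sum_lt_sum_of_nonempty Finset.univ_nonempty fun κ _ => hno κ
    rw [← Finset.mul_sum, Finset.sum_const, smul_eq_mul, Finset.card_univ, Fintype.card_fun,
      Fintype.card_fin] at h3
    have h4 : 3 ^ Fintype.card (Finset V) * N ^ 3 ≤ 5 * 27 ^ K *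
        ∑ κ : Finset V → Fin 3, (X κ 0).card * ((X κ 1).card * (X κ 2).card) := by
      calc 3 ^ Fintype.card (Finset V) * N ^ 3
          ≤ 3 ^ Fintype.card (Finset V) * (5 * (ColA_tri β K).card) := Nat.mul_le_mul_left _ hT
        _ = 5 * (3 ^ Fintype.card (Finset V) * (ColA_tri β K).card) := by ring
        _ ≤ 5 * (27 ^ K * ∑ κ : Finset V → Fin 3,
              (X κ 0).card * ((X κ 1).card * (X κ 2).card)) := Nat.mul_le_mul_left _ hsum
        _ = _ := by ring
    exact absurd h3 (not_lt.2 h4)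
  obtain ⟨κ, hκ⟩ := hex
  refine ⟨κ, fun t => ?_⟩
  have hle : ∀ s, (X κ s).card ≤ N := fun s => Finset.card_le_univ _
  have h3 : N * N ^ 2 ≤ 5 * 27 ^ K * (X κ t).card * N ^ 2 := by
    have h4 : (X κ 0).card * ((X κ 1).card * (X κ 2).card) ≤ (X κ t).card * N ^ 2 := by
      have e0 := hle 0
      have e1 := hle 1
      have e2 := hle 2
      fin_cases t
      · calc (X κ 0).card * ((X κ 1).card * (X κ 2).card) ≤ (X κ 0).card * (N * N) :=
            Nat.mul_le_mul_left _ (Nat.mul_le_mul e1 e2)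
          _ = (X κ 0).card * N ^ 2 := by ring
      · calc (X κ 0).card * ((X κ 1).card * (X κ 2).card) ≤ N * ((X κ 1).card * N) :=
            Nat.mul_le_mul e0 (Nat.mul_le_mul_left _ e2)
          _ = (X κ 1).card * N ^ 2 := by ring
      · calc (X κ 0).card * ((X κ 1).card * (X κ 2).card) ≤ N * (N * (X κ 2).card) :=
            Nat.mul_le_mul e0 (Nat.mul_le_mul_right _ e1)
          _ = (X κ 2).card * N ^ 2 := by ring
    calc N * N ^ 2 = N ^ 3 := by ring
      _ ≤ 5 * 27 ^ K * ((X κ 0).card * ((X κ 1).card * (X κ 2).card)) := hκ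
      _ ≤ 5 * 27 ^ K * ((X κ t).card * N ^ 2) := Nat.mul_le_mul_left _ h4
      _ = _ := by ring
  exact Nat.le_of_mul_le_mul_right h3 (by positivity)

end Pool.Agent.RP
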