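import Mathlib
import Pool.Agent.Lib.MP_0a1b52_lc_RP.ColA
import Pool.Agent.Lib.MP_0a1b52_lc_FP.Pass

/-!
# Reading patterns, module Col: colouring the blocks with three colours
-/

set_option autoImplicit false

namespace Pool.Agent.RP

open Finset Pool.Agent.FP

theorem colour (δ : ℝ) (hδ : 0 < δ) : ∃ c : ℝ, 0 < c ∧ ∃ n₀ : ℕ, ∀ n ≥ n₀,
    ∀ β : Finset (Finset (EdgeVar n)),
    (∀ B ∈ β, (B.card : ℝ) ≤ (n : ℝ) ^ 2 / Real.logb 2 n) →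
    ∑ B ∈ β, (B.card : ℝ) ≤ c * (n : ℝ) ^ 2 * Real.logb 2 n →
    ∃ κ : Finset (EdgeVar n) → Fin 3, ∀ t : Fin 3, (n : ℝ) ^ (2 - δ) ≤
      ((univ.filter fun v => ∀ B ∈ β, v ∈ B → κ B = t).card : ℝ) := by
  obtain ⟨c, hc0, hc1, hc2⟩ : ∃ c : ℝ, 0 < c ∧ c ≤ δ / 120 ∧ c ≤ 1 / 108 :=
    ⟨min (δ / 120) (1 / 108), lt_min (by positivity) (by norm_num), min_le_left _ _,
      min_le_right _ _⟩
  have htend : Filter.Tendsto (fun n : ℕ => (n : ℝ) ^ (δ / 2)) Filter.atTop Filter.atTop :=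
    (tendsto_rpow_atTop (by positivity)).comp tendsto_natCast_atTop_atTop
  obtain ⟨n₁, hn₁⟩ := Filter.eventually_atTop.1 (htend.eventually_ge_atTop 24)
  refine ⟨c, hc0, max n₁ 3, fun n hn β hB hS => ?_⟩
  have hn3 : 3 ≤ n := le_trans (le_max_right _ _) hn
  have h15 : (24 : ℝ) ≤ (n : ℝ) ^ (δ / 2) := hn₁ n (le_trans (le_max_left _ _) hn)
  have hnR : (3 : ℝ) ≤ n := by exact_mod_cast hn3
  have hn0 : (0 : ℝ) < n := by linarith
  obtain ⟨L, hL⟩ : ∃ L, L = Real.logb 2 (n : ℝ) := ⟨_, rfl⟩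
  rw [← hL] at hS
  simp only [← hL] at hB
  have hL1 : 1 ≤ L := by
    rw [hL, Real.le_logb_iff_rpow_le (by norm_num) hn0]
    norm_num
    linarith
  have hcardN : n * n = 2 * Fintype.card (EdgeVar n) + n := Pass_card n
  obtain ⟨N, hN⟩ : ∃ N, N = Fintype.card (EdgeVar n) := ⟨_, rfl⟩
  rw [← hN] at hcardN
  have hcardR : (n : ℝ) * n = 2 * N + n := by exact_mod_cast hcardN
  have hN3 : (n : ℝ) ^ 2 / 3 ≤ N := by nlinarith
  have hNnn : (0 : ℝ) ≤ N := Nat.cast_nonneg _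
  obtain ⟨Sc, hSc⟩ : ∃ Sc, Sc = ∑ B ∈ β, B.card := ⟨_, rfl⟩
  have hSR : (Sc : ℝ) ≤ c * (n : ℝ) ^ 2 * L := by
    rw [hSc]; push_cast; exact hS
  obtain ⟨K, hKle, hKlt⟩ : ∃ K : ℕ, (K : ℝ) ≤ 12 * c * L ∧ 12 * c * L < K + 1 :=
    ⟨⌊12 * c * L⌋₊, Nat.floor_le (by positivity), Nat.lt_floor_add_one _⟩
  have h1 : 4 * Sc ≤ (K + 1) * N := by
    have : (4 : ℝ) * Sc ≤ (K + 1) * N := by
      calc (4 : ℝ) * Sc ≤ 4 * (c * (n : ℝ) ^ 2 * L) := by linarith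
        _ = (12 * c * L) * ((n : ℝ) ^ 2 / 3) := by ring
        _ ≤ (K + 1) * N := by
            apply mul_le_mul hKlt.le hN3 (by positivity) (by positivity)
    exact_mod_cast this
  have h2 : 12 * ⌊(n : ℝ) ^ 2 / L⌋₊ * Sc ≤ N ^ 2 := by
    have hfl : ((⌊(n : ℝ) ^ 2 / L⌋₊ : ℕ) : ℝ) ≤ (n : ℝ) ^ 2 / L := Nat.floor_le (by positivity)
    have : (12 : ℝ) * (⌊(n : ℝ) ^ 2 / L⌋₊ : ℕ) * Sc ≤ (N : ℝ) ^ 2 := by
      calc (12 : ℝ) * (⌊(n : ℝ) ^ 2 / L⌋₊ : ℕ) * Sc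
          ≤ 12 * ((n : ℝ) ^ 2 / L) * (c * (n : ℝ) ^ 2 * L) := by gcongr
        _ = 12 * c * (n : ℝ) ^ 2 * ((n : ℝ) ^ 2 / L * L) := by ring
        _ = 108 * c * ((n : ℝ) ^ 2 / 3) ^ 2 := by
            rw [div_mul_cancel₀ _ (by linarith : L ≠ 0)]
            ring
        _ ≤ 1 * ((n : ℝ) ^ 2 / 3) ^ 2 := by
            apply mul_le_mul_of_nonneg_right _ (by positivity)
            linarith
        _ ≤ (N : ℝ) ^ 2 := by
            rw [one_mul]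
            exact pow_le_pow_left₀ (by positivity) hN3 2
    exact_mod_cast this
  rw [hSc, hN] at h1 h2
  obtain ⟨κ, hκ⟩ := colour_comb β K ⌊(n : ℝ) ^ 2 / L⌋₊
    (fun B hB' => Nat.le_floor (hB B hB')) h1 h2
  rw [← hN] at hκ
  refine ⟨κ, fun t => ?_⟩
  have h3 := hκ t
  generalize (univ.filter fun v => ∀ B ∈ β, v ∈ B → κ B = t).card = X at h3 ⊢
  have h3' : N ≤ 8 * 27 ^ K * X :=
    le_trans h3 (Nat.mul_le_mul_right _ (Nat.mul_le_mul_right _ (by norm_num)))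
  have h3R : (N : ℝ) ≤ 8 * 27 ^ K * X := by exact_mod_cast h3'
  -- the power of 27
  have h27 : (27 : ℝ) ^ K ≤ (n : ℝ) ^ (60 * c) := by
    calc (27 : ℝ) ^ K ≤ 32 ^ K := pow_le_pow_left₀ (by norm_num) (by norm_num) K
      _ = (2 : ℝ) ^ (5 * (K : ℝ)) := by
          rw [Real.rpow_mul (by norm_num), Real.rpow_natCast]
          norm_num
      _ ≤ (2 : ℝ) ^ (5 * (12 * c * L)) :=
          Real.rpow_le_rpow_of_exponent_le (by norm_num) (by linarith)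
      _ = ((2 : ℝ) ^ L) ^ (60 * c) := by
          rw [← Real.rpow_mul (by norm_num)]
          congr 1
          ring
      _ = (n : ℝ) ^ (60 * c) := by
          rw [hL, Real.rpow_logb (by norm_num) (by norm_num) hn0]
  have h4 : (n : ℝ) ^ 2 / 3 ≤ 8 * (n : ℝ) ^ (60 * c) * X := by
    refine hN3.trans (h3R.trans ?_)
    gcongr
  -- conclusion
  have hp1 : (n : ℝ) ^ (60 * c) ≤ (n : ℝ) ^ (δ / 2) :=
    Real.rpow_le_rpow_of_exponent_le (by linarith) (by linarith)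
  have hX0 : (0 : ℝ) ≤ X := Nat.cast_nonneg _
  have h5 : (n : ℝ) ^ 2 ≤ (n : ℝ) ^ δ * X := by
    calc (n : ℝ) ^ 2 = 3 * ((n : ℝ) ^ 2 / 3) := by ring
      _ ≤ 3 * (8 * (n : ℝ) ^ (60 * c) * X) := by linarith
      _ = 24 * ((n : ℝ) ^ (60 * c) * X) := by ring
      _ ≤ (n : ℝ) ^ (δ / 2) * ((n : ℝ) ^ (δ / 2) * X) := by
          apply mul_le_mul h15 _ (by positivity) (by positivity)
          exact mul_le_mul_of_nonneg_right hp1 hX0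
      _ = (n : ℝ) ^ δ * X := by
          rw [← mul_assoc, ← Real.rpow_add hn0]
          congr 2
          ring
  have h6 : (n : ℝ) ^ (2 - δ) = (n : ℝ) ^ 2 / (n : ℝ) ^ δ := by
    rw [Real.rpow_sub hn0]
    norm_num
  rw [h6, div_le_iff₀ (Real.rpow_pos_of_pos hn0 δ), mul_comm]
  exact h5

end Pool.Agent.RP
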