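import Mathlib
import Pool.Agent.Lib.MP_0a1b52_lc_RP.Bad

/-!
# Reading patterns, module Arith: the parameters of the system of gadgets
-/

set_option autoImplicit false

namespace Pool.Agent.RP

private theorem arith_pow {x y : ℝ} (hxy : x < y) (C : ℝ) :
    ∀ᶠ n : ℕ in Filter.atTop, C * (n : ℝ) ^ x ≤ (n : ℝ) ^ y := by
  have h1 : Filter.Tendsto (fun n : ℕ => ((n : ℝ)) ^ (y - x)) Filter.atTop Filter.atTop :=
    (tendsto_rpow_atTop (by linarith)).comp tendsto_natCast_atTop_atTop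
  filter_upwards [h1.eventually_ge_atTop C, Filter.eventually_ge_atTop 1] with n hn h1n
  have hn0 : (0 : ℝ) < n := by exact_mod_cast h1n
  have h2 : (n : ℝ) ^ y = (n : ℝ) ^ (y - x) * (n : ℝ) ^ x := by
    rw [← Real.rpow_add hn0]
    congr 1
    ring
  rw [h2]
  exact mul_le_mul_of_nonneg_right hn (Real.rpow_nonneg hn0.le x)

private theorem arith_term (p G n N k i j : ℕ) (e c t : ℝ) (hc : 0 ≤ c) (hn : 1 ≤ n)
    (hN : (n : ℝ) / 2 ≤ N) (hNn : (N : ℝ) ≤ n) (hG : (G : ℝ) ≤ (n : ℝ) ^ (2 - e))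
    (ht : (2 - e) * k + i - j ≤ t) :
    (((G * p : ℕ) : ℝ)) ^ k * c * (N : ℝ) ^ i / (N : ℝ) ^ j ≤
      (p : ℝ) ^ k * c * 2 ^ j * (n : ℝ) ^ t := by
  have hn1 : (1 : ℝ) ≤ n := by exact_mod_cast hn
  have hn0 : (0 : ℝ) < n := by linarith
  have hN0 : (0 : ℝ) < N := by linarith
  have e1 : (((G * p : ℕ) : ℝ)) ^ k ≤ (p : ℝ) ^ k * (n : ℝ) ^ ((2 - e) * k) := by
    rw [Real.rpow_mul hn0.le, Real.rpow_natCast, ← mul_pow]
    refine pow_le_pow_left₀ (by positivity) ?_ k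
    push_cast
    rw [mul_comm]
    exact mul_le_mul_of_nonneg_left hG (by positivity)
  have e2 : (N : ℝ) ^ i ≤ (n : ℝ) ^ (i : ℝ) := by
    rw [Real.rpow_natCast]
    exact pow_le_pow_left₀ hN0.le hNn i
  have e3 : ((N : ℝ) ^ j)⁻¹ ≤ 2 ^ j * (n : ℝ) ^ (-(j : ℝ)) := by
    rw [Real.rpow_neg hn0.le, Real.rpow_natCast, ← inv_pow, ← inv_pow, ← mul_pow]
    refine pow_le_pow_left₀ (by positivity) ?_ j
    rw [← div_eq_mul_inv, inv_le_comm₀ hN0 (by positivity), inv_div]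
    exact hN
  have e4 : (n : ℝ) ^ ((2 - e) * k + i - j) =
      (n : ℝ) ^ ((2 - e) * k) * (n : ℝ) ^ (i : ℝ) * (n : ℝ) ^ (-(j : ℝ)) := by
    rw [← Real.rpow_add hn0, ← Real.rpow_add hn0]
    congr 1
  calc (((G * p : ℕ) : ℝ)) ^ k * c * (N : ℝ) ^ i / (N : ℝ) ^ j
      = (((G * p : ℕ) : ℝ)) ^ k * c * (N : ℝ) ^ i * ((N : ℝ) ^ j)⁻¹ := div_eq_mul_inv _ _
    _ ≤ ((p : ℝ) ^ k * (n : ℝ) ^ ((2 - e) * k)) * c * (n : ℝ) ^ (i : ℝ) *
        (2 ^ j * (n : ℝ) ^ (-(j : ℝ))) := by gcongr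
    _ = (p : ℝ) ^ k * c * 2 ^ j * (n : ℝ) ^ ((2 - e) * k + i - j) := by
        rw [e4]
        ring
    _ ≤ (p : ℝ) ^ k * c * 2 ^ j * (n : ℝ) ^ t := by
        refine mul_le_mul_of_nonneg_left ?_ (by positivity)
        exact Real.rpow_le_rpow_of_exponent_le hn1 ht

private theorem arith_bad (p g a h : ℕ) (e : ℝ) (he : 0 < e) (he1 : e ≤ 1)
    (ha : 1 + e ≤ e * a) (hh : 2 + e ≤ e * h) :
    ∃ C : ℝ, 0 < C ∧ ∀ n N G : ℕ, 1 ≤ n → (n : ℝ) / 2 ≤ N → (N : ℝ) ≤ n →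
      (G : ℝ) ≤ (n : ℝ) ^ (2 - e) → bad (G * p) g N a h ≤ C * (n : ℝ) ^ (2 - 2 * e) := by
  have hcard := pairs_card h
  set m : ℕ := Fintype.card (Pairs h) with hm
  refine ⟨(p : ℝ) ^ 1 * (g : ℝ) ^ 2 * 2 ^ 1 + (p : ℝ) ^ 2 * (g : ℝ) ^ 4 * 2 ^ 2 +
    (p : ℝ) ^ (a + 1) * (g : ℝ) ^ (3 * a) * 2 ^ (2 * a) +
    (p : ℝ) ^ m * ((g : ℝ) ^ 2) ^ m * 2 ^ (2 * m) + 1, by positivity, ?_⟩
  intro n N G hn hN hNn hG
  have hn1 : (1 : ℝ) ≤ n := by exact_mod_cast hn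
  have hn0 : (0 : ℝ) < n := by linarith
  have hh1 : 1 ≤ h := by
    rcases Nat.eq_zero_or_pos h with h0 | h0
    · subst h0
      exfalso
      push_cast at hh
      linarith
    · exact h0
  have hmr : 2 * (m : ℝ) = h * (h - 1) := by
    have := congrArg (Nat.cast : ℕ → ℝ) hcard
    push_cast [Nat.cast_sub hh1] at this
    exact this
  have t1 := arith_term p G n N 1 0 1 e ((g : ℝ) ^ 2) (2 - 2 * e) (by positivity) hn hN hNn hG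
    (by push_cast; linarith)
  have t2 := arith_term p G n N 2 0 2 e ((g : ℝ) ^ 4) (2 - 2 * e) (by positivity) hn hN hNn hG
    (by push_cast; linarith)
  have t3 := arith_term p G n N (a + 1) 1 (2 * a) e ((g : ℝ) ^ (3 * a)) (2 - 2 * e)
    (by positivity) hn hN hNn hG (by push_cast; linarith)
  have t4 := arith_term p G n N m h (2 * m) e (((g : ℝ) ^ 2) ^ m) (2 - 2 * e)
    (by positivity) hn hN hNn hG (by
      push_cast
      have h2 : (0 : ℝ) ≤ h := by positivity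
      have h3 : (h : ℝ) * 2 ≤ h * (e * (h - 1)) :=
        mul_le_mul_of_nonneg_left (by linarith) h2
      have h4 : (h : ℝ) ≤ e * m := by
        have : e * (2 * (m : ℝ)) = h * (e * (h - 1)) := by
          rw [hmr]
          ring
        linarith
      linarith)
  rw [bad, ← hm]
  have e1 : (((G * p : ℕ) : ℝ)) * (g : ℝ) ^ 2 / N =
      (((G * p : ℕ) : ℝ)) ^ 1 * (g : ℝ) ^ 2 * (N : ℝ) ^ 0 / (N : ℝ) ^ 1 := by
    simp
  have e2 : (((G * p : ℕ) : ℝ)) ^ 2 * (g : ℝ) ^ 4 / (N : ℝ) ^ 2 =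
      (((G * p : ℕ) : ℝ)) ^ 2 * (g : ℝ) ^ 4 * (N : ℝ) ^ 0 / (N : ℝ) ^ 2 := by
    simp
  have e3 : (((G * p : ℕ) : ℝ)) ^ (a + 1) * (g : ℝ) ^ (3 * a) * N / (N : ℝ) ^ (2 * a) =
      (((G * p : ℕ) : ℝ)) ^ (a + 1) * (g : ℝ) ^ (3 * a) * (N : ℝ) ^ 1 / (N : ℝ) ^ (2 * a) := by
    simp
  have e4 : ((((G * p : ℕ) : ℝ)) * (g : ℝ) ^ 2) ^ m * (N : ℝ) ^ h / (N : ℝ) ^ (2 * m) =
      (((G * p : ℕ) : ℝ)) ^ m * ((g : ℝ) ^ 2) ^ m * (N : ℝ) ^ h / (N : ℝ) ^ (2 * m) := by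
    rw [mul_pow]
  rw [e1, e2, e3, e4]
  have h5 : (0 : ℝ) ≤ (n : ℝ) ^ (2 - 2 * e) := by positivity
  calc _ ≤ (p : ℝ) ^ 1 * (g : ℝ) ^ 2 * 2 ^ 1 * (n : ℝ) ^ (2 - 2 * e) +
      (p : ℝ) ^ 2 * (g : ℝ) ^ 4 * 2 ^ 2 * (n : ℝ) ^ (2 - 2 * e) +
      (p : ℝ) ^ (a + 1) * (g : ℝ) ^ (3 * a) * 2 ^ (2 * a) * (n : ℝ) ^ (2 - 2 * e) +
      (p : ℝ) ^ m * ((g : ℝ) ^ 2) ^ m * 2 ^ (2 * m) * (n : ℝ) ^ (2 - 2 * e) :=
        add_le_add (add_le_add (add_le_add t1 t2) t3) t4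
    _ ≤ _ := by nlinarith

theorem arith (p : ℕ) (hp : 1 ≤ p) (ε : ℝ) (hε : 0 < ε) (hε1 : ε ≤ 1) :
    ∃ (δ : ℝ) (a h z n₀ : ℕ), 0 < δ ∧ 1 ≤ a ∧ 2 ≤ h ∧ a * h ^ 2 ≤ z + 6 ∧ ∀ n ≥ n₀,
      z + 6 ≤ Nat.sqrt n ∧ 1 ≤ n - (Nat.sqrt n + 2) ∧
      (n : ℝ) ^ (-δ) * ((n - (Nat.sqrt n + 2) : ℕ) : ℝ) ^ 2 + 2 * (Nat.sqrt n + 2) * n ≤
        2 * (n : ℝ) ^ (2 - δ) ∧
      ∃ (G : ℕ) (b : ℝ), 0 < b ∧ bad (G * p) (z + 6) (n - (Nat.sqrt n + 2)) a h ≤ b ∧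
        (2 : ℝ) ^ ((n : ℝ) ^ (2 - ε)) *
          (2 : ℝ) ^ (-(((n : ℝ) ^ (-δ)) ^ (3 * p) * G / 4)) ≤ 1 / 4 ∧
        (n : ℝ) ^ (2 - ε) ≤ ((n : ℝ) ^ (-δ)) ^ (3 * p) * G / 4 - 2 * b := by
  have hp0 : (0 : ℝ) < p := by exact_mod_cast hp
  have hp1 : (1 : ℝ) ≤ p := by exact_mod_cast hp
  obtain ⟨e, he, he3⟩ : ∃ e : ℝ, 0 < e ∧ 3 * e = ε := ⟨ε / 3, by positivity, by ring⟩
  have he1 : 3 * e ≤ 1 := by rw [he3]; exact hε1
  obtain ⟨a, ha⟩ := exists_nat_ge (1 / e + 1)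
  obtain ⟨h, hh⟩ := exists_nat_ge (2 / e + 1)
  have ha' : 1 + e ≤ e * a := by
    have := mul_le_mul_of_nonneg_left ha he.le
    rw [mul_add, mul_one_div_cancel he.ne'] at this
    linarith
  have hh' : 2 + e ≤ e * h := by
    have h1 := mul_le_mul_of_nonneg_left hh he.le
    rw [mul_add, mul_div_cancel₀ _ he.ne'] at h1
    linarith
  have ha1 : 1 ≤ a := by
    rcases Nat.eq_zero_or_pos a with h0 | h0
    · subst h0
      exfalso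
      push_cast at ha'
      linarith
    · exact h0
  have hh2 : 2 ≤ h := by
    by_contra hcon
    have h1 : h ≤ 1 := by omega
    have h2 : (h : ℝ) ≤ 1 := by exact_mod_cast h1
    nlinarith
  set z : ℕ := a * h ^ 2 with hz
  obtain ⟨C, hC, hbad⟩ := arith_bad p (z + 6) a h e he (by linarith) ha' hh'
  set δ : ℝ := e / (6 * p) with hδ
  have hδ0 : 0 < δ := by positivity
  have hδ1 : δ ≤ e / 6 := by
    rw [hδ]
    exact div_le_div_of_nonneg_left he.le (by norm_num) (by linarith)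
  have hδp : δ * (3 * p) = e / 2 := by
    rw [hδ]
    field_simp
    ring
  have ev : ∀ᶠ n : ℕ in Filter.atTop, z + 6 ≤ Nat.sqrt n ∧ 1 ≤ n - (Nat.sqrt n + 2) ∧
      (n : ℝ) ^ (-δ) * ((n - (Nat.sqrt n + 2) : ℕ) : ℝ) ^ 2 + 2 * (Nat.sqrt n + 2) * n ≤
        2 * (n : ℝ) ^ (2 - δ) ∧
      ∃ (G : ℕ) (b : ℝ), 0 < b ∧ bad (G * p) (z + 6) (n - (Nat.sqrt n + 2)) a h ≤ b ∧
        (2 : ℝ) ^ ((n : ℝ) ^ (2 - ε)) *
          (2 : ℝ) ^ (-(((n : ℝ) ^ (-δ)) ^ (3 * p) * G / 4)) ≤ 1 / 4 ∧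
        (n : ℝ) ^ (2 - ε) ≤ ((n : ℝ) ^ (-δ)) ^ (3 * p) * G / 4 - 2 * b := by
    filter_upwards [Filter.eventually_ge_atTop ((z + 6) ^ 2 + 100),
      arith_pow (show (3 / 2 : ℝ) < 2 - δ by linarith) 6,
      arith_pow (show (0 : ℝ) < 2 - e by linarith) 2,
      arith_pow (show (0 : ℝ) < 2 - 3 / 2 * e by linarith) 32,
      arith_pow (show 2 - 3 * e < 2 - 3 / 2 * e by linarith) 16,
      arith_pow (show 2 - 2 * e < 2 - 3 / 2 * e by linarith) (32 * C)]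
      with n hn f1 f2 f3 f4 f5
    have hn100 : 100 ≤ n := by omega
    have hnr : (100 : ℝ) ≤ n := by exact_mod_cast hn100
    have hn0 : (0 : ℝ) < n := by linarith
    have hn1 : (1 : ℝ) ≤ n := by linarith
    have hs1 : Nat.sqrt n * Nat.sqrt n ≤ n := Nat.sqrt_le n
    have hs10 : 10 ≤ Nat.sqrt n := Nat.le_sqrt.2 (by omega)
    have hsn : Nat.sqrt n * 10 ≤ n := le_trans (Nat.mul_le_mul_left _ hs10) hs1
    have hNn : n - (Nat.sqrt n + 2) ≤ n := Nat.sub_le _ _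
    have hN2 : n ≤ 2 * (n - (Nat.sqrt n + 2)) := by omega
    have hNr : (((n - (Nat.sqrt n + 2) : ℕ)) : ℝ) ≤ n := by exact_mod_cast hNn
    have hN2r : (n : ℝ) / 2 ≤ ((n - (Nat.sqrt n + 2) : ℕ) : ℝ) := by
      have : (n : ℝ) ≤ 2 * ((n - (Nat.sqrt n + 2) : ℕ) : ℝ) := by exact_mod_cast hN2
      linarith
    refine ⟨Nat.le_sqrt.2 (by nlinarith), by omega, ?_, ?_⟩
    · have g1 : (n : ℝ) ^ (2 - δ) = (n : ℝ) ^ (-δ) * (n : ℝ) ^ 2 := by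
        rw [← Real.rpow_natCast, ← Real.rpow_add hn0]
        congr 1
        push_cast
        ring
      have g2 : (n : ℝ) ^ (-δ) * ((n - (Nat.sqrt n + 2) : ℕ) : ℝ) ^ 2 ≤ (n : ℝ) ^ (2 - δ) := by
        rw [g1]
        refine mul_le_mul_of_nonneg_left ?_ (by positivity)
        exact pow_le_pow_left₀ (by positivity) hNr 2
      have g3 : ((Nat.sqrt n : ℕ) : ℝ) ≤ (n : ℝ) ^ (1 / 2 : ℝ) := by
        rw [← Real.sqrt_eq_rpow]
        exact Real.nat_sqrt_le_real_sqrt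
      have g4 : (n : ℝ) ^ (3 / 2 : ℝ) = (n : ℝ) ^ (1 / 2 : ℝ) * n := by
        nth_rewrite 3 [← Real.rpow_one (n : ℝ)]
        rw [← Real.rpow_add hn0]
        norm_num
      have g5 : (10 : ℝ) ≤ (Nat.sqrt n : ℕ) := by exact_mod_cast hs10
      have g6 : (2 * (((Nat.sqrt n : ℕ) : ℝ) + 2) * n : ℝ) ≤ (n : ℝ) ^ (2 - δ) := by
        refine le_trans ?_ f1
        rw [g4, ← mul_assoc]
        refine mul_le_mul_of_nonneg_right ?_ hn0.le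
        linarith
      linarith
    · refine ⟨⌊(n : ℝ) ^ (2 - e)⌋₊, C * (n : ℝ) ^ (2 - 2 * e), by positivity, ?_, ?_⟩
      · exact hbad n _ _ (by omega) hN2r hNr (Nat.floor_le (by positivity))
      · have hG : (n : ℝ) ^ (2 - e) / 2 ≤ (⌊(n : ℝ) ^ (2 - e)⌋₊ : ℝ) := by
          have h1 := Nat.sub_one_lt_floor ((n : ℝ) ^ (2 - e))
          rw [Real.rpow_zero, mul_one] at f2
          linarith
        have hρ : ((n : ℝ) ^ (-δ)) ^ (3 * p) = (n : ℝ) ^ (-(e / 2)) := by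
          rw [← Real.rpow_natCast, ← Real.rpow_mul hn0.le]
          congr 1
          push_cast
          linarith
        have hρG : (n : ℝ) ^ (2 - 3 / 2 * e) / 8 ≤
            ((n : ℝ) ^ (-δ)) ^ (3 * p) * (⌊(n : ℝ) ^ (2 - e)⌋₊ : ℝ) / 4 := by
          have h1 : (n : ℝ) ^ (2 - 3 / 2 * e) = (n : ℝ) ^ (-(e / 2)) * (n : ℝ) ^ (2 - e) := by
            rw [← Real.rpow_add hn0]
            congr 1
            ring
          have h2 := mul_le_mul_of_nonneg_left hG (Real.rpow_nonneg hn0.le (-(e / 2)))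
          rw [hρ, h1]
          linarith
        rw [Real.rpow_zero, mul_one] at f3
        have hε' : 2 - ε = 2 - 3 * e := by rw [he3]
        rw [hε']
        constructor
        · rw [← Real.rpow_add (by norm_num)]
          have h2 : (1 / 4 : ℝ) = (2 : ℝ) ^ (-2 : ℝ) := by
            rw [Real.rpow_neg (by norm_num)]
            norm_num
          rw [h2]
          refine Real.rpow_le_rpow_of_exponent_le (by norm_num) ?_
          linarith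
        · linarith
  obtain ⟨n₀, hn₀⟩ := Filter.eventually_atTop.1 ev
  exact ⟨δ, a, h, z, n₀, hδ0, ha1, hh2, by omega, fun n hn => hn₀ n hn⟩

end Pool.Agent.RP
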