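import Mathlib
import Pool.Agent.Lib.MP_0a1b52_lc_RP.Defs

/-!
# Reading patterns, module Cov: few star-closed sets cover the inputs with few pieces
-/

set_option autoImplicit false

namespace Pool.Agent.RP

open Pool.Agent.FP

section Cov

variable {V : Type} {s : ℕ}

/-- the gate `g` has a refutation tree -/
def Cov_Ref (D : Circuit V s) (x : V → Bool) (g : Fin s) : Prop := ∃ L, D.Refutes x g L

/-- there is a refutation tree for `g` all of whose literals have variables in `W k` -/
def Cov_Pure (D : Circuit V s) (W : Fin 3 → Set V) (x : V → Bool) (k : Fin 3) (g : Fin s) :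
    Prop := ∃ L, D.Refutes x g L ∧ ∀ v ∈ L, v ∈ W k

/-- one step of a chain: the part passed over belongs to the class `a` (left) or `b` (right) -/
inductive Cov_Step (D : Circuit V s) (W : Fin 3 → Set V) (x : V → Bool) (a b : Fin 3) :
    Fin s → Fin s → Prop
  | andl (g i j : Fin s) : D.gate g = .and i j → Cov_Step D W x a b g i
  | andr (g i j : Fin s) : D.gate g = .and i j → Cov_Step D W x a b g j
  | orl (g i j : Fin s) : D.gate g = .or i j → Cov_Pure D W x b j → Cov_Step D W x a b g i
  | orr (g i j : Fin s) : D.gate g = .or i j → Cov_Pure D W x a i → Cov_Step D W x a b g j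

/-- skeletons -/
inductive Cov_Sk (s : ℕ)
  | leaf (k : Fin 3)
  | br (a b : Fin 3) (g : Fin s) (l r : Cov_Sk s)

/-- the number of nodes of a skeleton -/
def Cov_size : Cov_Sk s → ℕ
  | .leaf _ => 1
  | .br _ _ _ l r => Cov_size l + Cov_size r + 1

/-- `t` is a skeleton of a refutation tree for `g` -/
inductive Cov_Vd (D : Circuit V s) (W : Fin 3 → Set V) (x : V → Bool) : Fin s → Cov_Sk s → Prop
  | leaf (g : Fin s) (k : Fin 3) : Cov_Pure D W x k g → Cov_Vd D W x g (.leaf k)
  | br (g g' i j : Fin s) (a b : Fin 3) (l r : Cov_Sk s) :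
      Relation.ReflTransGen (Cov_Step D W x a b) g g' → D.gate g' = .or i j →
      Cov_Vd D W x i l → Cov_Vd D W x j r → Cov_Vd D W x g (.br a b g' l r)

private theorem Cov_step_ref {D : Circuit V s} {W : Fin 3 → Set V} {x : V → Bool} {a b : Fin 3}
    {g g' : Fin s} (h : Cov_Step D W x a b g g') (h' : Cov_Ref D x g') : Cov_Ref D x g := by
  obtain ⟨L, hL⟩ := h'
  cases h with
  | andl _ j h1 => exact ⟨L, .left g g' j L h1 hL⟩
  | andr i _ h1 => exact ⟨L, .right g i g' L h1 hL⟩
  | orl _ j h1 h2 =>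
    obtain ⟨L', h3, -⟩ := h2
    exact ⟨L ++ L', .both g g' j L L' h1 hL h3⟩
  | orr i _ h1 h2 =>
    obtain ⟨L', h3, -⟩ := h2
    exact ⟨L' ++ L, .both g i g' L' L h1 h3 hL⟩

private theorem Cov_chain_ref {D : Circuit V s} {W : Fin 3 → Set V} {x : V → Bool}
    {a b : Fin 3} {g g' : Fin s} (h : Relation.ReflTransGen (Cov_Step D W x a b) g g')
    (h' : Cov_Ref D x g') : Cov_Ref D x g := by
  induction h with
  | refl => exact h'
  | tail _ h2 ih => exact ih (Cov_step_ref h2 h')

private theorem Cov_sound {D : Circuit V s} {W : Fin 3 → Set V} {x : V → Bool} {g : Fin s}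
    {t : Cov_Sk s} (h : Cov_Vd D W x g t) : Cov_Ref D x g := by
  induction h with
  | leaf g k h1 =>
    obtain ⟨L, hL, -⟩ := h1
    exact ⟨L, hL⟩
  | br g g' i j a b l r h1 h2 _ _ ih1 ih2 =>
    obtain ⟨L, hL⟩ := ih1
    obtain ⟨L', hL'⟩ := ih2
    exact Cov_chain_ref h1 ⟨L ++ L', .both g' i j L L' h2 hL hL'⟩

/-- a refuted gate has the value `0` -/
private theorem Cov_ref_eval {D : Circuit V s} {x : V → Bool} {val : Fin s → Bool}
    (hv : D.IsEval x val) {g : Fin s} {L : List V} (h : D.Refutes x g L) : val g = false := by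
  induction h with
  | lit g v b h1 h2 =>
    rw [hv g, h1]
    simpa using h2
  | left g i j L h1 _ ih =>
    rw [hv g, h1]
    simp [ih]
  | right g i j L h1 _ ih =>
    rw [hv g, h1]
    simp [ih]
  | both g i j L L' h1 _ _ ih ih' =>
    rw [hv g, h1]
    simp [ih, ih']

/-- refutation trees depend only on the values of the variables which they read -/
private theorem Cov_refutes_congr {D : Circuit V s} {x y : V → Bool} {g : Fin s} {L : List V}
    (h : D.Refutes x g L) (hxy : ∀ v ∈ L, x v = y v) : D.Refutes y g L := by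
  induction h with
  | lit g v b h1 h2 =>
    refine .lit g v b h1 ?_
    rw [← hxy v (by simp)]
    exact h2
  | left g i j L h1 _ ih => exact .left g i j L h1 (ih hxy)
  | right g i j L h1 _ ih => exact .right g i j L h1 (ih hxy)
  | both g i j L L' h1 _ _ ih ih' =>
    exact .both g i j L L' h1 (ih fun v hv => hxy v (by simp [hv]))
      (ih' fun v hv => hxy v (by simp [hv]))

private theorem Cov_pure_congr {D : Circuit V s} {W : Fin 3 → Set V} {x y : V → Bool}
    {k : Fin 3} {g : Fin s} (hxy : ∀ v ∈ W k, x v = y v) (h : Cov_Pure D W x k g) :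
    Cov_Pure D W y k g := by
  obtain ⟨L, hL, hk⟩ := h
  exact ⟨L, Cov_refutes_congr hL fun v hv => hxy v (hk v hv), hk⟩

private theorem Cov_chain_congr {D : Circuit V s} {W : Fin 3 → Set V} {x y : V → Bool}
    {a b : Fin 3} (ha : ∀ v ∈ W a, x v = y v) (hb : ∀ v ∈ W b, x v = y v) {g g' : Fin s}
    (h : Relation.ReflTransGen (Cov_Step D W x a b) g g') :
    Relation.ReflTransGen (Cov_Step D W y a b) g g' := by
  induction h with
  | refl => exact .refl
  | @tail g1 g2 _ h ih =>
    refine .tail ih ?_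
    cases h with
    | andl _ j h1 => exact .andl g1 g2 j h1
    | andr i _ h1 => exact .andr g1 i g2 h1
    | orl _ j h1 h2 => exact .orl g1 g2 j h1 (Cov_pure_congr hb h2)
    | orr i _ h1 h2 => exact .orr g1 i g2 h1 (Cov_pure_congr ha h2)

/-- the star lemma -/
private theorem Cov_star {D : Circuit V s} {W : Fin 3 → Set V} {u : V → Bool}
    {v : Fin 3 → V → Bool} (huv : ∀ k a, a ≠ k → ∀ e ∈ W a, v k e = u e) (t : Cov_Sk s) :
    ∀ g, (∀ k, Cov_Vd D W (v k) g t) → Cov_Vd D W u g t := by
  have hk : ∀ a b : Fin 3, ∃ k : Fin 3, a ≠ k ∧ b ≠ k := by decide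
  induction t with
  | leaf a =>
    intro g h
    obtain ⟨k, hk1, -⟩ := hk a a
    have h1 := h k
    cases h1 with
    | leaf _ _ h2 => exact .leaf g a (Cov_pure_congr (huv k a hk1) h2)
  | br a b g' l r ihl ihr =>
    intro g h
    obtain ⟨k, hk1, hk2⟩ := hk a b
    have h1 := h k
    cases h1 with
    | br _ _ i j _ _ _ _ hch hg hl hr =>
      refine .br g g' i j a b l r (Cov_chain_congr (huv k a hk1) (huv k b hk2) hch) hg
        (ihl i ?_) (ihr j ?_)
      · intro k'
        have h2 := h k'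
        cases h2 with
        | br _ _ i' j' _ _ _ _ hch' hg' hl' hr' =>
          rw [hg] at hg'
          injection hg' with e1 e2
          rw [e1]
          exact hl'
      · intro k'
        have h2 := h k'
        cases h2 with
        | br _ _ i' j' _ _ _ _ hch' hg' hl' hr' =>
          rw [hg] at hg'
          injection hg' with e1 e2
          rw [e2]
          exact hr'

/-! ### Existence of skeletons -/

private theorem Cov_changes_append {V : Type} (c : V → Fin 3) (w v : V) (L' : List V) :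
    ∀ L : List V, L.getLast? = some w → L'.head? = some v →
    changes c (L ++ L') = changes c L + changes c L' + if c w = c v then 0 else 1
  | [], h, _ => by simp at h
  | [u], h, h' => by
    obtain ⟨L'', rfl⟩ : ∃ L'', L' = v :: L'' := by
      cases L' with
      | nil => simp at h'
      | cons a l =>
        simp at h'
        exact ⟨l, by rw [h']⟩
    simp at h
    subst h
    simp [changes]
    omega
  | u :: u' :: L, h, h' => by
    have h1 := Cov_changes_append c w v L' (u' :: L) (by simpa using h) h'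
    simp only [List.cons_append, changes] at h1 ⊢
    rw [h1]
    omega

private theorem Cov_changes_le {V : Type} (c : V → Fin 3) (L L' : List V) :
    changes c (L ++ L') ≤ changes c L + changes c L' + 1 := by
  cases hL : L.getLast? with
  | none =>
    rw [List.getLast?_eq_none_iff] at hL
    subst hL
    simp
    omega
  | some w =>
    cases hL' : L'.head? with
    | none =>
      rw [List.head?_eq_none_iff] at hL'
      subst hL'
      simp
      omega
    | some v =>
      rw [Cov_changes_append c w v L' L hL hL']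
      split_ifs <;> omega

private theorem Cov_changes_const {V : Type} (k : Fin 3) : ∀ l : List V,
    changes Prod.snd (l.map fun v => (v, k)) = 0
  | [] => rfl
  | [_] => rfl
  | u :: u' :: l => by
    have h := Cov_changes_const k (u' :: l)
    simp only [List.map_cons, changes] at h ⊢
    rw [h]
    simp

/-- the frame of a refutation whose list of variables is labelled -/
def Cov_Fr (D : Circuit V s) (W : Fin 3 → Set V) (x : V → Bool) (g : Fin s)
    (L : List (V × Fin 3)) : Prop :=
  ∃ v w, L.head? = some v ∧ L.getLast? = some w ∧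
    ((changes Prod.snd L = 0 ∧ w.2 = v.2 ∧ ∀ u ∈ L, u.2 = v.2) ∨
      (0 < changes Prod.snd L ∧ ∃ g' l r, Cov_Vd D W x g (.br v.2 w.2 g' l r) ∧
        Cov_size l + Cov_size r + 2 ≤ 4 * changes Prod.snd L))

private theorem Cov_fr_step {D : Circuit V s} {W : Fin 3 → Set V} {x : V → Bool} {a b : Fin 3}
    {g i g' : Fin s} {l r : Cov_Sk s} (h : Cov_Step D W x a b g i)
    (h' : Cov_Vd D W x i (.br a b g' l r)) : Cov_Vd D W x g (.br a b g' l r) := by
  cases h' with
  | br _ _ i' j' _ _ _ _ hch hg hl hr =>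
    exact .br g g' i' j' a b l r (.head h hch) hg hl hr

private theorem Cov_pure_of {D : Circuit V s} {W : Fin 3 → Set V} {x : V → Bool} {g : Fin s}
    {L : List V} {LL : List (V × Fin 3)} (hL : D.Refutes x g L) (hm : LL.map Prod.fst = L)
    (hW : ∀ u ∈ LL, u.1 ∈ W u.2) {a : Fin 3} (ha : ∀ u ∈ LL, u.2 = a) : Cov_Pure D W x a g := by
  refine ⟨L, hL, fun v hv => ?_⟩
  rw [← hm, List.mem_map] at hv
  obtain ⟨u, hu, rfl⟩ := hv
  rw [← ha u hu]
  exact hW u hu

private theorem Cov_fr {D : Circuit V s} {W : Fin 3 → Set V} {x : V → Bool} {g : Fin s}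
    {L : List V} (h : D.Refutes x g L) : ∀ LL : List (V × Fin 3), LL.map Prod.fst = L →
    (∀ u ∈ LL, u.1 ∈ W u.2) → Cov_Fr D W x g LL := by
  induction h with
  | lit g v b h1 h2 =>
    intro LL hm hW
    rw [List.map_eq_singleton_iff] at hm
    obtain ⟨u, rfl, -⟩ := hm
    exact ⟨u, u, rfl, rfl, Or.inl ⟨rfl, rfl, by simp⟩⟩
  | left g i j L h1 _ ih =>
    intro LL hm hW
    obtain ⟨v, w, hv, hw, ih⟩ := ih LL hm hW
    refine ⟨v, w, hv, hw, ?_⟩
    rcases ih with ih | ⟨h0, g', l, r, h3, h4⟩
    · exact Or.inl ih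
    · exact Or.inr ⟨h0, g', l, r, Cov_fr_step (.andl g i j h1) h3, h4⟩
  | right g i j L h1 _ ih =>
    intro LL hm hW
    obtain ⟨v, w, hv, hw, ih⟩ := ih LL hm hW
    refine ⟨v, w, hv, hw, ?_⟩
    rcases ih with ih | ⟨h0, g', l, r, h3, h4⟩
    · exact Or.inl ih
    · exact Or.inr ⟨h0, g', l, r, Cov_fr_step (.andr g i j h1) h3, h4⟩
  | both g i j L L' h1 hL hL' ih ih' =>
    intro LL hm hW
    rw [List.map_eq_append_iff] at hm
    obtain ⟨M, M', rfl, hm, hm'⟩ := hm
    have hW1 : ∀ u ∈ M, u.1 ∈ W u.2 := fun u hu => hW u (List.mem_append_left _ hu)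
    have hW2 : ∀ u ∈ M', u.1 ∈ W u.2 := fun u hu => hW u (List.mem_append_right _ hu)
    obtain ⟨v, w, hv, hw, ih⟩ := ih M hm hW1
    obtain ⟨v', w', hv', hw', ih'⟩ := ih' M' hm' hW2
    have hne : M ≠ [] := by
      rintro rfl
      simp at hv
    have hne' : M' ≠ [] := by
      rintro rfl
      simp at hv'
    have hc := Cov_changes_append Prod.snd w v' M' M hw hv'
    refine ⟨v, w', ?_, ?_, ?_⟩
    · rw [List.head?_append_of_ne_nil M hne, hv]
    · rw [List.getLast?_append_of_ne_nil M hne', hw']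
    by_cases he : w.2 = v'.2
    · rw [if_pos he] at hc
      rcases ih with ⟨h0, h5, h6⟩ | ⟨h0, g', l, r, h3, h4⟩
      · rcases ih' with ⟨h0', h5', h6'⟩ | ⟨h0', g', l, r, h3', h4'⟩
        · left
          refine ⟨by omega, by rw [h5', ← he, h5], fun u hu => ?_⟩
          rcases List.mem_append.1 hu with hu | hu
          · exact h6 u hu
          · rw [h6' u hu, ← he, h5]
        · right
          refine ⟨by omega, g', l, r, ?_, by omega⟩
          have e : v.2 = v'.2 := by rw [← h5, he]
          rw [e]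
          exact Cov_fr_step (.orr g i j h1 (Cov_pure_of hL hm hW1
            fun u hu => by rw [h6 u hu, e])) h3'
      · rcases ih' with ⟨h0', h5', h6'⟩ | ⟨h0', g'', l', r', h3', h4'⟩
        · right
          refine ⟨by omega, g', l, r, ?_, by omega⟩
          have e : w'.2 = w.2 := by rw [h5', he]
          rw [e]
          exact Cov_fr_step (.orl g i j h1 (Cov_pure_of hL' hm' hW2
            fun u hu => by rw [h6' u hu, he])) h3
        · right
          refine ⟨by omega, g, .br v.2 w.2 g' l r, .br v'.2 w'.2 g'' l' r',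
            .br g g i j _ _ _ _ .refl h1 h3 h3', ?_⟩
          simp only [Cov_size]
          omega
    · rw [if_neg he] at hc
      obtain ⟨l, hl, hls⟩ : ∃ l : Cov_Sk s, Cov_Vd D W x i l ∧
          Cov_size l ≤ 4 * changes Prod.snd M + 1 := by
        rcases ih with ⟨h0, h5, h6⟩ | ⟨h0, g', l, r, h3, h4⟩
        · exact ⟨.leaf v.2, .leaf i _ (Cov_pure_of hL hm hW1 h6), by simp [Cov_size]⟩
        · exact ⟨_, h3, by simp only [Cov_size]; omega⟩
      obtain ⟨r, hr, hrs⟩ : ∃ r : Cov_Sk s, Cov_Vd D W x j r ∧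
          Cov_size r ≤ 4 * changes Prod.snd M' + 1 := by
        rcases ih' with ⟨h0, h5, h6⟩ | ⟨h0, g', l, r, h3, h4⟩
        · exact ⟨.leaf v'.2, .leaf j _ (Cov_pure_of hL' hm' hW2 h6), by simp [Cov_size]⟩
        · exact ⟨_, h3, by simp only [Cov_size]; omega⟩
      right
      refine ⟨by omega, g, l, r, .br g g i j _ _ _ _ .refl h1 hl hr, by omega⟩

private theorem Cov_exists {D : Circuit V s} {W : Fin 3 → Set V} {x : V → Bool} {g : Fin s}
    {L : List V} (h : D.Refutes x g L) (LL : List (V × Fin 3)) (hm : LL.map Prod.fst = L)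
    (hW : ∀ u ∈ LL, u.1 ∈ W u.2) :
    ∃ t : Cov_Sk s, Cov_Vd D W x g t ∧ Cov_size t ≤ 4 * changes Prod.snd LL + 1 := by
  obtain ⟨v, w, hv, hw, ih⟩ := Cov_fr h LL hm hW
  rcases ih with ⟨h0, h5, h6⟩ | ⟨h0, g', l, r, h3, h4⟩
  · exact ⟨.leaf v.2, .leaf g _ (Cov_pure_of h hm hW h6), by simp [Cov_size]⟩
  · exact ⟨_, h3, by simp only [Cov_size]; omega⟩

/-- the labels of the pieces -/
private theorem Cov_labels (W : Fin 3 → Set V) : ∀ P : List (List V),
    (∀ l ∈ P, ∃ k, ∀ v ∈ l, v ∈ W k) → ∃ LL : List (V × Fin 3),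
      LL.map Prod.fst = P.flatten ∧ (∀ u ∈ LL, u.1 ∈ W u.2) ∧
        changes Prod.snd LL ≤ P.length
  | [], _ => ⟨[], rfl, by simp, le_rfl⟩
  | l :: P, h => by
    obtain ⟨LL, h1, h2, h3⟩ := Cov_labels W P fun l' hl' => h l' (List.mem_cons_of_mem _ hl')
    obtain ⟨k, hk⟩ := h l List.mem_cons_self
    refine ⟨(l.map fun v => (v, k)) ++ LL, ?_, ?_, ?_⟩
    · rw [List.map_append, List.map_map, h1, List.flatten_cons]
      congr 1
      conv_rhs => rw [← List.map_id l]
      rfl
    · intro u hu
      rcases List.mem_append.1 hu with hu | hu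
      · rw [List.mem_map] at hu
        obtain ⟨v, hv, rfl⟩ := hu
        exact hk v hv
      · exact h2 u hu
    · have h4 := Cov_changes_le Prod.snd (l.map fun v => (v, k)) LL
      rw [Cov_changes_const] at h4
      rw [List.length_cons]
      omega

/-! ### Counting skeletons -/

/-- tokens -/
abbrev Cov_Tok (s : ℕ) : Type := Fin 3 ⊕ (Fin 3 × Fin 3 × Fin s)

/-- the code of a skeleton -/
def Cov_enc : Cov_Sk s → List (Cov_Tok s)
  | .leaf k => [.inl k]
  | .br a b g l r => .inr (a, b, g) :: (Cov_enc l ++ Cov_enc r)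

private theorem Cov_length_enc (t : Cov_Sk s) : (Cov_enc t).length = Cov_size t := by
  induction t with
  | leaf k => rfl
  | br a b g l r ihl ihr =>
    simp [Cov_enc, Cov_size, ihl, ihr]

/-- the skeleton of a list of tokens -/
def Cov_build : ℕ → List (Cov_Tok s) → Cov_Sk s × List (Cov_Tok s)
  | 0, ts => (.leaf 0, ts)
  | _ + 1, [] => (.leaf 0, [])
  | _ + 1, .inl k :: ts => (.leaf k, ts)
  | n + 1, .inr (a, b, g) :: ts =>
    (.br a b g (Cov_build n ts).1 (Cov_build n (Cov_build n ts).2).1,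
      (Cov_build n (Cov_build n ts).2).2)

private theorem Cov_build_enc (t : Cov_Sk s) : ∀ (n : ℕ) (rest : List (Cov_Tok s)),
    Cov_size t ≤ n → Cov_build n (Cov_enc t ++ rest) = (t, rest) := by
  induction t with
  | leaf k =>
    intro n rest hn
    simp only [Cov_size] at hn
    obtain ⟨n, rfl⟩ : ∃ m, n = m + 1 := ⟨n - 1, by omega⟩
    rfl
  | br a b g l r ihl ihr =>
    intro n rest hn
    simp only [Cov_size] at hn
    obtain ⟨n, rfl⟩ : ∃ m, n = m + 1 := ⟨n - 1, by omega⟩
    have h1 := ihl n (Cov_enc r ++ rest) (by omega)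
    have h2 := ihr n rest (by omega)
    simp only [Cov_enc, List.cons_append, List.append_assoc, Cov_build, h1, h2]

end Cov

theorem cover {V : Type} {s : ℕ} (D : Circuit V s) (W : Fin 3 → Set V) (r : ℕ) :
    ∃ (K : ℕ) (T : Fin K → (V → Bool) → Prop), K ≤ (16 * s) ^ (4 * r + 3) ∧
      (∀ θ, StarW W (T θ)) ∧ (∀ θ x, T θ x → ¬ D.Accepts x) ∧
      ∀ x, (∃ P : List (List V), P.length = r ∧ D.Refutes x D.out P.flatten ∧
        ∀ l ∈ P, ∃ k, ∀ v ∈ l, v ∈ W k) → ∃ θ, T θ x := by
  have hs : 1 ≤ s := by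
    have := D.out.2
    omega
  let M := 4 * r + 1
  let e := Fintype.equivFin (List.Vector (Cov_Tok s) M)
  let P : List.Vector (Cov_Tok s) M → (V → Bool) → Prop :=
    fun θ x => Cov_Vd D W x D.out (Cov_build M θ.1).1
  refine ⟨Fintype.card (List.Vector (Cov_Tok s) M), fun θ x => P (e.symm θ) x, ?_, ?_, ?_, ?_⟩
  · rw [card_vector]
    have h1 : Fintype.card (Cov_Tok s) = 3 + 3 * (3 * s) := by simp [Cov_Tok]
    rw [h1]
    calc (3 + 3 * (3 * s)) ^ M ≤ (16 * s) ^ M := Nat.pow_le_pow_left (by omega) _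
      _ ≤ (16 * s) ^ (4 * r + 3) := Nat.pow_le_pow_right (by omega) (by simp only [M]; omega)
  · intro θ u v huv h
    exact Cov_star huv _ _ h
  · rintro θ x h ⟨val, hv, ho⟩
    obtain ⟨L, hL⟩ := Cov_sound h
    rw [Cov_ref_eval hv hL] at ho
    exact Bool.noConfusion ho
  · rintro x ⟨Q, hQr, hL, hQ⟩
    obtain ⟨LL, hm, hW, hch⟩ := Cov_labels W Q hQ
    obtain ⟨t, ht, hts⟩ := Cov_exists hL LL hm hW
    have hM : Cov_size t ≤ M := by
      simp only [M]
      omega
    refine ⟨e ⟨Cov_enc t ++ List.replicate (M - Cov_size t) (.inl 0), ?_⟩, ?_⟩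
    · rw [List.length_append, List.length_replicate, Cov_length_enc]
      omega
    · simp only [P, Equiv.symm_apply_apply]
      rw [Cov_build_enc t M _ hM]
      exact ht

end Pool.Agent.RP
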