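import Mathlib
import Pool.Agent.Lib.MP_0a1b52_lc_RP.Defs

/-!
# Reading patterns, module Clq: the cliques of a gadget graph
-/

set_option autoImplicit false

namespace Pool.Agent.RP

open Pool.Agent.FP

private theorem clq_ok_symm {I : Type} {z : ℕ} {X : Fin 3 → I → Bool} {i : I} {j j' : J z}
    (h : Ok X i j j') : Ok X i j' j := by
  intro t b h1 h2
  refine h t (!b) h2 ?_
  rw [Bool.not_not]
  exact h1

private theorem clq_gadj_symm {I : Type} {n z : ℕ} {w : I → J z → Fin n}
    {X : Fin 3 → I → Bool} {u v : Fin n} (h : GAdj w X u v) : GAdj w X v u := by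
  rcases h with h | h | ⟨i, j, j', h1, h2, h3, h4⟩
  · exact Or.inr (Or.inl h)
  · exact Or.inl h
  · exact Or.inr (Or.inr ⟨i, j', j, h1.symm, h3, h2, clq_ok_symm h4⟩)

private theorem clq_graph {I : Type} {n z : ℕ} (w : I → J z → Fin n) (X : Fin 3 → I → Bool)
    (u v : Fin n) (huv : u ≠ v) : (graphOf (GG w X)).Adj u v ↔ GAdj w X u v := by
  constructor
  · rintro ⟨e, h, h1⟩
    have h2 : GAdj w X e.1.1 e.1.2 := by simpa [GG] using h
    rcases h1 with h1 | h1
    · rw [h1] at h2; exact h2
    · rw [h1] at h2; exact clq_gadj_symm h2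
  · intro h
    rcases lt_or_gt_of_ne huv with h1 | h1
    · exact ⟨⟨(u, v), h1⟩, by simpa [GG] using h, Or.inl rfl⟩
    · exact ⟨⟨(v, u), h1⟩, by simpa [GG] using clq_gadj_symm h, Or.inr rfl⟩

open Classical in
private noncomputable def clq_R (n z : ℕ) : Finset (Fin n) :=
  Finset.univ.filter fun v => Pad z v

private theorem clq_mem_R {n z : ℕ} (v : Fin n) : v ∈ clq_R n z ↔ Pad z v := by
  simp [clq_R]

private theorem clq_card_R {n z : ℕ} (hz : z + 6 ≤ Nat.sqrt n) :
    (clq_R n z).card = Nat.sqrt n + 1 - (z + 6) := by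
  have h1 : Nat.sqrt n ≤ n := Nat.sqrt_le_self n
  have h2 : (clq_R n z).map Fin.valEmbedding =
      Finset.Ico (n - (Nat.sqrt n + 1 - (z + 6))) n := by
    ext a
    simp only [clq_R, Pad, Finset.mem_map, Finset.mem_filter, Finset.mem_univ, true_and,
      Fin.valEmbedding_apply, Finset.mem_Ico]
    constructor
    · rintro ⟨b, hb, rfl⟩
      exact ⟨hb, b.2⟩
    · rintro ⟨h3, h4⟩
      exact ⟨⟨a, h4⟩, h3, rfl⟩
  have h3 := congrArg Finset.card h2
  rw [Finset.card_map, Nat.card_Ico] at h3
  omega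

private theorem clq_card_J (z : ℕ) : Fintype.card (J z) = z + 6 := by
  simp [J]
  omega

theorem clq_iff {I : Type} {n z : ℕ} (w : I → J z → Fin n) (hz : z + 6 ≤ Nat.sqrt n)
    (hbase : ∀ i j, (w i j : ℕ) + (Nat.sqrt n + 1) ≤ n - 1)
    (hinj : ∀ i, Function.Injective (w i))
    (hshare : ∀ (i i' : I) (j k j' k' : J z), i ≠ i' → j ≠ k → w i j = w i' j' →
      w i k = w i' k' → False)
    (hclq : ∀ S : Finset (Fin n), z + 6 ≤ S.card →
      (∀ u ∈ S, ∀ v ∈ S, u ≠ v → ∃ i j j', w i j = u ∧ w i j' = v) →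
      ∃ i, ∀ u ∈ S, ∃ j, w i j = u)
    (X : Fin 3 → I → Bool) :
    Clq (GG w X) ↔ ∃ i, ∀ t, X t i = true := by
  classical
  have hR : ∀ i j, w i j ∉ clq_R n z := by
    intro i j h
    rw [clq_mem_R] at h
    have h1 := hbase i j
    unfold Pad at h
    omega
  constructor
  · rintro ⟨Q, hQ, hcard⟩
    have h1 : Nat.sqrt n + 1 ≤ Q.card := by
      have h2 : ((Nat.sqrt n : ℕ) : ℝ) < Q.card := lt_of_le_of_lt (Real.nat_sqrt_le_real_sqrt) hcard
      exact_mod_cast h2
    have h2 : z + 6 ≤ (Q \ clq_R n z).card := by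
      have h3 := Finset.le_card_sdiff (clq_R n z) Q
      rw [clq_card_R hz] at h3
      omega
    have hadj : ∀ u ∈ Q \ clq_R n z, ∀ v ∈ Q \ clq_R n z, u ≠ v →
        ∃ i j j', j ≠ j' ∧ u = w i j ∧ v = w i j' ∧ Ok X i j j' := by
      intro u hu v hv huv
      obtain ⟨hu1, hu2⟩ := Finset.mem_sdiff.1 hu
      obtain ⟨hv1, hv2⟩ := Finset.mem_sdiff.1 hv
      have h3 := (clq_graph w X u v huv).1 (hQ (by exact_mod_cast hu1) (by exact_mod_cast hv1) huv)
      rcases h3 with h3 | h3 | h3
      · exact absurd ((clq_mem_R u).2 h3) hu2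
      · exact absurd ((clq_mem_R v).2 h3) hv2
      · exact h3
    obtain ⟨i, hi⟩ := hclq (Q \ clq_R n z) h2 (by
      intro u hu v hv huv
      obtain ⟨i, j, j', -, h3, h4, -⟩ := hadj u hu v hv huv
      exact ⟨i, j, j', h3.symm, h4.symm⟩)
    have hsub : Q \ clq_R n z ⊆ Finset.univ.image (w i) := by
      intro u hu
      obtain ⟨j, hj⟩ := hi u hu
      exact Finset.mem_image.2 ⟨j, Finset.mem_univ j, hj⟩
    have hcardim : (Finset.univ.image (w i)).card = z + 6 := by
      rw [Finset.card_image_of_injective _ (hinj i), Finset.card_univ, clq_card_J]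
    have heq : Q \ clq_R n z = Finset.univ.image (w i) :=
      Finset.eq_of_subset_of_card_le hsub (by rw [hcardim]; exact h2)
    have hmem : ∀ j, w i j ∈ Q \ clq_R n z := by
      intro j
      rw [heq]
      exact Finset.mem_image.2 ⟨j, Finset.mem_univ j, rfl⟩
    refine ⟨i, fun t => ?_⟩
    have hne : (Sum.inl (t, false) : J z) ≠ Sum.inl (t, true) := by
      intro h
      have h3 := Sum.inl.inj h
      have h4 := congrArg Prod.snd h3
      exact Bool.false_ne_true h4
    obtain ⟨i', j, j', h3, h4, h5, h6⟩ := hadj _ (hmem (.inl (t, false))) _ (hmem (.inl (t, true)))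
      (fun h => hne (hinj i h))
    by_cases hii : i = i'
    · subst hii
      have h7 := hinj i h4
      have h8 := hinj i h5
      refine h6 t false h7.symm ?_
      rw [Bool.not_false]
      exact h8.symm
    · exact (hshare i i' _ _ j j' hii hne h4 h5).elim
  · rintro ⟨i, hi⟩
    refine ⟨clq_R n z ∪ Finset.univ.image (w i), ?_, ?_⟩
    · intro u hu v hv huv
      rw [clq_graph w X u v huv]
      simp only [Finset.coe_union, Set.mem_union, Finset.mem_coe, Finset.mem_image,
        Finset.mem_univ, true_and] at hu hv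
      rcases hu with hu | ⟨j, rfl⟩
      · exact Or.inl ((clq_mem_R u).1 hu)
      · rcases hv with hv | ⟨j', rfl⟩
        · exact Or.inr (Or.inl ((clq_mem_R v).1 hv))
        · refine Or.inr (Or.inr ⟨i, j, j', ?_, rfl, rfl, fun t _ _ _ => hi t⟩)
          rintro rfl
          exact huv rfl
    · have hdisj : Disjoint (clq_R n z) (Finset.univ.image (w i)) := by
        rw [Finset.disjoint_left]
        intro u hu hu'
        obtain ⟨j, -, rfl⟩ := Finset.mem_image.1 hu'
        exact hR i j hu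
      rw [Finset.card_union_of_disjoint hdisj, clq_card_R hz,
        Finset.card_image_of_injective _ (hinj i), Finset.card_univ, clq_card_J]
      have h3 : Nat.sqrt n + 1 - (z + 6) + (z + 6) = Nat.sqrt n + 1 := by omega
      rw [h3]
      push_cast
      exact Real.real_sqrt_lt_nat_sqrt_succ

theorem clq_indep {I : Type} {n z : ℕ} (w : I → J z → Fin n) (X X' : Fin 3 → I → Bool)
    (e : EdgeVar n)
    (h : ∀ t i, X t i ≠ X' t i →
      ¬ (e.1 = (w i (.inl (t, false)), w i (.inl (t, true))) ∨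
        e.1 = (w i (.inl (t, true)), w i (.inl (t, false))))) :
    GG w X e = GG w X' e := by
  have key : ∀ (X X' : Fin 3 → I → Bool) (_ : ∀ t i, X t i ≠ X' t i →
      ¬ (e.1 = (w i (.inl (t, false)), w i (.inl (t, true))) ∨
        e.1 = (w i (.inl (t, true)), w i (.inl (t, false))))),
      GAdj w X e.1.1 e.1.2 → GAdj w X' e.1.1 e.1.2 := by
    intro X X' hX h
    rcases h with h | h | ⟨i, j, j', h1, h2, h3, h4⟩
    · exact Or.inl h
    · exact Or.inr (Or.inl h)
    · refine Or.inr (Or.inr ⟨i, j, j', h1, h2, h3, fun t b hj hj' => ?_⟩)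
      have h5 := h4 t b hj hj'
      by_contra hne
      refine hX t i (fun h => hne (h ▸ h5)) ?_
      have he : e.1 = (w i j, w i j') := by rw [← h2, ← h3]
      subst hj hj'
      cases b
      · exact Or.inl he
      · exact Or.inr he
  unfold GG
  rw [decide_eq_decide]
  exact ⟨key X X' h, key X' X fun t i hne => h t i hne.symm⟩

end Pool.Agent.RP
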