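import Mathlib
import Pool.Agent.Lib.MP_0a1b52_lc_RP.Defs
import Pool.Agent.Lib.MP_b573ec_lc_ST.LinCount
import Pool.Agent.Lib.MP_0a1b52_lc_FP.Disj

/-!
# Reading patterns, module Dj: the measure of star-closed sets of zeros
-/

set_option autoImplicit false

namespace Pool.Agent.RP

/-- words cut into groups -/
private def Dj_equiv {κ : Type} {g : ℕ} (e : κ ≃ Fin g) :
    (Fin (20 * g) → Bool) ≃ (κ → Fin 20 → Bool) where
  toFun x τ := Pool.Agent.FP.Disj_gr x (e τ)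
  invFun w i := w (e.symm ⟨i.val / 20, by have := i.isLt; omega⟩)
    ⟨i.val % 20, Nat.mod_lt _ (by norm_num)⟩
  left_inv x := by
    funext i
    simp only [Pool.Agent.FP.Disj_gr, Equiv.apply_symm_apply]
    congr 1
    apply Fin.ext
    show 20 * (i.val / 20) + i.val % 20 = i.val
    omega
  right_inv w := by
    funext τ s
    have hs := s.isLt
    have ht := (e τ).isLt
    have h1 : (⟨(20 * (e τ).val + s.val) / 20, by omega⟩ : Fin g) = e τ :=
      Fin.ext (by show (20 * (e τ).val + s.val) / 20 = (e τ).val; omega)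
    have h2 : (⟨(20 * (e τ).val + s.val) % 20, by omega⟩ : Fin 20) = s :=
      Fin.ext (by show (20 * (e τ).val + s.val) % 20 = s.val; omega)
    show w (e.symm ⟨(20 * (e τ).val + s.val) / 20, _⟩)
      ⟨(20 * (e τ).val + s.val) % 20, _⟩ = w τ s
    rw [h1, h2, Equiv.symm_apply_apply]

/-- a star-closed set of zeros is small -/
private theorem Dj_star {g : ℕ} (S : Finset ((Fin (20 * g) → Bool) × (Fin (20 * g) → Bool) ×
      (Fin (20 * g) → Bool)))
    (hstar : ∀ x x' y y' z z', (x', y, z) ∈ S → (x, y', z) ∈ S → (x, y, z') ∈ S →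
      (x, y, z) ∈ S)
    (hpar : ∀ p ∈ S, Pool.Agent.ST.Lin.Zero p.1 p.2.1 p.2.2) :
    S.card * 2 ^ (2 * g) ≤ 8 ^ (20 * g) := by
  have h := Pool.Agent.ST.Lin.card_star (20 * g) S hstar
    (fun p hp => Pool.Agent.ST.Lin.chi_eq_one (hpar p hp))
  by_contra hlt
  push Not at hlt
  have h2 : (8 ^ (20 * g)) ^ 4 < (S.card * 2 ^ (2 * g)) ^ 4 :=
    Nat.pow_lt_pow_left hlt (by norm_num)
  have h3 : 4 ^ (20 * g) * (S.card * 2 ^ (2 * g)) ^ 4 ≤
      (8 ^ (20 * g)) ^ 4 * (3 ^ (20 * g) * 2 ^ (8 * g)) := by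
    calc 4 ^ (20 * g) * (S.card * 2 ^ (2 * g)) ^ 4
        = (4 ^ (20 * g) * S.card ^ 4) * 2 ^ (8 * g) := by
          rw [mul_pow, ← pow_mul]
          ring
      _ ≤ (3 ^ (20 * g) * 8 ^ (4 * (20 * g))) * 2 ^ (8 * g) := Nat.mul_le_mul_right _ h
      _ = _ := by
          rw [mul_comm 4 (20 * g), pow_mul 8 (20 * g) 4]
          ring
  have h4 : 3 ^ (20 * g) * 2 ^ (8 * g) ≤ 4 ^ (20 * g) := by
    rw [pow_mul, pow_mul, pow_mul, ← mul_pow]
    exact Nat.pow_le_pow_left (by norm_num) g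
  have h5 : 4 ^ (20 * g) * (S.card * 2 ^ (2 * g)) ^ 4 ≤ 4 ^ (20 * g) * (8 ^ (20 * g)) ^ 4 := by
    calc _ ≤ (8 ^ (20 * g)) ^ 4 * (3 ^ (20 * g) * 2 ^ (8 * g)) := h3
      _ ≤ (8 ^ (20 * g)) ^ 4 * 4 ^ (20 * g) := Nat.mul_le_mul_left _ h4
      _ = _ := mul_comm _ _
  have h6 := Nat.le_of_mul_le_mul_left h5 (by positivity)
  omega

/-- the measure of star-closed sets of zeros when all groups vary -/
private theorem Dj_full {κ : Type} [Fintype κ]
    (Z T : Finset ((κ → Fin 20 → Bool) × (κ → Fin 20 → Bool) × (κ → Fin 20 → Bool)))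
    (hZ : ∀ x y z, (x, y, z) ∈ Z ↔ Zr x y z) (hTZ : T ⊆ Z)
    (hstar : ∀ x x' y y' z z' : κ → Fin 20 → Bool, (x', y, z) ∈ T → (x, y', z) ∈ T →
      (x, y, z') ∈ T → (x, y, z) ∈ T) :
    T.card * 2 ^ Fintype.card κ ≤ Z.card := by
  classical
  let g : ℕ := Fintype.card κ
  let e : κ ≃ Fin g := Fintype.equivFin κ
  let Φ : (Fin (20 * g) → Bool) ≃ (κ → Fin 20 → Bool) := Dj_equiv e
  let Ψ : ((κ → Fin 20 → Bool) × (κ → Fin 20 → Bool) × (κ → Fin 20 → Bool)) ≃
      ((Fin (20 * g) → Bool) × (Fin (20 * g) → Bool) × (Fin (20 * g) → Bool)) :=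
    Φ.symm.prodCongr (Φ.symm.prodCongr Φ.symm)
  have hmem : ∀ (U : Finset ((κ → Fin 20 → Bool) × (κ → Fin 20 → Bool) ×
      (κ → Fin 20 → Bool))) (x y z : Fin (20 * g) → Bool),
      (x, y, z) ∈ U.map Ψ.toEmbedding ↔ (Φ x, Φ y, Φ z) ∈ U := by
    intro U x y z
    rw [Finset.mem_map_equiv]
    rfl
  have hzero : ∀ x y z : Fin (20 * g) → Bool,
      Zr (Φ x) (Φ y) (Φ z) ↔ Pool.Agent.ST.Lin.Zero x y z := by
    intro x y z
    constructor
    · intro h t ht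
      have h1 := h (e.symm ⟨t, ht⟩)
      have h2 := Pool.Agent.FP.Disj_grp_eq x y z ⟨t, ht⟩
      have h3 : ∀ w : Fin (20 * g) → Bool, Φ w (e.symm ⟨t, ht⟩) =
          Pool.Agent.FP.Disj_gr w ⟨t, ht⟩ := by
        intro w
        show Pool.Agent.FP.Disj_gr w (e (e.symm ⟨t, ht⟩)) = _
        rw [Equiv.apply_symm_apply]
      rw [h3, h3, h3, ← h2] at h1
      exact h1
    · intro h τ
      have h2 := Pool.Agent.FP.Disj_grp_eq x y z (e τ)
      have h1 := h (e τ).val (e τ).isLt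
      rw [h2] at h1
      exact h1
  have hS := Dj_star (g := g) (T.map Ψ.toEmbedding)
    (by
      intro x x' y y' z z' h1 h2 h3
      rw [hmem] at h1 h2 h3 ⊢
      exact hstar _ _ _ _ _ _ h1 h2 h3)
    (by
      rintro ⟨x, y, z⟩ hp
      rw [hmem] at hp
      exact (hzero x y z).1 ((hZ _ _ _).1 (hTZ hp)))
  have hZc := Pool.Agent.ST.Lin.card_zero (g := g) (Z.map Ψ.toEmbedding)
    (by
      intro x y z
      rw [hmem, hZ]
      exact hzero x y z)
  rw [Finset.card_map] at hS hZc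
  have h1 : T.card * 2 ^ (2 * g) ≤ 2 ^ g * Z.card := hS.trans hZc
  have h2 : 2 ^ g * (T.card * 2 ^ g) ≤ 2 ^ g * Z.card := by
    calc 2 ^ g * (T.card * 2 ^ g) = T.card * 2 ^ (2 * g) := by
          rw [two_mul, pow_add]
          ring
      _ ≤ _ := h1
  exact Nat.le_of_mul_le_mul_left h2 (by positivity)

theorem measure {ι : Type} [Fintype ι] [DecidableEq ι] (Γ : Finset ι)
    (Z T : Finset ((ι → Fin 20 → Bool) × (ι → Fin 20 → Bool) × (ι → Fin 20 → Bool)))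
    (hZ : ∀ x y z, (x, y, z) ∈ Z ↔ Zr x y z) (hTZ : T ⊆ Z)
    (hstar : ∀ x x' y y' z z' : ι → Fin 20 → Bool, (∀ τ ∉ Γ, x' τ = x τ) →
      (∀ τ ∉ Γ, y' τ = y τ) → (∀ τ ∉ Γ, z' τ = z τ) → (x', y, z) ∈ T → (x, y', z) ∈ T →
      (x, y, z') ∈ T → (x, y, z) ∈ T) :
    T.card * 2 ^ Γ.card ≤ Z.card := by
  classical
  let cut : (ι → Fin 20 → Bool) → ι → Fin 20 → Bool := fun x τ =>
    if τ ∈ Γ then fun _ => false else x τ
  have hcut : ∀ x x', cut x = cut x' ↔ ∀ τ ∉ Γ, x τ = x' τ := by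
    intro x x'
    constructor
    · intro h τ hτ
      have h1 := congrFun h τ
      simpa only [cut, if_neg hτ] using h1
    · intro h
      funext τ
      by_cases hτ : τ ∈ Γ
      · simp only [cut, if_pos hτ]
      · simp only [cut, if_neg hτ]
        exact h τ hτ
  let q : ((ι → Fin 20 → Bool) × (ι → Fin 20 → Bool) × (ι → Fin 20 → Bool)) →
      ((ι → Fin 20 → Bool) × (ι → Fin 20 → Bool) × (ι → Fin 20 → Bool)) := fun p =>
    (cut p.1, cut p.2.1, cut p.2.2)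
  have hTs : T.card = ∑ c, (T.filter fun p => q p = c).card :=
    Finset.card_eq_sum_card_fiberwise (fun _ _ => Finset.mem_coe.mpr (Finset.mem_univ _))
  have hZs : Z.card = ∑ c, (Z.filter fun p => q p = c).card :=
    Finset.card_eq_sum_card_fiberwise (fun _ _ => Finset.mem_coe.mpr (Finset.mem_univ _))
  rw [hTs, hZs, Finset.sum_mul]
  refine Finset.sum_le_sum fun c _ => ?_
  rcases (T.filter fun p => q p = c).eq_empty_or_nonempty with h | ⟨⟨x0, y0, z0⟩, hp0⟩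
  · rw [h]
    simp
  obtain ⟨hp0T, hp0c⟩ := Finset.mem_filter.1 hp0
  -- gluing
  let glue : (ι → Fin 20 → Bool) → ({τ // τ ∈ Γ} → Fin 20 → Bool) → ι → Fin 20 → Bool :=
    fun w x τ => if h : τ ∈ Γ then x ⟨τ, h⟩ else w τ
  have hg1 : ∀ w x (τ : {τ // τ ∈ Γ}), glue w x τ.1 = x τ := by
    intro w x τ
    simp only [glue, dif_pos τ.2]
  have hg2 : ∀ w x, ∀ τ ∉ Γ, glue w x τ = w τ := by
    intro w x τ hτ
    simp only [glue, dif_neg hτ]
  have hginj : ∀ w x x', glue w x = glue w x' → x = x' := by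
    intro w x x' h
    funext τ
    rw [← hg1 w x τ, ← hg1 w x' τ, h]
  have hgcut : ∀ w x, cut (glue w x) = cut w := by
    intro w x
    rw [hcut]
    exact hg2 w x
  let Zc : Finset (({τ // τ ∈ Γ} → Fin 20 → Bool) × ({τ // τ ∈ Γ} → Fin 20 → Bool) ×
      ({τ // τ ∈ Γ} → Fin 20 → Bool)) := Finset.univ.filter fun p => Zr p.1 p.2.1 p.2.2
  let Tc : Finset (({τ // τ ∈ Γ} → Fin 20 → Bool) × ({τ // τ ∈ Γ} → Fin 20 → Bool) ×
      ({τ // τ ∈ Γ} → Fin 20 → Bool)) :=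
    Finset.univ.filter fun p => (glue x0 p.1, glue y0 p.2.1, glue z0 p.2.2) ∈ T
  have hZcm : ∀ x y z, (x, y, z) ∈ Zc ↔ Zr x y z := by
    intro x y z
    simp only [Zc, Finset.mem_filter, Finset.mem_univ, true_and]
  have hTcm : ∀ x y z, (x, y, z) ∈ Tc ↔ (glue x0 x, glue y0 y, glue z0 z) ∈ T := by
    intro x y z
    simp only [Tc, Finset.mem_filter, Finset.mem_univ, true_and]
  have hTZc : Tc ⊆ Zc := by
    rintro ⟨x, y, z⟩ hp
    rw [hZcm]
    rw [hTcm] at hp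
    have h1 := (hZ _ _ _).1 (hTZ hp)
    intro τ
    have h2 := h1 τ.1
    rw [hg1, hg1, hg1] at h2
    exact h2
  have hfull := Dj_full Zc Tc hZcm hTZc (by
    intro x x' y y' z z' h1 h2 h3
    rw [hTcm] at h1 h2 h3 ⊢
    refine hstar _ _ _ _ _ _ ?_ ?_ ?_ h1 h2 h3
    · intro τ hτ
      rw [hg2 _ _ τ hτ, hg2 _ _ τ hτ]
    · intro τ hτ
      rw [hg2 _ _ τ hτ, hg2 _ _ τ hτ]
    · intro τ hτ
      rw [hg2 _ _ τ hτ, hg2 _ _ τ hτ])
  rw [Fintype.card_coe] at hfull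
  have hle1 : (T.filter fun p => q p = c).card ≤ Tc.card := by
    refine Finset.card_le_card_of_injOn
      (fun p => (fun τ => p.1 τ.1, fun τ => p.2.1 τ.1, fun τ => p.2.2 τ.1)) ?_ ?_
    · rintro ⟨x, y, z⟩ hp
      obtain ⟨hpT, hpc⟩ := Finset.mem_filter.1 (Finset.mem_coe.1 hp)
      rw [Finset.mem_coe, hTcm]
      have heq : q (x, y, z) = q (x0, y0, z0) := hpc.trans hp0c.symm
      simp only [q, Prod.mk.injEq] at heq
      obtain ⟨e1, e2, e3⟩ := heq
      rw [hcut] at e1 e2 e3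
      have key : ∀ w w0 : ι → Fin 20 → Bool, (∀ τ ∉ Γ, w τ = w0 τ) →
          glue w0 (fun τ => w τ.1) = w := by
        intro w w0 hw
        funext τ
        by_cases hτ : τ ∈ Γ
        · simp only [glue, dif_pos hτ]
        · simp only [glue, dif_neg hτ]
          exact (hw τ hτ).symm
      rw [key x x0 e1, key y y0 e2, key z z0 e3]
      exact hpT
    · rintro ⟨x, y, z⟩ hp ⟨x', y', z'⟩ hp' h
      obtain ⟨hpT, hpc⟩ := Finset.mem_filter.1 (Finset.mem_coe.1 hp)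
      obtain ⟨hpT', hpc'⟩ := Finset.mem_filter.1 (Finset.mem_coe.1 hp')
      have heq : q (x, y, z) = q (x', y', z') := hpc.trans hpc'.symm
      simp only [q, Prod.mk.injEq] at heq
      obtain ⟨e1, e2, e3⟩ := heq
      rw [hcut] at e1 e2 e3
      simp only [Prod.mk.injEq] at h
      obtain ⟨d1, d2, d3⟩ := h
      have key : ∀ w w' : ι → Fin 20 → Bool, (∀ τ ∉ Γ, w τ = w' τ) →
          ((fun τ : {τ // τ ∈ Γ} => w τ.1) = fun τ => w' τ.1) → w = w' := by
        intro w w' hw hd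
        funext τ
        by_cases hτ : τ ∈ Γ
        · exact congrFun hd ⟨τ, hτ⟩
        · exact hw τ hτ
      rw [key x x' e1 d1, key y y' e2 d2, key z z' e3 d3]
  have hle2 : Zc.card ≤ (Z.filter fun p => q p = c).card := by
    refine Finset.card_le_card_of_injOn
      (fun p => (glue x0 p.1, glue y0 p.2.1, glue z0 p.2.2)) ?_ ?_
    · rintro ⟨x, y, z⟩ hp
      have hp1 := (hZcm x y z).1 (Finset.mem_coe.1 hp)
      have h0 := (hZ x0 y0 z0).1 (hTZ hp0T)
      rw [Finset.mem_coe, Finset.mem_filter]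
      refine ⟨(hZ _ _ _).2 ?_, ?_⟩
      · intro τ
        by_cases hτ : τ ∈ Γ
        · have h1 := hp1 ⟨τ, hτ⟩
          have e1 := hg1 x0 x ⟨τ, hτ⟩
          have e2 := hg1 y0 y ⟨τ, hτ⟩
          have e3 := hg1 z0 z ⟨τ, hτ⟩
          dsimp only at e1 e2 e3
          rw [← e1, ← e2, ← e3] at h1
          exact h1
        · dsimp only
          rw [hg2 _ _ τ hτ, hg2 _ _ τ hτ, hg2 _ _ τ hτ]
          exact h0 τ
      · rw [← hp0c]
        simp only [q, hgcut]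
    · rintro ⟨x, y, z⟩ _ ⟨x', y', z'⟩ _ h
      simp only [Prod.mk.injEq] at h
      obtain ⟨d1, d2, d3⟩ := h
      rw [hginj _ _ _ d1, hginj _ _ _ d2, hginj _ _ _ d3]
  calc (T.filter fun p => q p = c).card * 2 ^ Γ.card ≤ Tc.card * 2 ^ Γ.card :=
        Nat.mul_le_mul_right _ hle1
    _ ≤ Zc.card := hfull
    _ ≤ _ := hle2

/-- the disjoint inputs are the zeros -/
theorem xs_iff {ι : Type} (x y z : ι → Fin 20 → Bool) :
    (∃ i : ι × Pat, ∀ t, Xs x y z t i = true) ↔ ¬ Zr x y z := by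
  constructor
  · rintro ⟨⟨τ, p⟩, h⟩ hz
    have h0 : p.1.1 = x τ := of_decide_eq_true (h 0)
    have h1 : p.1.2.1 = y τ := of_decide_eq_true (h 1)
    have h2 : p.1.2.2 = z τ := of_decide_eq_true (h 2)
    have h3 := hz τ
    have h4 := p.2
    rw [h0, h1, h2] at h4
    omega
  · intro hz
    unfold Zr at hz
    push Not at hz
    obtain ⟨τ, hτ⟩ := hz
    refine ⟨(τ, ⟨(x τ, y τ, z τ), by
      rcases Nat.mod_two_eq_zero_or_one (∑ s, (x τ s && y τ s && z τ s).toNat) with h | h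
      · exact absurd h hτ
      · exact h⟩), ?_⟩
    intro t
    fin_cases t
    · exact decide_eq_true rfl
    · exact decide_eq_true rfl
    · exact decide_eq_true rfl

theorem pat_nonempty : Nonempty Pat :=
  ⟨⟨(fun s => decide (s = 0), fun s => decide (s = 0), fun s => decide (s = 0)), by decide⟩⟩

end Pool.Agent.RP
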