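import Mathlib
import Pool.Agent.Lib.MP_0a1b52_lc_RP.Bad
import Pool.Agent.Lib.MP_0a1b52_lc_RP.Good
import Pool.Agent.Lib.MP_0a1b52_lc_RP.Dens

/-!
# Reading patterns, module Core2: a family of systems; for all classes most of them are good
-/

set_option autoImplicit false

namespace Pool.Agent.RP

open Finset Pool.Agent.FP

open Classical in
private theorem good_sum_aux2 {P Jt : Type} [Fintype P] [Fintype Jt] (G N : ℕ)
    (S : Set (P × Jt → Fin N)) (ρ : ℝ) (h0 : 0 ≤ ρ) (h1 : ρ ≤ 1)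
    (hρ : ρ * (N : ℝ) ^ (Fintype.card P * Fintype.card Jt) ≤ (Nat.card S : ℝ))
    (D : Finset ((Fin G × P) × Jt → Fin N))
    (hD : ∀ φ ∈ D, ((univ.filter fun τ : Fin G =>
      (fun q : P × Jt => φ ((τ, q.1), q.2)) ∈ S).card : ℝ) < ρ * G / 4) :
    (D.card : ℝ) ≤
      (N : ℝ) ^ (Fintype.card (Fin G × P) * Fintype.card Jt) * (2 : ℝ) ^ (-(ρ * G / 4)) := by
  refine le_trans ?_ (good_sum G N S ρ h0 h1 hρ)
  exact_mod_cast Finset.card_le_card fun φ hφ =>
    Finset.mem_filter.mpr ⟨Finset.mem_univ _, hD φ hφ⟩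

open Classical in
theorem core2 {P : Type} [Fintype P] [Nonempty P] {z a h n N G : ℕ} (hN : N ≤ n) (hN1 : 1 ≤ N)
    (ha : 1 ≤ a) (hh : 2 ≤ h) (d b : ℝ) (hd0 : 0 ≤ d) (hd1 : d ≤ 1)
    (hb : bad (G * Fintype.card P) (z + 6) N a h ≤ b) (hb0 : 0 < b) :
    ∃ (Φ : Type) (_ : Fintype Φ) (Λ : Φ → Finset (Fin G)) (w : Φ → Fin G × P → J z → Fin N),
      0 < Fintype.card Φ ∧
      (∀ φ, NoBad a h fun i : {i : Fin G × P // i.1 ∈ Λ φ} => w φ i.1) ∧
      ∀ X : Fin 3 → Finset (EdgeVar n), (∀ t, d * (N : ℝ) ^ 2 ≤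
        ((univ.filter fun q : Fin N × Fin N =>
          Pr (X t) (Fin.castLE hN q.1) (Fin.castLE hN q.2)).card : ℝ)) →
        ((univ.filter fun φ : Φ => (((Λ φ).filter fun τ => ∀ p t,
          Pr (X t) (Fin.castLE hN (w φ (τ, p) (.inl (t, false))))
            (Fin.castLE hN (w φ (τ, p) (.inl (t, true))))).card : ℝ) <
          d ^ (3 * Fintype.card P) * G / 4 - 2 * b).card : ℝ) ≤
        Fintype.card Φ * (2 * (2 : ℝ) ^ (-(d ^ (3 * Fintype.card P) * G / 4))) := by
  have hJ : Fintype.card (J z) = z + 6 := by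
    simp [Fintype.card_sum, Fintype.card_prod]
    omega
  have hI : Fintype.card (Fin G × P) = G * Fintype.card P := by simp [Fintype.card_prod]
  obtain ⟨R, hR1, hR2⟩ := bad_sum (I := Fin G × P) (Jt := J z) N a h hN1 ha hh
  set ρ : ℝ := d ^ (3 * Fintype.card P) with hρdef
  have hρ0 : 0 ≤ ρ := pow_nonneg hd0 _
  have hρ1 : ρ ≤ 1 := pow_le_one₀ hd0 hd1
  set U : ℝ := (N : ℝ) ^ (Fintype.card (Fin G × P) * Fintype.card (J z)) with hU
  have hNpos : (0 : ℝ) < (N : ℝ) := by exact_mod_cast hN1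
  have hUpos : 0 < U := pow_pos hNpos _
  have hUcard : ((univ : Finset ((Fin G × P) × J z → Fin N)).card : ℝ) = U := by
    rw [Finset.card_univ, Fintype.card_fun, Fintype.card_prod (Fin G × P) (J z), Fintype.card_fin,
      Nat.cast_pow]
  -- few functions have a large set `R φ`
  set S1 : Finset ((Fin G × P) × J z → Fin N) :=
    univ.filter fun φ => 2 * b < ((R φ).card : ℝ) with hS1
  have h1 : (S1.card : ℝ) ≤ U / 2 := by
    have e1 : (S1.card : ℝ) * (2 * b) ≤ ∑ φ, ((R φ).card : ℝ) := by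
      calc (S1.card : ℝ) * (2 * b) = ∑ _φ ∈ S1, (2 * b) := by
            rw [Finset.sum_const, nsmul_eq_mul]
        _ ≤ ∑ φ ∈ S1, ((R φ).card : ℝ) := by
            apply Finset.sum_le_sum
            intro φ hφ
            exact (Finset.mem_filter.mp hφ).2.le
        _ ≤ ∑ φ, ((R φ).card : ℝ) := by
            apply Finset.sum_le_sum_of_subset_of_nonneg (Finset.subset_univ _)
            intro φ _ _
            exact Nat.cast_nonneg _
    have e2 : U * bad (Fintype.card (Fin G × P)) (Fintype.card (J z)) N a h ≤ U * b := by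
      rw [hJ, hI]
      exact mul_le_mul_of_nonneg_left hb hUpos.le
    have e3 : (S1.card : ℝ) * (2 * b) ≤ U / 2 * (2 * b) := by
      calc (S1.card : ℝ) * (2 * b) ≤ U * b := (e1.trans hR2).trans e2
        _ = U / 2 * (2 * b) := by ring
    exact le_of_mul_le_mul_right e3 (by linarith)
  have hΦ : U ≤ 2 * (Fintype.card {φ : (Fin G × P) × J z → Fin N //
      ((R φ).card : ℝ) ≤ 2 * b} : ℝ) := by
    have hsub : (univ : Finset ((Fin G × P) × J z → Fin N)) ⊆
        S1 ∪ univ.filter fun φ => ((R φ).card : ℝ) ≤ 2 * b := by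
      intro φ _
      rcases lt_or_ge (2 * b) ((R φ).card : ℝ) with hlt | hge
      · exact Finset.mem_union_left _ (Finset.mem_filter.mpr ⟨Finset.mem_univ _, hlt⟩)
      · exact Finset.mem_union_right _ (Finset.mem_filter.mpr ⟨Finset.mem_univ _, hge⟩)
    have hle := (Finset.card_le_card hsub).trans (Finset.card_union_le _ _)
    rw [← Fintype.card_subtype (fun φ : (Fin G × P) × J z → Fin N =>
      ((R φ).card : ℝ) ≤ 2 * b)] at hle
    have hle' : U ≤ (S1.card : ℝ) + (Fintype.card {φ : (Fin G × P) × J z → Fin N //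
        ((R φ).card : ℝ) ≤ 2 * b} : ℝ) := by
      rw [← hUcard]
      exact_mod_cast hle
    linarith
  refine ⟨{φ : (Fin G × P) × J z → Fin N // ((R φ).card : ℝ) ≤ 2 * b}, inferInstance,
    fun φ => univ.filter fun τ => ∀ p, (τ, p) ∉ R φ.1, fun φ i j => φ.1 (i, j), ?_, ?_, ?_⟩
  · have h2 : (0 : ℝ) < (Fintype.card {φ : (Fin G × P) × J z → Fin N //
        ((R φ).card : ℝ) ≤ 2 * b} : ℝ) := by linarith
    exact_mod_cast h2
  · intro φ
    refine hR1 φ.1 {i : Fin G × P // i.1 ∈ univ.filter fun τ => ∀ p, (τ, p) ∉ R φ.1}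
      Subtype.val Subtype.val_injective ?_
    rintro ⟨⟨τ, p⟩, hi⟩
    exact (Finset.mem_filter.mp hi).2 p
  · intro X hX
    set B : Finset {φ : (Fin G × P) × J z → Fin N // ((R φ).card : ℝ) ≤ 2 * b} :=
      univ.filter fun φ => (((univ.filter fun τ => ∀ p, (τ, p) ∉ R φ.1).filter fun τ => ∀ p t,
        Pr (X t) (Fin.castLE hN (φ.1 ((τ, p), .inl (t, false))))
          (Fin.castLE hN (φ.1 ((τ, p), .inl (t, true))))).card : ℝ) < ρ * G / 4 - 2 * b with hBdef
    have hB : ((B.image Subtype.val).card : ℝ) ≤ U * (2 : ℝ) ^ (-(ρ * G / 4)) := by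
      refine good_sum_aux2 G N (GoodC (P := P) (z := z) hN X) ρ hρ0 hρ1
        (good_card hN X d hd0 hX) (B.image Subtype.val) ?_
      intro φ hφ
      obtain ⟨ψ, hψ, rfl⟩ := Finset.mem_image.mp hφ
      have hψ2 := (Finset.mem_filter.mp hψ).2
      set F : Finset (Fin G) := (univ.filter fun τ => ∀ p, (τ, p) ∉ R ψ.1).filter fun τ => ∀ p t,
        Pr (X t) (Fin.castLE hN (ψ.1 ((τ, p), .inl (t, false))))
          (Fin.castLE hN (ψ.1 ((τ, p), .inl (t, true)))) with hF
      have hsub : (univ.filter fun τ : Fin G => (fun q : P × J z => ψ.1 ((τ, q.1), q.2)) ∈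
          GoodC (P := P) (z := z) hN X) ⊆ F ∪ (R ψ.1).image Prod.fst := by
        intro τ hτ
        by_cases hgood : ∀ p, (τ, p) ∉ R ψ.1
        · refine Finset.mem_union_left _ ?_
          rw [hF, Finset.mem_filter, Finset.mem_filter]
          refine ⟨⟨Finset.mem_univ _, hgood⟩, ?_⟩
          intro p t
          exact (Finset.mem_filter.mp hτ).2 p t
        · push Not at hgood
          obtain ⟨p, hp⟩ := hgood
          exact Finset.mem_union_right _ (Finset.mem_image.mpr ⟨(τ, p), hp, rfl⟩)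
      have hle := (Finset.card_le_card hsub).trans (Finset.card_union_le _ _)
      have hle2 : (univ.filter fun τ : Fin G => (fun q : P × J z => ψ.1 ((τ, q.1), q.2)) ∈
          GoodC (P := P) (z := z) hN X).card ≤ F.card + (R ψ.1).card :=
        hle.trans (Nat.add_le_add_left Finset.card_image_le _)
      have hle3 : ((univ.filter fun τ : Fin G => (fun q : P × J z => ψ.1 ((τ, q.1), q.2)) ∈
          GoodC (P := P) (z := z) hN X).card : ℝ) ≤ (F.card : ℝ) + ((R ψ.1).card : ℝ) := by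
        exact_mod_cast hle2
      have hle4 := ψ.2
      linarith
    rw [Finset.card_image_of_injective _ Subtype.val_injective] at hB
    have hpow : (0 : ℝ) ≤ (2 : ℝ) ^ (-(ρ * G / 4)) := Real.rpow_nonneg (by norm_num) _
    calc (B.card : ℝ) ≤ U * (2 : ℝ) ^ (-(ρ * G / 4)) := hB
      _ ≤ (2 * (Fintype.card {φ : (Fin G × P) × J z → Fin N //
          ((R φ).card : ℝ) ≤ 2 * b} : ℝ)) * (2 : ℝ) ^ (-(ρ * G / 4)) :=
        mul_le_mul_of_nonneg_right hΦ hpow
      _ = _ := by ring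

end Pool.Agent.RP
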