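import Mathlib
import Pool.Agent.Lib.MP_0a1b52_lc_RP.Cov
import Pool.Agent.Lib.MP_0a1b52_lc_RP.Col
import Pool.Agent.Lib.MP_0a1b52_lc_RP.Emb2

/-!
# Reading patterns: the theorem with one hard family
-/

set_option autoImplicit false

namespace Pool.Agent.RP

open Finset Pool.Agent.FP

private theorem main2_ne_nil {V : Type} {s : ℕ} {D : Circuit V s} {x : V → Bool} {g : Fin s}
    {L : List V} (h : D.Refutes x g L) : L ≠ [] := by
  induction h with
  | lit g v b _ _ => simp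
  | left g i j L _ _ ih => exact ih
  | right g i j L _ _ ih => exact ih
  | both g i j L L' _ _ _ ih _ => simp [ih]

/-- all edges but one -/
private theorem main2_full {n : ℕ} (hn : 60 ≤ n) (v : EdgeVar n) (x : EdgeVar n → Bool)
    (hx : ∀ e, e ≠ v → x e = true) : Clq x := by
  classical
  refine ⟨univ.erase v.1.1, ?_, ?_⟩
  · intro a ha b hb hab
    rw [mem_coe, mem_erase] at ha hb
    rcases lt_or_gt_of_ne hab with h | h
    · refine ⟨⟨(a, b), h⟩, hx _ fun he => ?_, Or.inl rfl⟩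
      exact ha.1 (by rw [← he])
    · refine ⟨⟨(b, a), h⟩, hx _ fun he => ?_, Or.inr rfl⟩
      exact hb.1 (by rw [← he])
  · rw [card_erase_of_mem (mem_univ _), card_univ, Fintype.card_fin]
    have h1 : (60 : ℝ) ≤ n := by exact_mod_cast hn
    have h2 : ((n - 1 : ℕ) : ℝ) = n - 1 := by
      rw [Nat.cast_sub (by omega)]
      simp
    rw [h2, Real.sqrt_lt' (by linarith)]
    nlinarith

private theorem main2_one {n s : ℕ} (hn : 60 ≤ n) (D : Circuit (EdgeVar n) s)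
    (hD : ∀ x, Clq x → D.Accepts x) : s ≠ 1 := by
  intro hs
  have key : ∀ i : Fin s, ¬ i < D.out := by
    intro i h
    have h1 := D.out.2
    have h3 : (i : ℕ) < D.out := h
    omega
  cases hg : D.gate D.out with
  | lit v b =>
    obtain ⟨val, h1, h2⟩ := hD (fun e => if e = v then !b else true)
      (main2_full hn v _ fun e he => by simp [he])
    have h3 := h1 D.out
    rw [hg, h2] at h3
    cases b <;> simp at h3
  | and i j => exact key _ (D.and_lt _ i j hg).1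
  | or i j => exact key _ (D.or_lt _ i j hg).1

open Classical in
theorem main2 (ε : ℝ) (hε : 0 < ε) : ∃ c : ℝ, 0 < c ∧ ∃ n₀ : ℕ, ∀ n ≥ n₀,
    ∃ (N : ℕ) (Q : Fin N → EdgeVar n → Bool), 0 < N ∧ (∀ i, ¬ Clq (Q i)) ∧
      ∀ β : Finset (Finset (EdgeVar n)),
      (∀ B ∈ β, (B.card : ℝ) ≤ (n : ℝ) ^ 2 / Real.logb 2 n) →
      ∑ B ∈ β, (B.card : ℝ) ≤ c * (n : ℝ) ^ 2 * Real.logb 2 n →
      ∀ (s r : ℕ) (D : Circuit (EdgeVar n) s), (∀ x, Clq x → D.Accepts x) →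
        r * Real.logb 2 s ≤ (n : ℝ) ^ (2 - ε) →
        ((univ.filter fun i => ∃ P : List (List (EdgeVar n)), P.length = r ∧
          D.Refutes (Q i) D.out P.flatten ∧ ∀ l ∈ P, ∃ B ∈ β, ∀ v ∈ l, v ∈ B).card : ℝ) ≤
          N * (2 : ℝ) ^ (-((n : ℝ) ^ (2 - ε))) := by
  set ε' := min (ε / 2) (1 / 2) with hε'
  have hε0 : 0 < ε' := lt_min (by positivity) (by norm_num)
  have hε1 : ε' ≤ ε / 2 := min_le_left _ _
  obtain ⟨δ, n₁, hδ, hE⟩ := embed2 ε' hε0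
  obtain ⟨c, hc, n₂, hcol⟩ := colour δ hδ
  have hlim : Filter.Tendsto (fun n : ℕ => (n : ℝ) ^ (ε / 2)) Filter.atTop Filter.atTop :=
    (tendsto_rpow_atTop (by positivity)).comp tendsto_natCast_atTop_atTop
  obtain ⟨n₃, h₃⟩ := Filter.eventually_atTop.1 (hlim.eventually_ge_atTop 36)
  refine ⟨c, hc, max (max n₁ n₂) (max n₃ 60), fun n hn => ?_⟩
  have hn1 : n₁ ≤ n := le_trans (le_trans (le_max_left _ _) (le_max_left _ _)) hn
  have hn2 : n₂ ≤ n := le_trans (le_trans (le_max_right _ _) (le_max_left _ _)) hn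
  have hn3 : n₃ ≤ n := le_trans (le_trans (le_max_left _ _) (le_max_right _ _)) hn
  have hn4 : 60 ≤ n := le_trans (le_trans (le_max_right _ _) (le_max_right _ _)) hn
  have hnR : (60 : ℝ) ≤ n := by exact_mod_cast hn4
  have hn0 : (0 : ℝ) < n := by linarith
  obtain ⟨N, Q, hN, hQ, hE⟩ := hE n hn1
  refine ⟨N, Q, hN, hQ, fun β hβ1 hβ2 s r D hD hrs => ?_⟩
  obtain ⟨κ, hκ⟩ := hcol n hn2 β hβ1 hβ2
  have hs : 1 ≤ s := by
    have := D.out.2
    omega
  have hs1 := main2_one hn4 D hD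
  have hs2 : 2 ≤ s := by omega
  have hs0 : (0 : ℝ) < s := by exact_mod_cast hs
  rcases Nat.eq_zero_or_pos r with hr0 | hr1
  · -- no list
    have h0 : (univ.filter fun i => ∃ P : List (List (EdgeVar n)), P.length = r ∧
          D.Refutes (Q i) D.out P.flatten ∧ ∀ l ∈ P, ∃ B ∈ β, ∀ v ∈ l, v ∈ B) = ∅ := by
      rw [filter_eq_empty_iff]
      rintro i - ⟨P, hP1, hP2, -⟩
      rw [hr0, List.length_eq_zero_iff] at hP1
      subst hP1
      exact main2_ne_nil hP2 rfl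
    rw [h0, card_empty, Nat.cast_zero]
    positivity
  have hr2 : (1 : ℝ) ≤ r := by exact_mod_cast hr1
  have hlog : 1 ≤ Real.logb 2 s := by
    rw [Real.le_logb_iff_rpow_le (by norm_num) hs0, Real.rpow_one]
    exact_mod_cast hs2
  let W : Fin 3 → Set (EdgeVar n) := fun t => {v | ∃ B ∈ β, v ∈ B ∧ κ B = t}
  obtain ⟨K, T, hK, hT1, hT2, hT3⟩ := cover D W r
  have hW : ∀ t, (n : ℝ) ^ (2 - δ) ≤ (Nat.card {e // ∀ a, a ≠ t → e ∉ W a} : ℝ) := by
    intro t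
    refine (hκ t).trans ?_
    rw [Nat.card_eq_fintype_card, Fintype.card_subtype]
    have h4 : (univ.filter fun v => ∀ B ∈ β, v ∈ B → κ B = t) ⊆
        univ.filter fun v => ∀ a, a ≠ t → v ∉ W a := by
      intro v hv
      rw [mem_filter] at hv ⊢
      refine ⟨mem_univ _, ?_⟩
      rintro a ha ⟨B, hB, hvB, hκB⟩
      exact ha (hκB ▸ hv.2 B hB hvB)
    exact_mod_cast card_le_card h4
  have hθ : ∀ θ, ((univ.filter fun i => T θ (Q i)).card : ℝ) ≤
      N * (2 : ℝ) ^ (-((n : ℝ) ^ (2 - ε'))) := fun θ =>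
    hE W hW (T θ) (hT1 θ) fun x hx hx' => hT2 θ x hx (hD x hx')
  have hsub : (univ.filter fun i => ∃ P : List (List (EdgeVar n)), P.length = r ∧
      D.Refutes (Q i) D.out P.flatten ∧ ∀ l ∈ P, ∃ B ∈ β, ∀ v ∈ l, v ∈ B) ⊆
      univ.biUnion fun θ : Fin K => univ.filter fun i => T θ (Q i) := by
    intro i hi
    rw [mem_filter] at hi
    obtain ⟨-, P, hP1, hP2, hP3⟩ := hi
    obtain ⟨θ, hθ⟩ := hT3 (Q i) ⟨P, hP1, hP2, fun l hl => by
      obtain ⟨B, hB, hl⟩ := hP3 l hl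
      exact ⟨κ B, fun v hv => ⟨B, hB, hl v hv, rfl⟩⟩⟩
    exact mem_biUnion.2 ⟨θ, mem_univ _, mem_filter.2 ⟨mem_univ _, hθ⟩⟩
  have h1 : ((univ.filter fun i => ∃ P : List (List (EdgeVar n)), P.length = r ∧
      D.Refutes (Q i) D.out P.flatten ∧ ∀ l ∈ P, ∃ B ∈ β, ∀ v ∈ l, v ∈ B).card : ℝ) ≤
      K * (N * (2 : ℝ) ^ (-((n : ℝ) ^ (2 - ε')))) := by
    have h9 := (card_le_card hsub).trans (card_biUnion_le (s := univ)
      (t := fun θ : Fin K => univ.filter fun i => T θ (Q i)))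
    have h10 : ((univ.filter fun i => ∃ P : List (List (EdgeVar n)), P.length = r ∧
        D.Refutes (Q i) D.out P.flatten ∧ ∀ l ∈ P, ∃ B ∈ β, ∀ v ∈ l, v ∈ B).card : ℝ) ≤
        ∑ θ : Fin K, ((univ.filter fun i => T θ (Q i)).card : ℝ) := by exact_mod_cast h9
    refine h10.trans ((sum_le_sum fun θ _ => hθ θ).trans (le_of_eq ?_))
    rw [sum_const, card_univ, Fintype.card_fin, nsmul_eq_mul]
  have hK2 : (K : ℝ) ≤ (2 : ℝ) ^ (35 * (r * Real.logb 2 s)) := by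
    have h2 : (K : ℝ) ≤ ((16 * s : ℝ)) ^ (4 * r + 3) := by exact_mod_cast hK
    refine h2.trans ?_
    have h3 : (16 * s : ℝ) = (2 : ℝ) ^ (4 + Real.logb 2 s) := by
      rw [Real.rpow_add (by norm_num), Real.rpow_logb (by norm_num) (by norm_num) hs0]
      norm_num
    rw [h3, ← Real.rpow_mul_natCast (by norm_num)]
    apply Real.rpow_le_rpow_of_exponent_le (by norm_num)
    push_cast
    have h6 : (4 * (r : ℝ) + 3) ≤ 7 * r := by linarith
    have h7 : 4 + Real.logb 2 s ≤ 5 * Real.logb 2 s := by linarith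
    calc (4 + Real.logb 2 s) * (4 * (r : ℝ) + 3) ≤ (5 * Real.logb 2 s) * (7 * r) :=
          mul_le_mul h7 h6 (by linarith) (by linarith)
      _ = 35 * (r * Real.logb 2 s) := by ring
  have hbig : 36 * (n : ℝ) ^ (2 - ε) ≤ (n : ℝ) ^ (2 - ε') := by
    have h8 := h₃ n hn3
    have e1 : (n : ℝ) ^ (2 - ε / 2) = (n : ℝ) ^ (ε / 2) * (n : ℝ) ^ (2 - ε) := by
      rw [← Real.rpow_add hn0]
      congr 1
      ring
    calc 36 * (n : ℝ) ^ (2 - ε) ≤ (n : ℝ) ^ (ε / 2) * (n : ℝ) ^ (2 - ε) :=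
          mul_le_mul_of_nonneg_right h8 (by positivity)
      _ = (n : ℝ) ^ (2 - ε / 2) := e1.symm
      _ ≤ (n : ℝ) ^ (2 - ε') :=
          Real.rpow_le_rpow_of_exponent_le (by linarith) (by linarith)
  have h5 : (K : ℝ) * (2 : ℝ) ^ (-((n : ℝ) ^ (2 - ε'))) ≤ (2 : ℝ) ^ (-((n : ℝ) ^ (2 - ε))) := by
    calc (K : ℝ) * (2 : ℝ) ^ (-((n : ℝ) ^ (2 - ε'))) ≤
        (2 : ℝ) ^ (35 * (r * Real.logb 2 s)) * (2 : ℝ) ^ (-((n : ℝ) ^ (2 - ε'))) :=
          mul_le_mul_of_nonneg_right hK2 (by positivity)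
      _ = (2 : ℝ) ^ (35 * (r * Real.logb 2 s) + -((n : ℝ) ^ (2 - ε'))) := by
          rw [Real.rpow_add (by norm_num)]
      _ ≤ (2 : ℝ) ^ (-((n : ℝ) ^ (2 - ε))) := by
          apply Real.rpow_le_rpow_of_exponent_le (by norm_num)
          linarith
  calc _ ≤ K * (N * (2 : ℝ) ^ (-((n : ℝ) ^ (2 - ε')))) := h1
    _ = N * (K * (2 : ℝ) ^ (-((n : ℝ) ^ (2 - ε')))) := by ring
    _ ≤ N * (2 : ℝ) ^ (-((n : ℝ) ^ (2 - ε))) :=
        mul_le_mul_of_nonneg_left h5 (Nat.cast_nonneg _)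

end Pool.Agent.RP
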