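import Mathlib
import Pool.Agent.Lib.MP_0a1b52_lc_RP.Bad
import Pool.Agent.Lib.MP_0a1b52_lc_RP.Good
import Pool.Agent.Lib.MP_0a1b52_lc_RP.Dens

/-!
# Reading patterns, module Core: a system of gadgets which is good for all classes at once
-/

set_option autoImplicit false

namespace Pool.Agent.RP

open Finset Pool.Agent.FP

open Classical in
private theorem good_sum_aux {P Jt : Type} [Fintype P] [Fintype Jt] (G N : ℕ)
    (S : Set (P × Jt → Fin N)) (ρ : ℝ) (h0 : 0 ≤ ρ) (h1 : ρ ≤ 1)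
    (hρ : ρ * (N : ℝ) ^ (Fintype.card P * Fintype.card Jt) ≤ (Nat.card S : ℝ))
    (D : Finset ((Fin G × P) × Jt → Fin N))
    (hD : ∀ φ ∈ D, ((univ.filter fun τ : Fin G =>
      (fun q : P × Jt => φ ((τ, q.1), q.2)) ∈ S).card : ℝ) < ρ * G / 4) :
    (D.card : ℝ) ≤
      (N : ℝ) ^ (Fintype.card (Fin G × P) * Fintype.card Jt) * (2 : ℝ) ^ (-(ρ * G / 4)) := by
  refine le_trans ?_ (good_sum G N S ρ h0 h1 hρ)
  exact_mod_cast Finset.card_le_card fun φ hφ =>
    Finset.mem_filter.mpr ⟨Finset.mem_univ _, hD φ hφ⟩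

open Classical in
theorem core {P : Type} [Fintype P] [Nonempty P] {z a h n N G C : ℕ} (hN : N ≤ n) (hN1 : 1 ≤ N)
    (ha : 1 ≤ a) (hh : 2 ≤ h) (X : Fin C → Fin 3 → Finset (EdgeVar n)) (d b : ℝ) (hd0 : 0 ≤ d)
    (hd1 : d ≤ 1) (hd : ∀ γ t, d * (N : ℝ) ^ 2 ≤ ((univ.filter fun q : Fin N × Fin N =>
      Pr (X γ t) (Fin.castLE hN q.1) (Fin.castLE hN q.2)).card : ℝ))
    (hb : bad (G * Fintype.card P) (z + 6) N a h ≤ b) (hb0 : 0 < b)
    (hC : (C : ℝ) * (2 : ℝ) ^ (-(d ^ (3 * Fintype.card P) * G / 4)) ≤ 1 / 4) :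
    ∃ (ι : Type) (_ : Fintype ι) (w : ι × P → J z → Fin N), NoBad a h w ∧
      ∀ γ, d ^ (3 * Fintype.card P) * G / 4 - 2 * b ≤ ((univ.filter fun τ : ι =>
        ∀ p t, Pr (X γ t) (Fin.castLE hN (w (τ, p) (.inl (t, false))))
          (Fin.castLE hN (w (τ, p) (.inl (t, true))))).card : ℝ) := by
  have hJ : Fintype.card (J z) = z + 6 := by
    simp [Fintype.card_sum, Fintype.card_prod]
    omega
  have hI : Fintype.card (Fin G × P) = G * Fintype.card P := by simp [Fintype.card_prod]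
  obtain ⟨R, hR1, hR2⟩ := bad_sum (I := Fin G × P) (Jt := J z) N a h hN1 ha hh
  set ρ : ℝ := d ^ (3 * Fintype.card P) with hρdef
  have hρ0 : 0 ≤ ρ := pow_nonneg hd0 _
  have hρ1 : ρ ≤ 1 := pow_le_one₀ hd0 hd1
  set U : ℝ := (N : ℝ) ^ (Fintype.card (Fin G × P) * Fintype.card (J z)) with hU
  have hNpos : (0 : ℝ) < (N : ℝ) := by exact_mod_cast hN1
  have hUpos : 0 < U := pow_pos hNpos _
  have hUcard : ((univ : Finset ((Fin G × P) × J z → Fin N)).card : ℝ) = U := by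
    rw [Finset.card_univ, Fintype.card_fun, Fintype.card_prod (Fin G × P) (J z), Fintype.card_fin,
      Nat.cast_pow]
  -- few functions have a large set `R φ`
  set S1 : Finset ((Fin G × P) × J z → Fin N) :=
    univ.filter fun φ => 2 * b < ((R φ).card : ℝ) with hS1
  have h1 : (S1.card : ℝ) ≤ U / 2 := by
    have e1 : (S1.card : ℝ) * (2 * b) ≤ ∑ φ, ((R φ).card : ℝ) := by
      calc (S1.card : ℝ) * (2 * b) = ∑ _φ ∈ S1, (2 * b) := by
            rw [Finset.sum_const, nsmul_eq_mul]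
        _ ≤ ∑ φ ∈ S1, ((R φ).card : ℝ) := by
            apply Finset.sum_le_sum
            intro φ hφ
            exact (Finset.mem_filter.mp hφ).2.le
        _ ≤ ∑ φ, ((R φ).card : ℝ) := by
            apply Finset.sum_le_sum_of_subset_of_nonneg (Finset.subset_univ _)
            intro φ _ _
            exact Nat.cast_nonneg _
    have e2 : U * bad (Fintype.card (Fin G × P)) (Fintype.card (J z)) N a h ≤ U * b := by
      rw [hJ, hI]
      exact mul_le_mul_of_nonneg_left hb hUpos.le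
    have e3 : (S1.card : ℝ) * (2 * b) ≤ U / 2 * (2 * b) := by
      calc (S1.card : ℝ) * (2 * b) ≤ U * b := (e1.trans hR2).trans e2
        _ = U / 2 * (2 * b) := by ring
    exact le_of_mul_le_mul_right e3 (by linarith)
  -- few functions have few good groups
  set S2 : Fin C → Finset ((Fin G × P) × J z → Fin N) := fun γ =>
    univ.filter fun φ : (Fin G × P) × J z → Fin N =>
      ((univ.filter fun τ : Fin G => (fun q : P × J z => φ ((τ, q.1), q.2)) ∈
        GoodC (P := P) (z := z) hN (X γ)).card : ℝ) < ρ * G / 4 with hS2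
  have h2 : ∀ γ, ((S2 γ).card : ℝ) ≤ U * (2 : ℝ) ^ (-(ρ * G / 4)) := by
    intro γ
    exact good_sum_aux G N (GoodC (P := P) (z := z) hN (X γ)) ρ hρ0 hρ1
      (good_card hN (X γ) d hd0 (hd γ)) (S2 γ) fun φ hφ => (Finset.mem_filter.mp hφ).2
  have h3 : ∑ γ, ((S2 γ).card : ℝ) ≤ U / 4 := by
    calc ∑ γ, ((S2 γ).card : ℝ) ≤ ∑ _γ : Fin C, U * (2 : ℝ) ^ (-(ρ * G / 4)) :=
          Finset.sum_le_sum fun γ _ => h2 γ
      _ = U * ((C : ℝ) * (2 : ℝ) ^ (-(ρ * G / 4))) := by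
          rw [Finset.sum_const, nsmul_eq_mul, Finset.card_univ, Fintype.card_fin]
          ring
      _ ≤ U * (1 / 4) := mul_le_mul_of_nonneg_left hC hUpos.le
      _ = U / 4 := by ring
  obtain ⟨φ, hφ1, hφ2⟩ : ∃ φ : (Fin G × P) × J z → Fin N, φ ∉ S1 ∧ ∀ γ, φ ∉ S2 γ := by
    by_contra hcon
    push Not at hcon
    have hsub : (univ : Finset ((Fin G × P) × J z → Fin N)) ⊆ S1 ∪ univ.biUnion S2 := by
      intro φ _
      by_cases hφ : φ ∈ S1
      · exact Finset.mem_union_left _ hφ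
      · obtain ⟨γ, hγ⟩ := hcon φ hφ
        exact Finset.mem_union_right _ (Finset.mem_biUnion.mpr ⟨γ, Finset.mem_univ _, hγ⟩)
    have hle : (univ : Finset ((Fin G × P) × J z → Fin N)).card ≤
        S1.card + ∑ γ, (S2 γ).card :=
      (Finset.card_le_card hsub).trans ((Finset.card_union_le _ _).trans
        (Nat.add_le_add_left Finset.card_biUnion_le _))
    have hle' : U ≤ (S1.card : ℝ) + ∑ γ, ((S2 γ).card : ℝ) := by
      rw [← hUcard]
      exact_mod_cast hle
    linarith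
  have hR : ((R φ).card : ℝ) ≤ 2 * b := by
    by_contra hc
    exact hφ1 (Finset.mem_filter.mpr ⟨Finset.mem_univ _, not_le.mp hc⟩)
  refine ⟨{τ : Fin G // ∀ p, (τ, p) ∉ R φ}, inferInstance,
    fun l j => φ ((l.1.1, l.2), j), ?_, ?_⟩
  · refine hR1 φ ({τ : Fin G // ∀ p, (τ, p) ∉ R φ} × P) (fun l => (l.1.1, l.2)) ?_ ?_
    · rintro ⟨⟨τ, hτ⟩, p⟩ ⟨⟨τ', hτ'⟩, p'⟩ he
      simp only [Prod.mk.injEq] at he
      obtain ⟨rfl, rfl⟩ := he
      rfl
    · rintro ⟨⟨τ, hτ⟩, p⟩
      exact hτ p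
  · intro γ
    have hG : ρ * G / 4 ≤ ((univ.filter fun τ : Fin G =>
        (fun q : P × J z => φ ((τ, q.1), q.2)) ∈ GoodC (P := P) (z := z) hN (X γ)).card : ℝ) := by
      by_contra hc
      exact hφ2 γ (Finset.mem_filter.mpr ⟨Finset.mem_univ _, not_le.mp hc⟩)
    set F : Finset {τ : Fin G // ∀ p, (τ, p) ∉ R φ} := univ.filter fun τ =>
      ∀ p t, Pr (X γ t) (Fin.castLE hN (φ ((τ.1, p), .inl (t, false))))
        (Fin.castLE hN (φ ((τ.1, p), .inl (t, true)))) with hF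
    have hsub : (univ.filter fun τ : Fin G => (fun q : P × J z => φ ((τ, q.1), q.2)) ∈
        GoodC (P := P) (z := z) hN (X γ)) ⊆ F.image Subtype.val ∪ (R φ).image Prod.fst := by
      intro τ hτ
      by_cases hgood : ∀ p, (τ, p) ∉ R φ
      · refine Finset.mem_union_left _ (Finset.mem_image.mpr ⟨⟨τ, hgood⟩, ?_, rfl⟩)
        rw [hF, Finset.mem_filter]
        refine ⟨Finset.mem_univ _, ?_⟩
        intro p t
        exact (Finset.mem_filter.mp hτ).2 p t
      · push Not at hgood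
        obtain ⟨p, hp⟩ := hgood
        exact Finset.mem_union_right _ (Finset.mem_image.mpr ⟨(τ, p), hp, rfl⟩)
    have hle := (Finset.card_le_card hsub).trans (Finset.card_union_le _ _)
    have hle2 : (univ.filter fun τ : Fin G => (fun q : P × J z => φ ((τ, q.1), q.2)) ∈
        GoodC (P := P) (z := z) hN (X γ)).card ≤ F.card + (R φ).card :=
      hle.trans (Nat.add_le_add Finset.card_image_le Finset.card_image_le)
    have hle3 : ((univ.filter fun τ : Fin G => (fun q : P × J z => φ ((τ, q.1), q.2)) ∈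
        GoodC (P := P) (z := z) hN (X γ)).card : ℝ) ≤ (F.card : ℝ) + ((R φ).card : ℝ) := by
      exact_mod_cast hle2
    linarith

end Pool.Agent.RP
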