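import Mathlib
import Pool.Agent.Lib.MP_0a1b52_lc_RP.Core
import Pool.Agent.Lib.MP_0a1b52_lc_RP.Arith
import Pool.Agent.Lib.MP_0a1b52_lc_RP.Struct

/-!
# Reading patterns, module Sys: the system of gadgets
-/

set_option autoImplicit false

namespace Pool.Agent.RP

open Finset Pool.Agent.FP

/-- the clique property in the larger set of vertices -/
private theorem sys_clique {I : Type} {a h n N z : ℕ} (hN : N ≤ n) {w : I → J z → Fin N}
    (hw : NoBad a h w) (ha : 1 ≤ a) (hh : 2 ≤ h) (hz : a * h ^ 2 ≤ z + 6) (S : Finset (Fin n))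
    (hS : z + 6 ≤ S.card)
    (hcov : ∀ u ∈ S, ∀ v ∈ S, u ≠ v → ∃ i j j', Fin.castLE hN (w i j) = u ∧
      Fin.castLE hN (w i j') = v) :
    ∃ i, ∀ u ∈ S, ∃ j, Fin.castLE hN (w i j) = u := by
  classical
  have hcard : Fintype.card (J z) = z + 6 := by
    simp only [J, Fintype.card_sum, Fintype.card_prod, Fintype.card_fin, Fintype.card_bool]
    omega
  have hinj : Function.Injective (Fin.castLE hN) := Fin.castLE_injective hN
  set S0 : Finset (Fin N) := univ.filter fun u => Fin.castLE hN u ∈ S with hS0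
  have hrange : ∀ u ∈ S, ∃ u0 ∈ S0, Fin.castLE hN u0 = u := by
    intro u hu
    obtain ⟨v, hv, hvu⟩ : ∃ v ∈ S, v ≠ u := by
      have h1 : 1 < S.card := by omega
      exact Finset.exists_mem_ne h1 u
    obtain ⟨i, j, j', h1, -⟩ := hcov u hu v hv (Ne.symm hvu)
    exact ⟨w i j, by simp [hS0, h1, hu], h1⟩
  have himg : S0.image (Fin.castLE hN) = S := by
    ext u
    rw [mem_image]
    constructor
    · rintro ⟨u0, h0, rfl⟩
      rw [hS0, mem_filter] at h0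
      exact h0.2
    · intro hu
      obtain ⟨u0, h0, h1⟩ := hrange u hu
      exact ⟨u0, h0, h1⟩
  have hcard0 : S0.card = S.card := by
    rw [← himg, card_image_of_injective _ hinj]
  obtain ⟨i, hi⟩ := hw.clique ha hh (by rw [hcard]; exact hz) S0 (by rw [hcard, hcard0]; exact hS)
    (by
      intro u hu v hv huv
      rw [hS0, mem_filter] at hu hv
      obtain ⟨i, j, j', h1, h2⟩ := hcov _ hu.2 _ hv.2 fun h => huv (hinj h)
      exact ⟨i, j, j', hinj h1, hinj h2⟩)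
  refine ⟨i, fun u hu => ?_⟩
  obtain ⟨u0, h0, rfl⟩ := hrange u hu
  obtain ⟨j, hj⟩ := hi u0 h0
  exact ⟨j, by rw [hj]⟩

open Classical in
theorem system (P : Type) [Fintype P] [Nonempty P] (ε : ℝ) (hε : 0 < ε) :
    ∃ (δ : ℝ) (z n₀ : ℕ), 0 < δ ∧ ∀ n ≥ n₀, z + 6 ≤ Nat.sqrt n ∧
      ∀ (C : ℕ) (X : Fin C → Fin 3 → Finset (EdgeVar n)),
      (∀ γ t, (n : ℝ) ^ (2 - δ) ≤ ((X γ t).card : ℝ)) →
      (C : ℝ) ≤ (2 : ℝ) ^ ((n : ℝ) ^ (2 - ε)) →
      ∃ (ι : Type) (_ : Fintype ι) (w : ι × P → J z → Fin n),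
        (∀ i j, (w i j : ℕ) + (Nat.sqrt n + 1) ≤ n - 1) ∧ (∀ i, Function.Injective (w i)) ∧
        (∀ (i i' : ι × P) (j k j' k' : J z), i ≠ i' → j ≠ k → w i j = w i' j' →
          w i k = w i' k' → False) ∧
        (∀ S : Finset (Fin n), z + 6 ≤ S.card →
          (∀ u ∈ S, ∀ v ∈ S, u ≠ v → ∃ i j j', w i j = u ∧ w i j' = v) →
          ∃ i, ∀ u ∈ S, ∃ j, w i j = u) ∧
        ∀ γ, (n : ℝ) ^ (2 - ε) ≤ ((univ.filter fun τ : ι =>
          ∀ p t, Pr (X γ t) (w (τ, p) (.inl (t, false))) (w (τ, p) (.inl (t, true)))).card : ℝ) := by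
  obtain ⟨δ, a, h, z, n₀, hδ, ha, hh, hz, hA⟩ := arith (Fintype.card P) Fintype.card_pos
    (min ε 1) (lt_min hε one_pos) (min_le_right _ _)
  refine ⟨δ, z, n₀, hδ, fun n hn => ?_⟩
  obtain ⟨h1, h2, h3, G, b, hb0, hb, hC0, hcnt⟩ := hA n hn
  refine ⟨h1, fun C X hX hC => ?_⟩
  set N := n - (Nat.sqrt n + 2) with hNdef
  have hN : N ≤ n := Nat.sub_le _ _
  have hn1 : (1 : ℝ) ≤ n := by
    have : 1 ≤ n := by omega
    exact_mod_cast this
  have hn0 : (0 : ℝ) < n := by linarith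
  have hd0 : (0 : ℝ) ≤ (n : ℝ) ^ (-δ) := Real.rpow_nonneg hn0.le _
  have hd1 : (n : ℝ) ^ (-δ) ≤ 1 := Real.rpow_le_one_of_one_le_of_nonpos hn1 (by linarith)
  have hεn : (n : ℝ) ^ (2 - ε) ≤ (n : ℝ) ^ (2 - min ε 1) :=
    Real.rpow_le_rpow_of_exponent_le hn1 (by linarith [min_le_left ε 1])
  have hd : ∀ γ t, (n : ℝ) ^ (-δ) * (N : ℝ) ^ 2 ≤ ((univ.filter fun q : Fin N × Fin N =>
      Pr (X γ t) (Fin.castLE hN q.1) (Fin.castLE hN q.2)).card : ℝ) := by
    intro γ t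
    have h4 := pair_card hN (X γ t)
    have h5 : n - N = Nat.sqrt n + 2 := by omega
    rw [h5] at h4
    have h6 : 2 * ((X γ t).card : ℝ) ≤ ((univ.filter fun q : Fin N × Fin N =>
      Pr (X γ t) (Fin.castLE hN q.1) (Fin.castLE hN q.2)).card : ℝ) +
        2 * (Nat.sqrt n + 2) * n := by exact_mod_cast h4
    have h7 := hX γ t
    linarith
  have hC1 : (C : ℝ) * (2 : ℝ) ^ (-(((n : ℝ) ^ (-δ)) ^ (3 * Fintype.card P) * G / 4)) ≤ 1 / 4 := by
    refine le_trans (mul_le_mul_of_nonneg_right ?_ (by positivity)) hC0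
    exact hC.trans (Real.rpow_le_rpow_of_exponent_le (by norm_num) hεn)
  obtain ⟨ι, hι, w, hw, hgood⟩ := core (P := P) hN h2 ha hh X _ b hd0 hd1 hd hb hb0 hC1
  refine ⟨ι, hι, fun i j => Fin.castLE hN (w i j), ?_, ?_, ?_, ?_, ?_⟩
  · intro i j
    have h4 := (w i j).2
    show (w i j : ℕ) + (Nat.sqrt n + 1) ≤ n - 1
    omega
  · intro i
    exact (Fin.castLE_injective hN).comp (hw.inj i)
  · intro i i' j k j' k' hi hj e1 e2
    have e1 := Fin.castLE_injective hN e1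
    have e2 := Fin.castLE_injective hN e2
    refine hw.share i i' j k j' k' hi hj ?_ e1 e2
    rintro rfl
    exact hj (hw.inj i (e1.trans e2.symm))
  · intro S hS hcov
    exact sys_clique hN hw ha hh hz S hS hcov
  · intro γ
    exact le_trans hεn (le_trans hcnt (hgood γ))

end Pool.Agent.RP
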