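import Mathlib
import Pool.Agent.Lib.MP_0a1b52_lc_RP.Sys
import Pool.Agent.Lib.MP_0a1b52_lc_RP.Clq
import Pool.Agent.Lib.MP_0a1b52_lc_RP.Dj

/-!
# Reading patterns, module Emb: star-closed sets for many classes do not cover the rejected graphs
-/

set_option autoImplicit false

namespace Pool.Agent.RP

open Finset Pool.Agent.FP

private theorem emb_pr {n : ℕ} {X : Finset (EdgeVar n)} {u v : Fin n} (h : Pr X u v)
    (e : EdgeVar n) (he : e ∉ X) : ¬ (e.1 = (u, v) ∨ e.1 = (v, u)) := by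
  obtain ⟨e', h1, h2⟩ := h
  have a1 := e.2
  have a2 := e'.2
  rintro (h3 | h3)
  · rcases h2 with h2 | h2
    · exact he ((Subtype.ext (h3.trans h2.symm) : e = e') ▸ h1)
    · rw [h3] at a1
      rw [h2] at a2
      exact lt_asymm a1 a2
  · rcases h2 with h2 | h2
    · rw [h3] at a1
      rw [h2] at a2
      exact lt_asymm a1 a2
    · exact he ((Subtype.ext (h3.trans h2.symm) : e = e') ▸ h1)

private theorem emb_indep {ι : Type} {n z : ℕ} (w : ι × Pat → J z → Fin n)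
    (XS : Fin 3 → Finset (EdgeVar n)) (W : Fin 3 → Set (EdgeVar n))
    (hX : ∀ t, ∀ e ∈ XS t, ∀ a, a ≠ t → e ∉ W a) (Γ : Finset ι)
    (hΓ : ∀ τ ∈ Γ, ∀ p t, Pr (XS t) (w (τ, p) (.inl (t, false))) (w (τ, p) (.inl (t, true))))
    (k : Fin 3) (X X' : Fin 3 → ι × Pat → Bool) (hd : ∀ t i, X t i ≠ X' t i → t = k ∧ i.1 ∈ Γ)
    (a : Fin 3) (ha : a ≠ k) (e : EdgeVar n) (he : e ∈ W a) : GG w X e = GG w X' e := by
  refine clq_indep w X X' e fun t i hne => ?_
  obtain ⟨rfl, hi⟩ := hd t i hne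
  exact emb_pr (hΓ i.1 hi i.2 t) e fun h => hX t e h a ha he

/-- one star-closed set of rejected graphs -/
private theorem emb_one {ι : Type} [Fintype ι] [DecidableEq ι] {n z : ℕ}
    (w : ι × Pat → J z → Fin n) (XS : Fin 3 → Finset (EdgeVar n)) (W : Fin 3 → Set (EdgeVar n))
    (hX : ∀ t, ∀ e ∈ XS t, ∀ a, a ≠ t → e ∉ W a) (Γ : Finset ι)
    (hΓ : ∀ τ ∈ Γ, ∀ p t, Pr (XS t) (w (τ, p) (.inl (t, false))) (w (τ, p) (.inl (t, true))))
    (Z S : Finset ((ι → Fin 20 → Bool) × (ι → Fin 20 → Bool) × (ι → Fin 20 → Bool)))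
    (hZ : ∀ x y z, (x, y, z) ∈ Z ↔ Zr x y z) (T : (EdgeVar n → Bool) → Prop) (hT : StarW W T)
    (hTZ : ∀ x y z : ι → Fin 20 → Bool, T (GG w (Xs x y z)) → Zr x y z)
    (hS : ∀ x y z : ι → Fin 20 → Bool, (x, y, z) ∈ S ↔ T (GG w (Xs x y z))) :
    S.card * 2 ^ Γ.card ≤ Z.card := by
  refine measure Γ Z S hZ ?_ ?_
  · rintro ⟨x, y, z⟩ h
    exact (hZ x y z).2 (hTZ x y z ((hS x y z).1 h))
  · intro x x' y y' z z' hx hy hz h1 h2 h3
    rw [hS] at h1 h2 h3 ⊢
    refine hT _ ![GG w (Xs x' y z), GG w (Xs x y' z), GG w (Xs x y z')] ?_ ?_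
    · intro k a ha e he
      have hcase : k = 0 ∨ k = 1 ∨ k = 2 := by
        fin_cases k <;> simp
      rcases hcase with rfl | rfl | rfl
      · refine emb_indep w XS W hX Γ hΓ 0 _ _ ?_ a ha e he
        intro t i hne
        have ht : t = 0 ∨ t = 1 ∨ t = 2 := by
          fin_cases t <;> simp
        rcases ht with rfl | rfl | rfl
        · refine ⟨rfl, ?_⟩
          by_contra hi
          refine hne ?_
          show decide (i.2.1.1 = x' i.1) = decide (i.2.1.1 = x i.1)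
          rw [hx i.1 hi]
        · exact absurd rfl hne
        · exact absurd rfl hne
      · refine emb_indep w XS W hX Γ hΓ 1 _ _ ?_ a ha e he
        intro t i hne
        have ht : t = 0 ∨ t = 1 ∨ t = 2 := by
          fin_cases t <;> simp
        rcases ht with rfl | rfl | rfl
        · exact absurd rfl hne
        · refine ⟨rfl, ?_⟩
          by_contra hi
          refine hne ?_
          show decide (i.2.1.2.1 = y' i.1) = decide (i.2.1.2.1 = y i.1)
          rw [hy i.1 hi]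
        · exact absurd rfl hne
      · refine emb_indep w XS W hX Γ hΓ 2 _ _ ?_ a ha e he
        intro t i hne
        have ht : t = 0 ∨ t = 1 ∨ t = 2 := by
          fin_cases t <;> simp
        rcases ht with rfl | rfl | rfl
        · exact absurd rfl hne
        · exact absurd rfl hne
        · refine ⟨rfl, ?_⟩
          by_contra hi
          refine hne ?_
          show decide (i.2.1.2.2 = z' i.1) = decide (i.2.1.2.2 = z i.1)
          rw [hz i.1 hi]
    · intro k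
      have hcase : k = 0 ∨ k = 1 ∨ k = 2 := by
        fin_cases k <;> simp
      rcases hcase with rfl | rfl | rfl
      · exact h1
      · exact h2
      · exact h3

theorem embed (ε : ℝ) (hε : 0 < ε) : ∃ (δ : ℝ) (n₀ : ℕ), 0 < δ ∧ ∀ n ≥ n₀,
    ∀ (C K : ℕ) (W : Fin C → Fin 3 → Set (EdgeVar n)),
    (∀ γ t, (n : ℝ) ^ (2 - δ) ≤ (Nat.card {e // ∀ a, a ≠ t → e ∉ W γ a} : ℝ)) →
    ∀ T : Fin C → Fin K → (EdgeVar n → Bool) → Prop, (∀ γ θ, StarW (W γ) (T γ θ)) →
      (∀ γ θ x, T γ θ x → ¬ Clq x) → (∀ x, ¬ Clq x → ∃ γ θ, T γ θ x) →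
      (n : ℝ) ^ (2 - ε) ≤ Real.logb 2 K + Real.logb 2 C := by
  classical
  have := pat_nonempty
  obtain ⟨δ, z, n₀, hδ, hsys⟩ := system Pat ε hε
  refine ⟨δ, n₀, hδ, fun n hn C K W hW T hT hTC hcov => ?_⟩
  obtain ⟨hz, hsys⟩ := hsys n hn
  by_cases hC : (C : ℝ) ≤ (2 : ℝ) ^ ((n : ℝ) ^ (2 - ε))
  swap
  · have hK : 0 ≤ Real.logb 2 K := by
      rcases Nat.eq_zero_or_pos K with rfl | hK
      · simp
      · exact Real.logb_nonneg (by norm_num) (by exact_mod_cast hK)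
    have hC' : (2 : ℝ) ^ ((n : ℝ) ^ (2 - ε)) < C := not_le.1 hC
    have h1 : (n : ℝ) ^ (2 - ε) ≤ Real.logb 2 C := by
      rw [Real.le_logb_iff_rpow_le (by norm_num) (lt_trans (by positivity) hC')]
      exact hC'.le
    linarith
  let X : Fin C → Fin 3 → Finset (EdgeVar n) := fun γ t =>
    univ.filter fun e => ∀ a, a ≠ t → e ∉ W γ a
  have hX : ∀ γ t, ∀ e ∈ X γ t, ∀ a, a ≠ t → e ∉ W γ a := by
    intro γ t e he
    exact (Finset.mem_filter.1 he).2
  have hXc : ∀ γ t, (n : ℝ) ^ (2 - δ) ≤ ((X γ t).card : ℝ) := by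
    intro γ t
    have h1 := hW γ t
    rw [Nat.card_eq_fintype_card, Fintype.card_subtype] at h1
    exact h1
  obtain ⟨ι, hι, w, hbase, hinj, hshare, hclq, hgood⟩ := hsys C X hXc hC
  let Z : Finset ((ι → Fin 20 → Bool) × (ι → Fin 20 → Bool) × (ι → Fin 20 → Bool)) :=
    univ.filter fun q => Zr q.1 q.2.1 q.2.2
  have hZ : ∀ x y z, (x, y, z) ∈ Z ↔ Zr x y z := by
    intro x y z
    simp [Z]
  have hcz : ∀ x y z : ι → Fin 20 → Bool, Clq (GG w (Xs x y z)) ↔ ¬ Zr x y z := by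
    intro x y z
    rw [clq_iff w hz hbase hinj hshare hclq, xs_iff]
  let S : Fin C → Fin K →
      Finset ((ι → Fin 20 → Bool) × (ι → Fin 20 → Bool) × (ι → Fin 20 → Bool)) :=
    fun γ θ => univ.filter fun q => T γ θ (GG w (Xs q.1 q.2.1 q.2.2))
  let Γ : Fin C → Finset ι := fun γ => univ.filter fun τ : ι =>
    ∀ p t, Pr (X γ t) (w (τ, p) (.inl (t, false))) (w (τ, p) (.inl (t, true)))
  have hS : ∀ γ θ, (S γ θ).card * 2 ^ (Γ γ).card ≤ Z.card := by
    intro γ θ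
    refine emb_one w (X γ) (W γ) (hX γ) (Γ γ) ?_ Z (S γ θ) hZ (T γ θ) (hT γ θ) ?_ ?_
    · intro τ hτ
      exact (Finset.mem_filter.1 hτ).2
    · intro x y z h
      by_contra hc
      exact hTC γ θ _ h ((hcz x y z).2 hc)
    · intro x y z
      simp [S]
  have hZpos : 0 < Z.card := by
    refine Finset.card_pos.2 ⟨(fun _ _ => false, fun _ _ => false, fun _ _ => false), ?_⟩
    rw [hZ]
    intro τ
    simp
  have hsum : Z.card ≤ ∑ γ : Fin C, ∑ θ : Fin K, (S γ θ).card := by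
    have h1 : Z ⊆ (univ : Finset (Fin C)).biUnion fun γ =>
        (univ : Finset (Fin K)).biUnion fun θ => S γ θ := by
      rintro ⟨x, y, z⟩ h
      have h2 : ¬ Clq (GG w (Xs x y z)) := fun hc => (hcz x y z).1 hc ((hZ x y z).1 h)
      obtain ⟨γ, θ, h3⟩ := hcov _ h2
      simp only [Finset.mem_biUnion, Finset.mem_univ, true_and]
      exact ⟨γ, θ, by simpa [S] using h3⟩
    refine (Finset.card_le_card h1).trans (Finset.card_biUnion_le.trans ?_)
    exact Finset.sum_le_sum fun γ _ => Finset.card_biUnion_le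
  have hone : ∀ γ θ, ((S γ θ).card : ℝ) * (2 : ℝ) ^ ((n : ℝ) ^ (2 - ε)) ≤ Z.card := by
    intro γ θ
    have h1 : (2 : ℝ) ^ ((n : ℝ) ^ (2 - ε)) ≤ (2 : ℝ) ^ (Γ γ).card := by
      rw [← Real.rpow_natCast]
      exact Real.rpow_le_rpow_of_exponent_le (by norm_num) (hgood γ)
    calc ((S γ θ).card : ℝ) * (2 : ℝ) ^ ((n : ℝ) ^ (2 - ε))
        ≤ (S γ θ).card * (2 : ℝ) ^ (Γ γ).card :=
          mul_le_mul_of_nonneg_left h1 (Nat.cast_nonneg _)
      _ ≤ Z.card := by exact_mod_cast hS γ θ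
  have hZr : (0 : ℝ) < Z.card := by exact_mod_cast hZpos
  have hfin : (Z.card : ℝ) * (2 : ℝ) ^ ((n : ℝ) ^ (2 - ε)) ≤ (C * K : ℝ) * Z.card := by
    calc (Z.card : ℝ) * (2 : ℝ) ^ ((n : ℝ) ^ (2 - ε))
        ≤ (∑ γ : Fin C, ∑ θ : Fin K, ((S γ θ).card : ℝ)) * (2 : ℝ) ^ ((n : ℝ) ^ (2 - ε)) := by
          refine mul_le_mul_of_nonneg_right ?_ (by positivity)
          exact_mod_cast hsum
      _ = ∑ γ : Fin C, ∑ θ : Fin K, ((S γ θ).card : ℝ) * (2 : ℝ) ^ ((n : ℝ) ^ (2 - ε)) := by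
          rw [Finset.sum_mul]
          exact Finset.sum_congr rfl fun γ _ => Finset.sum_mul _ _ _
      _ ≤ ∑ _γ : Fin C, ∑ _θ : Fin K, (Z.card : ℝ) :=
          Finset.sum_le_sum fun γ _ => Finset.sum_le_sum fun θ _ => hone γ θ
      _ = (C * K : ℝ) * Z.card := by
          simp only [Finset.sum_const, Finset.card_univ, Fintype.card_fin, nsmul_eq_mul]
          ring
  have hle : (2 : ℝ) ^ ((n : ℝ) ^ (2 - ε)) ≤ (C * K : ℝ) := by
    rw [mul_comm] at hfin
    exact le_of_mul_le_mul_right hfin hZr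
  have hCK : (0 : ℝ) < C * K := lt_of_lt_of_le (by positivity) hle
  have hC0 : (C : ℝ) ≠ 0 := by
    rintro h
    rw [h, zero_mul] at hCK
    exact lt_irrefl _ hCK
  have hK0 : (K : ℝ) ≠ 0 := by
    rintro h
    rw [h, mul_zero] at hCK
    exact lt_irrefl _ hCK
  have h1 : (n : ℝ) ^ (2 - ε) ≤ Real.logb 2 (C * K) := by
    rw [Real.le_logb_iff_rpow_le (by norm_num) hCK]
    exact hle
  rw [Real.logb_mul hC0 hK0] at h1
  linarith

end Pool.Agent.RP
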