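import Mathlib
import Pool.Agent.Lib.MP_0a1b52_lc_RP.Cov
import Pool.Agent.Lib.MP_0a1b52_lc_RP.Col
import Pool.Agent.Lib.MP_0a1b52_lc_RP.Emb

/-!
# Reading patterns: the theorem
-/

set_option autoImplicit false

namespace Pool.Agent.RP

open Finset Pool.Agent.FP

/-- the graph without edges is rejected -/
private theorem main_empty {n : ℕ} (hn : 40 ≤ n) : ¬ Clq (n := n) (fun _ => false) := by
  rintro ⟨K, hK, hcard⟩
  have h1 : (1 : ℝ) ≤ Real.sqrt n := by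
    rw [Real.one_le_sqrt]
    have : (40 : ℝ) ≤ n := by exact_mod_cast hn
    linarith
  have h2 : 1 < K.card := by
    have : (1 : ℝ) < K.card := lt_of_le_of_lt h1 hcard
    exact_mod_cast this
  obtain ⟨a, ha, b, hb, hab⟩ := Finset.one_lt_card.1 h2
  obtain ⟨e, he, -⟩ := hK ha hb hab
  exact Bool.noConfusion he

private theorem main_ne_nil {V : Type} {s : ℕ} {D : Circuit V s} {x : V → Bool} {g : Fin s}
    {L : List V} (h : D.Refutes x g L) : L ≠ [] := by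
  induction h with
  | lit g v b _ _ => simp
  | left g i j L _ _ ih => exact ih
  | right g i j L _ _ ih => exact ih
  | both g i j L L' _ _ _ ih _ => simp [ih]

/-- the refutations of a circuit with one gate consist of one literal -/
private theorem main_one {V : Type} {s : ℕ} (hs : s = 1) (D : Circuit V s) (x : V → Bool)
    (g : Fin s) (L : List V) (h : D.Refutes x g L) : ∃ v, L = [v] := by
  have key : ∀ i j : Fin s, ¬ i < j := by
    intro i j h
    have h1 := i.2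
    have h2 := j.2
    have h3 : (i : ℕ) < j := h
    omega
  cases h with
  | lit _ v b _ _ => exact ⟨v, rfl⟩
  | left _ i j _ h1 _ => exact absurd (D.and_lt g i j h1).1 (key _ _)
  | right _ i j _ h1 _ => exact absurd (D.and_lt g i j h1).1 (key _ _)
  | both _ i j _ _ h1 _ _ => exact absurd (D.or_lt g i j h1).1 (key _ _)

private theorem main_aux (ε : ℝ) (hε : 0 < ε) : ∃ c : ℝ, 0 < c ∧ ∃ n₀ : ℕ, ∀ n ≥ n₀,
    ∀ BB : Finset (Finset (Finset (EdgeVar n))),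
    (∀ β ∈ BB, (∀ B ∈ β, (B.card : ℝ) ≤ (n : ℝ) ^ 2 / Real.logb 2 n) ∧
      ∑ B ∈ β, (B.card : ℝ) ≤ c * (n : ℝ) ^ 2 * Real.logb 2 n) →
    ∀ (s r : ℕ) (D : Circuit (EdgeVar n) s), (∀ x, D.Accepts x ↔ Clq x) →
    (∀ x, ¬ Clq x → ∃ β ∈ BB, ∃ P : List (List (EdgeVar n)), P.length = r ∧
      D.Refutes x D.out P.flatten ∧ ∀ l ∈ P, ∃ B ∈ β, ∀ v ∈ l, v ∈ B) →
    (n : ℝ) ^ (2 - ε) ≤ (4 * r + 3) * (4 + Real.logb 2 s) + Real.logb 2 BB.card := by
  classical
  obtain ⟨δ, n₁, hδ, hE⟩ := embed ε hε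
  obtain ⟨c, hc, n₂, hcol⟩ := colour δ hδ
  refine ⟨c, hc, max n₁ n₂, fun n hn BB hBB s r D hD hP => ?_⟩
  have hn1 : n₁ ≤ n := le_trans (le_max_left _ _) hn
  have hn2 : n₂ ≤ n := le_trans (le_max_right _ _) hn
  have hs : 1 ≤ s := by
    have := D.out.2
    omega
  -- the colourings
  have hκ : ∀ β : Finset (Finset (EdgeVar n)), ∃ κ : Finset (EdgeVar n) → Fin 3, β ∈ BB →
      ∀ t : Fin 3, (n : ℝ) ^ (2 - δ) ≤
        ((univ.filter fun v => ∀ B ∈ β, v ∈ B → κ B = t).card : ℝ) := by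
    intro β
    by_cases h : β ∈ BB
    · obtain ⟨κ, hκ⟩ := hcol n hn2 β (hBB β h).1 (hBB β h).2
      exact ⟨κ, fun _ => hκ⟩
    · exact ⟨fun _ => 0, fun h' => absurd h' h⟩
  choose κ hκ using hκ
  let e : BB ≃ Fin BB.card := BB.equivFin
  let W : Fin BB.card → Fin 3 → Set (EdgeVar n) := fun γ t =>
    {v | ∃ B ∈ (e.symm γ).1, v ∈ B ∧ κ (e.symm γ).1 B = t}
  have hcov : ∀ γ, ∃ T : Fin ((16 * s) ^ (4 * r + 3)) → (EdgeVar n → Bool) → Prop,
      (∀ θ, StarW (W γ) (T θ)) ∧ (∀ θ x, T θ x → ¬ D.Accepts x) ∧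
      ∀ x, (∃ P : List (List (EdgeVar n)), P.length = r ∧ D.Refutes x D.out P.flatten ∧
        ∀ l ∈ P, ∃ k, ∀ v ∈ l, v ∈ W γ k) → ∃ θ, T θ x := by
    intro γ
    obtain ⟨K, T, hK, h1, h2, h3⟩ := cover D (W γ) r
    refine ⟨fun θ => if h : (θ : ℕ) < K then T ⟨θ, h⟩ else fun _ => False, ?_, ?_, ?_⟩
    · intro θ
      by_cases h : (θ : ℕ) < K
      · simp only [h, dite_true]
        exact h1 _
      · simp only [h, dite_false]
        intro u v _ h'
        exact h' 0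
    · intro θ x hx
      by_cases h : (θ : ℕ) < K
      · simp only [h, dite_true] at hx
        exact h2 _ _ hx
      · simp only [h, dite_false] at hx
    · intro x hx
      obtain ⟨θ, hθ⟩ := h3 x hx
      refine ⟨⟨θ, lt_of_lt_of_le θ.2 hK⟩, ?_⟩
      have h : ((⟨θ, lt_of_lt_of_le θ.2 hK⟩ : Fin ((16 * s) ^ (4 * r + 3))) : ℕ) < K := θ.2
      simp only [θ.2, dite_true]
      exact hθ
  choose T hT1 hT2 hT3 using hcov
  have h := hE n hn1 BB.card ((16 * s) ^ (4 * r + 3)) W ?_ T hT1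
    (fun γ θ x hx hx' => hT2 γ θ x hx ((hD x).2 hx')) ?_
  · refine h.trans (le_of_eq ?_)
    have hs0 : (0 : ℝ) < s := by exact_mod_cast hs
    congr 1
    push_cast
    rw [Real.logb_pow, Real.logb_mul (by norm_num) hs0.ne']
    have e1 : Real.logb 2 16 = 4 := by
      rw [show (16 : ℝ) = 2 ^ (4 : ℝ) by norm_num, Real.logb_rpow (by norm_num) (by norm_num)]
    rw [e1]
    push_cast
    ring
  · intro γ t
    refine (hκ (e.symm γ).1 (e.symm γ).2 t).trans ?_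
    rw [Nat.card_eq_fintype_card, Fintype.card_subtype]
    have h4 : (univ.filter fun v => ∀ B ∈ (e.symm γ).1, v ∈ B → κ (e.symm γ).1 B = t) ⊆
        univ.filter fun v => ∀ a, a ≠ t → v ∉ W γ a := by
      intro v hv
      rw [mem_filter] at hv ⊢
      refine ⟨mem_univ _, ?_⟩
      rintro a ha ⟨B, hB, hvB, hκB⟩
      exact ha (hκB ▸ hv.2 B hB hvB)
    exact_mod_cast card_le_card h4
  · intro x hx
    obtain ⟨β, hβ, P, hP1, hP2, hP3⟩ := hP x hx
    obtain ⟨θ, hθ⟩ := hT3 (e ⟨β, hβ⟩) x ⟨P, hP1, hP2, fun l hl => by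
      obtain ⟨B, hB, hl⟩ := hP3 l hl
      refine ⟨κ β B, fun v hv => ?_⟩
      refine ⟨B, ?_, hl v hv, ?_⟩
      · simp only [Equiv.symm_apply_apply]
        exact hB
      · simp only [Equiv.symm_apply_apply]⟩
    exact ⟨_, θ, hθ⟩

theorem main (ε : ℝ) (hε : 0 < ε) : ∃ c : ℝ, 0 < c ∧ ∃ n₀ : ℕ, ∀ n ≥ n₀,
    ∀ BB : Finset (Finset (Finset (EdgeVar n))),
    (∀ β ∈ BB, (∀ B ∈ β, (B.card : ℝ) ≤ (n : ℝ) ^ 2 / Real.logb 2 n) ∧
      ∑ B ∈ β, (B.card : ℝ) ≤ c * (n : ℝ) ^ 2 * Real.logb 2 n) →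
    ∀ (s r : ℕ) (D : Circuit (EdgeVar n) s), (∀ x, D.Accepts x ↔ Clq x) →
    (∀ x, ¬ Clq x → ∃ β ∈ BB, ∃ P : List (List (EdgeVar n)), P.length = r ∧
      D.Refutes x D.out P.flatten ∧ ∀ l ∈ P, ∃ B ∈ β, ∀ v ∈ l, v ∈ B) →
    (n : ℝ) ^ (2 - ε) ≤ r * Real.logb 2 s + Real.logb 2 BB.card := by
  set ε' := min (ε / 2) (1 / 2) with hε'
  have hε0 : 0 < ε' := lt_min (by positivity) (by norm_num)
  have hε1 : ε' ≤ ε / 2 := min_le_left _ _
  have hε2 : ε' ≤ 1 / 2 := min_le_right _ _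
  obtain ⟨c, hc, n₁, h₁⟩ := main_aux ε' hε0
  have hlim : Filter.Tendsto (fun n : ℕ => (n : ℝ) ^ (ε / 2)) Filter.atTop Filter.atTop :=
    (tendsto_rpow_atTop (by positivity)).comp tendsto_natCast_atTop_atTop
  obtain ⟨n₃, h₃⟩ := Filter.eventually_atTop.1 (hlim.eventually_ge_atTop 35)
  refine ⟨c, hc, max n₁ (max n₃ 60), fun n hn BB hBB s r D hD hP => ?_⟩
  have hn1 : n₁ ≤ n := le_trans (le_max_left _ _) hn
  have hn3 : n₃ ≤ n := le_trans (le_trans (le_max_left _ _) (le_max_right _ _)) hn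
  have hn4 : 60 ≤ n := le_trans (le_trans (le_max_right _ _) (le_max_right _ _)) hn
  have hnR : (60 : ℝ) ≤ n := by exact_mod_cast hn4
  have hn0 : (0 : ℝ) < n := by linarith
  have hlogC : 0 ≤ Real.logb 2 BB.card := by
    rcases Nat.eq_zero_or_pos BB.card with h0 | h0
    · rw [h0]; simp
    · exact Real.logb_nonneg (by norm_num) (by exact_mod_cast h0)
  have hbig : 35 * (n : ℝ) ^ (2 - ε) ≤ (n : ℝ) ^ (2 - ε') := by
    have h8 := h₃ n hn3
    have e1 : (n : ℝ) ^ (2 - ε / 2) = (n : ℝ) ^ (ε / 2) * (n : ℝ) ^ (2 - ε) := by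
      rw [← Real.rpow_add hn0]
      congr 1
      ring
    calc 35 * (n : ℝ) ^ (2 - ε) ≤ (n : ℝ) ^ (ε / 2) * (n : ℝ) ^ (2 - ε) :=
          mul_le_mul_of_nonneg_right h8 (by positivity)
      _ = (n : ℝ) ^ (2 - ε / 2) := e1.symm
      _ ≤ (n : ℝ) ^ (2 - ε') :=
          Real.rpow_le_rpow_of_exponent_le (by linarith) (by linarith)
  have hs1 : 1 ≤ s := by
    have := D.out.2
    omega
  by_cases hs2 : s = 1
  · -- one gate
    have h4 := h₁ n hn1 BB hBB s 1 D hD fun x hx => by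
      obtain ⟨β, hβ, P, hP1, hP2, hP3⟩ := hP x hx
      obtain ⟨v, hv⟩ := main_one hs2 D x _ _ hP2
      refine ⟨β, hβ, [[v]], rfl, ?_, ?_⟩
      · have h5 : ([[v]] : List (List (EdgeVar n))).flatten = [v] := rfl
        rw [h5, ← hv]
        exact hP2
      · intro l hl
        rw [List.mem_singleton] at hl
        subst hl
        have h5 : v ∈ P.flatten := by rw [hv]; simp
        obtain ⟨l, hl, hvl⟩ := List.mem_flatten.1 h5
        obtain ⟨B, hB, h6⟩ := hP3 l hl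
        exact ⟨B, hB, fun u hu => by rw [List.mem_singleton.1 hu]; exact h6 v hvl⟩
    rw [hs2] at h4 ⊢
    have h5 : Real.logb 2 ((1 : ℕ) : ℝ) = 0 := by simp
    rw [h5] at h4 ⊢
    have h6 : (60 : ℝ) ≤ (n : ℝ) ^ (2 - ε') := by
      calc (60 : ℝ) ≤ (n : ℝ) ^ (1 : ℝ) := by rw [Real.rpow_one]; exact hnR
        _ ≤ (n : ℝ) ^ (2 - ε') := Real.rpow_le_rpow_of_exponent_le (by linarith) (by linarith)
    push_cast at h4
    have h7 : 0 ≤ (n : ℝ) ^ (2 - ε) := by positivity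
    linarith
  · have hs2 : 2 ≤ s := by omega
    have hlog : 1 ≤ Real.logb 2 s := by
      rw [Real.le_logb_iff_rpow_le (by norm_num) (by exact_mod_cast hs1), Real.rpow_one]
      exact_mod_cast hs2
    have hr : 1 ≤ r := by
      by_contra hr
      have hr' : r = 0 := by omega
      subst hr'
      obtain ⟨β, hβ, P, hP1, hP2, -⟩ := hP (fun _ => false) (main_empty (by omega))
      rw [List.length_eq_zero_iff] at hP1
      subst hP1
      exact main_ne_nil hP2 rfl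
    have hr2 : (1 : ℝ) ≤ r := by exact_mod_cast hr
    have h4 := h₁ n hn1 BB hBB s r D hD hP
    have h5 : (4 * (r : ℝ) + 3) * (4 + Real.logb 2 s) ≤ 35 * (r * Real.logb 2 s) := by
      have h6 : (4 * (r : ℝ) + 3) ≤ 7 * r := by linarith
      have h7 : 4 + Real.logb 2 s ≤ 5 * Real.logb 2 s := by linarith
      calc (4 * (r : ℝ) + 3) * (4 + Real.logb 2 s) ≤ (7 * r) * (5 * Real.logb 2 s) :=
            mul_le_mul h6 h7 (by linarith) (by positivity)
        _ = 35 * (r * Real.logb 2 s) := by ring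
    linarith

end Pool.Agent.RP
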